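import Pool.Agent.GWO.Irr

/-! # Normal measures with a small base -/

namespace Pool.Agent.GWO

open Pool.Agent.SingleUlt Function Filter Cardinal Ordinal

universe u w

variable {δ : Cardinal.{u}} {U : Ultrafilter (Idx δ)}

theorem seed_normal (h : IsNormalMeasure δ U) : Seed δ U (id : Idx δ → Idx δ) where
  inf := h.uncountable.le
  cc := h.countable_inter
  tot := h.tot
  fix := h.coll_const
  seed := h.coll_id

/-- the sets of ordinals measured one by `U` -/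
def Wof (U : Ultrafilter (Idx δ)) : Set (Set Ordinal.{u}) :=
  {X | {i : Idx δ | i.1 ∈ X} ∈ U}

theorem ms_Wof (X : Set Ordinal.{u}) : ms δ.ord (Wof U) X ↔ {i : Idx δ | i.1 ∈ X} ∈ U := by
  unfold ms Wof
  have : {i : Idx δ | i.1 ∈ X ∩ Set.Iio δ.ord} = {i : Idx δ | i.1 ∈ X} := by
    ext i
    exact ⟨fun h => h.1, fun h => ⟨h, i.2⟩⟩
  rw [Set.mem_ofPred_eq, this]

/-- a normal measure is not represented by sets in its own ultrapower -/
theorem no_rep (h : IsNormalMeasure δ U) (V : Ordinal.{u} → Set (Set Ordinal.{u}))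
    (hV : ∀ X : Set Ordinal.{u}, {i : Idx δ | i.1 ∈ X} ∈ U ↔
      {i : Idx δ | X ∩ Set.Iio i.1 ∈ V i.1} ∈ U) : False := by
  refine no_SR V δ.ord (Wof U) ⟨?_, ?_, ?_, ?_, ?_, ?_, ?_, ?_⟩
  · rw [ms_Wof]; exact univ_mem' (fun _ => Set.mem_univ _)
  · rw [ms_Wof]
    intro hc
    have : {i : Idx δ | i.1 ∈ (∅ : Set Ordinal.{u})} = ∅ := by ext i; simp
    rw [this] at hc
    exact U.empty_notMem hc
  · intro X Y hXY
    rw [ms_Wof, ms_Wof]
    intro hX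
    exact mem_of_superset hX fun i hi => hXY hi
  · intro X Y
    rw [ms_Wof, ms_Wof, ms_Wof]
    intro hX hY
    exact mem_of_superset (inter_mem hX hY) fun i hi => hi
  · intro X
    rw [ms_Wof, ms_Wof]
    have : {i : Idx δ | i.1 ∈ Xᶜ} = {i : Idx δ | i.1 ∈ X}ᶜ := rfl
    rw [this]
    exact Ultrafilter.em U (fun i : Idx δ => i.1 ∈ X)
  · intro c hc
    rw [ms_Wof]
    exact mem_of_superset (h.tail ⟨c, hc⟩) fun i hi => hi
  · intro g hg
    rw [ms_Wof] at hg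
    have hg' : ∀ᶠ i : Idx δ in (U : Filter (Idx δ)), (g i.1).toZFSet ∈ o i := by
      filter_upwards [hg] with i hi
      exact Ordinal.toZFSet_mem_toZFSet_iff.2 hi
    obtain ⟨c, hc⟩ := h.regressive hg'
    refine ⟨c.1, ?_⟩
    rw [ms_Wof]
    filter_upwards [hc] with i hi
    exact Ordinal.toZFSet_injective hi
  · intro X
    rw [ms_Wof, ms_Wof, hV]
    rfl

/-- **Small base.**  A normal measure generated by at most `δ⁺` sets does not concentrate on the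
`α` at which the good wellordering reflects. -/
theorem small_base (h : IsNormalMeasure δ U)
    (hM : ∀ A : ZFSet.{u}, A ⊆ kap (Order.succ δ) → ∃ g, Coll U g A)
    (B : Set (Set (Idx δ))) (hB : #B ≤ Cardinal.lift.{u+1} (Order.succ δ))
    (hBU : ∀ b ∈ B, b ∈ U) (hgen : ∀ X ∈ U, ∃ b ∈ B, b ⊆ X) : False := by
  have hs := seed_normal h
  have hinf : ℵ₀ ≤ Order.succ δ := hs.inf.trans (Order.le_succ δ)
  -- codes of the members of `B`
  choose cd hcd1 hcd2 using fun S : Set (Idx δ) => exists_subset S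
  let bh : ZFSet.{u} := ZFSet.range fun b : B => cd b.1
  have hbh : ∀ y, y ∈ bh ↔ ∃ b ∈ B, cd b = y := by
    intro y
    rw [ZFSet.mem_range]
    exact ⟨fun ⟨b, hb⟩ => ⟨b.1, b.2, hb⟩, fun ⟨b, hb, hby⟩ => ⟨⟨b, hb⟩, hby⟩⟩
  have hcdk : ∀ b, cd b ⊆ kap (Order.succ δ) := fun b z hz =>
    kap_mono (Order.le_succ δ) (hcd1 b hz)
  have hS : #(Set.range fun b : B => cd b.1) ≤ Cardinal.lift.{u+1} (Order.succ δ) :=
    mk_range_le.trans hB
  obtain ⟨X, hX, hXc, hXk, hSX, hXW⟩ := exists_hull hinf _ hS [bh]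
  have hbX : bh ∈ X := hXW _ (by simp)
  have hmos : mos X bh = bh := mos_eq_self fun y hy => by
    obtain ⟨b, hb, rfl⟩ := (hbh y).1 hy
    exact ⟨hSX ⟨⟨b, hb⟩, rfl⟩, mos_fix_sub hXk (hcdk b)⟩
  obtain ⟨g, hg⟩ := hs.hullM hM hXc _ hbX
  rw [hmos] at hg
  let V : Ordinal.{u} → Set (Set Ordinal.{u}) := fun β =>
    {x | ∃ hβ : β < δ.ord, ∃ b, b ∈ g ⟨β, hβ⟩ ∧ ∀ γ : Ordinal.{u}, γ.toZFSet ∈ b → γ ∈ x}
  refine no_rep h V fun Y => ⟨fun hY => ?_, fun hY => ?_⟩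
  · obtain ⟨b, hb, hbY⟩ := hgen _ hY
    have h1 : ∀ᶠ i : Idx δ in (U : Filter (Idx δ)), cd b ∩ o i ∈ g i :=
      (hg.mem_iff (hs.sub (hcd1 b))).2 ((hbh _).2 ⟨b, hb, rfl⟩)
    filter_upwards [h1] with i hi
    refine ⟨i.2, cd b ∩ o i, hi, fun γ hγ => ?_⟩
    obtain ⟨h2, h3⟩ := ZFSet.mem_inter.1 hγ
    have h4 : γ < i.1 := Ordinal.toZFSet_mem_toZFSet_iff.1 h3
    refine ⟨?_, h4⟩
    have h5 : (⟨γ, lt_trans h4 i.2⟩ : Idx δ) ∈ b := by
      rw [← hcd2 b]; exact h2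
    exact hbY h5
  · have h1 : ∀ i : Idx δ, ∃ b : ZFSet.{u}, i ∈ {i : Idx δ | Y ∩ Set.Iio i.1 ∈ V i.1} →
        b ∈ g i ∧ ∀ γ : Ordinal.{u}, γ.toZFSet ∈ b → γ ∈ Y ∩ Set.Iio i.1 := by
      intro i
      by_cases hi : i ∈ {i : Idx δ | Y ∩ Set.Iio i.1 ∈ V i.1}
      · obtain ⟨_, b, hb, hb'⟩ := hi
        exact ⟨b, fun _ => ⟨hb, hb'⟩⟩
      · exact ⟨∅, fun h => absurd h hi⟩
    choose b hb using h1
    obtain ⟨y, hy⟩ := hs.tot b
    have h2 : y ∈ bh := by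
      refine (hg.mem_iff hy).1 ?_
      filter_upwards [hY] with i hi using (hb i hi).1
    obtain ⟨b0, hb0, rfl⟩ := (hbh y).1 h2
    refine mem_of_superset (hBU b0 hb0) fun c hc => ?_
    have h3 : o c ∈ cd b0 := by
      have : c ∈ {i | o i ∈ cd b0} := by rw [hcd2]; exact hc
      exact this
    have h4 := (hy.mem_iff (hs.fix c)).2 h3
    obtain ⟨i, hi1, hi2⟩ := (h4.and hY).exists
    exact ((hb i hi2).2 c.1 hi1).1

end Pool.Agent.GWO
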