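import Pool.Agent.SingleUlt.Count

/-! # `Σ₁` formulas, absoluteness, good wellorderings -/

namespace Pool.Agent.GWO

open Pool.Agent.SingleUlt Function Filter Cardinal

universe u w

/-- the formula `∀ x_i (x_i ∈ x_j → φ)` -/
abbrev ball (i j : ℕ) (φ : Fml) : Fml := .all i (.neg (.and (.mem i j) (.neg φ)))

/-- the formula `∃ x_i φ` -/
abbrev ex (i : ℕ) (φ : Fml) : Fml := .neg (.all i (.neg φ))

/-- `Δ₀` formulas: all quantifiers are bounded -/
inductive Delta0 : Fml → Prop
  | mem (i j : ℕ) : Delta0 (.mem i j)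
  | eq (i j : ℕ) : Delta0 (.eq i j)
  | neg {φ : Fml} : Delta0 φ → Delta0 (.neg φ)
  | and {φ ψ : Fml} : Delta0 φ → Delta0 ψ → Delta0 (.and φ ψ)
  | ball {i j : ℕ} {φ : Fml} : i ≠ j → Delta0 φ → Delta0 (ball i j φ)

/-- `Σ₁` formulas: a `Δ₀` formula preceded by existential quantifiers -/
inductive Sigma1 : Fml → Prop
  | base {φ : Fml} : Delta0 φ → Sigma1 φ
  | ex {i : ℕ} {φ : Fml} : Sigma1 φ → Sigma1 (ex i φ)

/-- the assignment giving the value `s` to the variable `x_0` and the value `p` to all others -/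
def asg (s p : ZFSet.{u}) : ℕ → ZFSet.{u} := fun n => if n = 0 then s else p

/-- `φ(·, p)` defines the set of all proper initial segments of a wellordering, without last
element, of the power set of `p` -/
def GoodWO (φ : Fml) (p : ZFSet.{u}) : Prop :=
  ∃ r : {x : ZFSet.{u} // x ⊆ p} → {x : ZFSet.{u} // x ⊆ p} → Prop,
    IsWellOrder _ r ∧ (∀ y, ∃ z, r y z) ∧
    ∀ s : ZFSet.{u}, φ.Tr (asg s p) ↔
      ∃ y : {x : ZFSet.{u} // x ⊆ p}, ∀ x : ZFSet.{u}, x ∈ s ↔ ∃ h : x ⊆ p, r ⟨x, h⟩ y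

theorem tr_ball {i j : ℕ} (hij : i ≠ j) (φ : Fml) (v : ℕ → ZFSet.{u}) :
    (ball i j φ).Tr v ↔ ∀ a, a ∈ v j → φ.Tr (update v i a) := by
  show (∀ a, ¬ (update v i a i ∈ update v i a j ∧ ¬ φ.Tr (update v i a))) ↔ _
  refine forall_congr' fun a => ?_
  rw [update_self, update_of_ne hij.symm]
  tauto

theorem tr_ex (i : ℕ) (φ : Fml) (v : ℕ → ZFSet.{u}) :
    (ex i φ).Tr v ↔ ∃ a, φ.Tr (update v i a) := by
  show (¬ ∀ a, ¬ φ.Tr (update v i a)) ↔ _
  push Not
  rfl

section Ult

variable {I : Type w} {D : Ultrafilter I}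

theorem upd {F : ℕ → I → ZFSet.{u}} {v : ℕ → ZFSet.{u}} (h : ∀ n, Coll D (F n) (v n)) {k : ℕ}
    {g : I → ZFSet.{u}} {a : ZFSet.{u}} (hg : Coll D g a) (n : ℕ) :
    Coll D (update F k g n) (update v k a n) := by
  by_cases hn : n = k
  · subst hn; rw [update_self, update_self]; exact hg
  · rw [update_of_ne hn, update_of_ne hn]; exact h n

theorem updF (F : ℕ → I → ZFSet.{u}) (k : ℕ) (g : I → ZFSet.{u}) (i : I) :
    (fun n => update F k g n i) = update (fun n => F n i) k (g i) := by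
  funext n
  by_cases h : n = k
  · subst h; simp
  · simp [update_of_ne h]

/-- Łoś for `Δ₀` formulas and the transitive collapse -/
theorem delta0_coll {φ : Fml} (hφ : Delta0 φ) : ∀ (F : ℕ → I → ZFSet.{u}) (v : ℕ → ZFSet.{u}),
    (∀ n, Coll D (F n) (v n)) → (φ.Tr v ↔ ∀ᶠ i in (D : Filter I), φ.Tr (fun n => F n i)) := by
  induction hφ with
  | mem i j => intro F v h; exact ((h j).mem_iff (h i)).symm
  | eq i j => intro F v h; exact ((h i).eq_iff (h j)).symm
  | @neg φ _ ih =>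
    intro F v h
    show ¬ φ.Tr v ↔ ∀ᶠ i in (D : Filter I), ¬ φ.Tr (fun n => F n i)
    rw [ih F v h, Ultrafilter.eventually_not]
  | @and φ ψ _ _ ih1 ih2 =>
    intro F v h
    show (φ.Tr v ∧ ψ.Tr v) ↔ ∀ᶠ i in (D : Filter I), (φ.Tr (fun n => F n i) ∧
      ψ.Tr (fun n => F n i))
    rw [ih1 F v h, ih2 F v h, eventually_and]
  | @ball k j φ hkj _ ih =>
    intro F v h
    rw [tr_ball hkj]
    have h1 : (∀ᶠ i in (D : Filter I), (ball k j φ).Tr (fun n => F n i)) ↔
        ∀ᶠ i in (D : Filter I), ∀ a, a ∈ F j i → φ.Tr (update (fun n => F n i) k a) := by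
      refine eventually_congr (Eventually.of_forall fun i => ?_)
      rw [tr_ball hkj]
    rw [h1]
    constructor
    · intro H
      by_contra hc
      rw [← Ultrafilter.eventually_not] at hc
      have h2 : ∀ i, ∃ a : ZFSet.{u}, (¬ ∀ a, a ∈ F j i → φ.Tr (update (fun n => F n i) k a)) →
          a ∈ F j i ∧ ¬ φ.Tr (update (fun n => F n i) k a) := by
        intro i
        by_cases hi : ∀ a, a ∈ F j i → φ.Tr (update (fun n => F n i) k a)
        · exact ⟨∅, fun h => absurd hi h⟩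
        · push Not at hi
          obtain ⟨a, ha⟩ := hi
          exact ⟨a, fun _ => ha⟩
      choose g hg using h2
      have h3 : UE D g (F j) := by
        filter_upwards [hc] with i hi using (hg i hi).1
      obtain ⟨a, ha, hga⟩ := (h j).fst h3
      have h4 := (ih (update F k g) (update v k a) (upd h hga)).1 (H a ha)
      have h5 : ∀ᶠ i in (D : Filter I), False := by
        filter_upwards [hc, h4] with i hi1 hi2
        rw [updF] at hi2
        exact (hg i hi1).2 hi2
      exact (D.neBot.ne (by simpa using h5))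
    · intro H a ha
      obtain ⟨g, hg, hga⟩ := (h j).snd ha
      rw [ih (update F k g) (update v k a) (upd h hga)]
      filter_upwards [H, hg] with i hi hgi
      rw [updF]
      exact hi _ hgi

/-- `Σ₁` formulas go up -/
theorem sigma1_up (tot : ∀ f : I → ZFSet.{u}, ∃ x, Coll D f x) {φ : Fml} (hφ : Sigma1 φ) :
    ∀ (F : ℕ → I → ZFSet.{u}) (v : ℕ → ZFSet.{u}), (∀ n, Coll D (F n) (v n)) →
    (∀ᶠ i in (D : Filter I), φ.Tr (fun n => F n i)) → φ.Tr v := by
  induction hφ with
  | base h0 => intro F v h H; exact (delta0_coll h0 F v h).2 H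
  | @ex k φ _ ih =>
    intro F v h H
    have h2 : ∀ i, ∃ a : ZFSet.{u}, (ex k φ).Tr (fun n => F n i) →
        φ.Tr (update (fun n => F n i) k a) := by
      intro i
      by_cases hi : (ex k φ).Tr (fun n => F n i)
      · obtain ⟨a, ha⟩ := (tr_ex _ _ _).1 hi
        exact ⟨a, fun _ => ha⟩
      · exact ⟨∅, fun h => absurd h hi⟩
    choose g hg using h2
    obtain ⟨a, ha⟩ := tot g
    rw [tr_ex]
    refine ⟨a, ih (update F k g) (update v k a) (upd h ha) ?_⟩
    filter_upwards [H] with i hi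
    rw [updF]
    exact hg i hi

end Ult

/-! ## Mostowski collapse of a class of sets -/

/-- the Mostowski collapse of `(X, ∈)` -/
noncomputable def mos (X : Set ZFSet.{u}) : ZFSet.{u} → ZFSet.{u} :=
  ZFSet.mem_wf.fix fun x ih => ZFSet.range fun y : {y : Shrink.{u} x // ((equivShrink x).symm y : ZFSet.{u}) ∈ X} =>
    ih ((equivShrink x).symm y.1 : ZFSet.{u}) ((equivShrink x).symm y.1).2

theorem mem_mos {X : Set ZFSet.{u}} {x z : ZFSet.{u}} :
    z ∈ mos X x ↔ ∃ y, y ∈ x ∧ y ∈ X ∧ mos X y = z := by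
  conv_lhs => rw [mos, WellFounded.fix_eq]
  rw [ZFSet.mem_range]
  constructor
  · rintro ⟨y, hy⟩
    exact ⟨((equivShrink x).symm y.1 : ZFSet.{u}), ((equivShrink x).symm y.1).2, y.2, hy⟩
  · rintro ⟨y, hyx, hyX, hy⟩
    have h1 : (((equivShrink x).symm (equivShrink x ⟨y, hyx⟩) : x) : ZFSet.{u}) = y := by
      rw [Equiv.symm_apply_apply]
    refine ⟨⟨equivShrink x ⟨y, hyx⟩, by rw [h1]; exact hyX⟩, ?_⟩
    show mos X (((equivShrink x).symm (equivShrink x ⟨y, hyx⟩) : x) : ZFSet.{u}) = z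
    rw [h1]; exact hy

/-- `X` is extensional -/
def Ext (X : Set ZFSet.{u}) : Prop :=
  ∀ x ∈ X, ∀ y ∈ X, (∀ z ∈ X, z ∈ x ↔ z ∈ y) → x = y

theorem mos_inj {X : Set ZFSet.{u}} (hX : Ext X) : ∀ {x y : ZFSet.{u}}, x ∈ X → y ∈ X →
    mos X x = mos X y → x = y := by
  intro x
  induction x using ZFSet.inductionOn with
  | _ x ih =>
    intro y hx hy h
    refine hX x hx y hy fun z hz => ?_
    constructor
    · intro hzx
      have h1 : mos X z ∈ mos X y := by
        rw [← h, mem_mos]; exact ⟨z, hzx, hz, rfl⟩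
      rw [mem_mos] at h1
      obtain ⟨w, hwy, hwX, hw⟩ := h1
      rw [ih z hzx hz hwX hw.symm]
      exact hwy
    · intro hzy
      have h1 : mos X z ∈ mos X x := by
        rw [h, mem_mos]; exact ⟨z, hzy, hz, rfl⟩
      rw [mem_mos] at h1
      obtain ⟨w, hwx, hwX, hw⟩ := h1
      rw [← ih w hwx hwX hz hw]
      exact hwx

theorem mos_mem_iff {X : Set ZFSet.{u}} (hX : Ext X) {x y : ZFSet.{u}} (hx : x ∈ X) (_hy : y ∈ X) :
    mos X x ∈ mos X y ↔ x ∈ y := by
  rw [mem_mos]
  constructor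
  · rintro ⟨z, hzy, hzX, hz⟩
    rw [← mos_inj hX hzX hx hz]
    exact hzy
  · intro h
    exact ⟨x, h, hx, rfl⟩

/-- elements all of whose elements are fixed members of `X` are fixed -/
theorem mos_eq_self {X : Set ZFSet.{u}} {x : ZFSet.{u}}
    (h : ∀ y, y ∈ x → y ∈ X ∧ mos X y = y) : mos X x = x := by
  ext z
  rw [mem_mos]
  constructor
  · rintro ⟨y, hy, _, hyz⟩
    rw [← hyz, (h y hy).2]
    exact hy
  · intro hz
    exact ⟨z, hz, (h z hz).1, (h z hz).2⟩

/-! ## hulls -/

/-- `X` contains witnesses for all bounded existential statements about its elements -/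
def Closed (X : Set ZFSet.{u}) : Prop :=
  ∀ (φ : Fml) (v : ℕ → ZFSet.{u}) (i j : ℕ), (∀ n, v n ∈ X) →
    (∃ a, a ∈ v j ∧ φ.Tr (update v i a)) → ∃ a, a ∈ X ∧ a ∈ v j ∧ φ.Tr (update v i a)

theorem Closed.ext {X : Set ZFSet.{u}} (h : Closed X) : Ext X := by
  have key : ∀ x ∈ X, ∀ y ∈ X, (∀ z ∈ X, z ∈ x → z ∈ y) → x ⊆ y := by
    intro x hx y hy hxy z hz
    by_contra hc
    obtain ⟨a, haX, hax, ha⟩ := h (.neg (.mem 0 1)) (fun n => if n = 2 then x else y) 0 2
      (fun n => by by_cases hn : n = 2 <;> simp [hn, hx, hy]) ⟨z, by simpa using hz, by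
        show ¬ (update (fun n : ℕ => if n = 2 then x else y) 0 z 0 ∈
          update (fun n : ℕ => if n = 2 then x else y) 0 z 1)
        rw [update_self, update_of_ne (by decide)]
        simpa using hc⟩
    have h1 : ¬ (update (fun n : ℕ => if n = 2 then x else y) 0 a 0 ∈
      update (fun n : ℕ => if n = 2 then x else y) 0 a 1) := ha
    rw [update_self, update_of_ne (by decide)] at h1
    exact h1 (by simpa using hxy a haX (by simpa using hax))
  intro x hx y hy hxy
  apply ZFSet.ext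
  intro z
  exact ⟨fun hz => key x hx y hy (fun z hz h => (hxy z hz).1 h) hz,
    fun hz => key y hy x hx (fun z hz h => (hxy z hz).2 h) hz⟩

theorem mos_update (X : Set ZFSet.{u}) (v : ℕ → ZFSet.{u}) (i : ℕ) (a : ZFSet.{u}) :
    (fun n => mos X (update v i a n)) = update (fun n => mos X (v n)) i (mos X a) := by
  funext n
  by_cases h : n = i
  · subst h; simp
  · simp [update_of_ne h]

theorem upd_mem {X : Set ZFSet.{u}} {v : ℕ → ZFSet.{u}} (hv : ∀ n, v n ∈ X) {i : ℕ}
    {a : ZFSet.{u}} (ha : a ∈ X) (n : ℕ) : update v i a n ∈ X := by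
  by_cases h : n = i
  · subst h; rw [update_self]; exact ha
  · rw [update_of_ne h]; exact hv n

theorem delta0_mos {X : Set ZFSet.{u}} (hX : Closed X) {φ : Fml} (hφ : Delta0 φ) :
    ∀ v : ℕ → ZFSet.{u}, (∀ n, v n ∈ X) → (φ.Tr (fun n => mos X (v n)) ↔ φ.Tr v) := by
  induction hφ with
  | mem i j => intro v hv; exact mos_mem_iff hX.ext (hv i) (hv j)
  | eq i j =>
    intro v hv
    exact ⟨fun h => mos_inj hX.ext (hv i) (hv j) h, fun h => congrArg (mos X) h⟩
  | @neg φ _ ih => intro v hv; exact not_congr (ih v hv)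
  | @and φ ψ _ _ ih1 ih2 => intro v hv; exact and_congr (ih1 v hv) (ih2 v hv)
  | @ball i j φ hij _ ih =>
    intro v hv
    rw [tr_ball hij, tr_ball hij]
    constructor
    · intro H
      by_contra hc
      push Not at hc
      obtain ⟨a, haX, haj, ha⟩ := hX (.neg φ) v i j hv hc
      apply ha
      show φ.Tr (update v i a)
      rw [← ih _ (upd_mem hv haX), mos_update]
      exact H _ ((mos_mem_iff hX.ext haX (hv j)).2 haj)
    · intro H b hb
      rw [mem_mos] at hb
      obtain ⟨a, haj, haX, rfl⟩ := hb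
      rw [← mos_update, ih _ (upd_mem hv haX)]
      exact H a haj

end Pool.Agent.GWO
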