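import Pool.Agent.GWO.Init

/-! # Ultrapowers with critical point `δ`: regressive functions and successors -/

namespace Pool.Agent.GWO

open Pool.Agent.SingleUlt Function Filter Cardinal Ordinal

universe u w

/-- `D` is a countably complete ultrafilter whose ultrapower embedding fixes the ordinals below
`δ`, and `δ` is represented by `f : I → δ` -/
structure Seed (δ : Cardinal.{u}) {I : Type w} (D : Ultrafilter I) (f : I → Idx δ) : Prop where
  inf : ℵ₀ ≤ δ
  cc : ∀ S : ℕ → Set I, (∀ n, S n ∈ D) → (⋂ n, S n) ∈ D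
  tot : ∀ g : I → ZFSet.{u}, ∃ x, Coll D g x
  fix : ∀ c : Idx δ, Coll D (fun _ => o c) (o c)
  seed : Coll D (fun i => o (f i)) (kap δ)

variable {δ : Cardinal.{u}} {I : Type w} {D : Ultrafilter I} {f : I → Idx δ}

theorem Seed.reg (h : Seed δ D f) {g : I → ZFSet.{u}}
    (hg : ∀ᶠ i in (D : Filter I), g i ∈ o (f i)) : ∃ c : Idx δ, UQ D g (fun _ => o c) := by
  obtain ⟨y, hy, hgy⟩ := h.seed.fst hg
  obtain ⟨c, rfl⟩ := mem_kap.1 hy
  exact ⟨c, hgy.inj (h.fix c)⟩

theorem Seed.reg' (h : Seed δ D f) {γ : I → Idx δ}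
    (hg : ∀ᶠ i in (D : Filter I), γ i < f i) : ∃ c : Idx δ, ∀ᶠ i in (D : Filter I), γ i = c := by
  obtain ⟨c, hc⟩ := h.reg (g := fun i => o (γ i)) (by
    filter_upwards [hg] with i hi
    exact Ordinal.toZFSet_mem_toZFSet_iff.2 hi)
  refine ⟨c, ?_⟩
  filter_upwards [hc] with i hi using o_injective hi

theorem Seed.tail (h : Seed δ D f) (c : Idx δ) : ∀ᶠ i in (D : Filter I), c < f i := by
  have h1 : UE D (fun _ => o c) (fun i => o (f i)) :=
    (h.seed.mem_iff (h.fix c)).2 (mem_kap.2 ⟨c, rfl⟩)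
  filter_upwards [h1] with i hi
  exact Ordinal.toZFSet_mem_toZFSet_iff.1 hi

/-- the subsets of `δ` belong to the ultrapower -/
theorem Seed.sub (h : Seed δ D f) {X : ZFSet.{u}} (hX : X ⊆ kap δ) :
    Coll D (fun i => X ∩ o (f i)) X := by
  refine ⟨fun g x => Coll D g x ∨ (g = (fun i => X ∩ o (f i)) ∧ x = X), ?_, Or.inr ⟨rfl, rfl⟩⟩
  rintro g x (hg | ⟨rfl, rfl⟩)
  · exact ⟨fun k hk => by
      obtain ⟨y, hy, hy'⟩ := hg.fst hk
      exact ⟨y, hy, Or.inl hy'⟩, fun y hy => by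
      obtain ⟨k, hk, hk'⟩ := hg.snd hy
      exact ⟨k, hk, Or.inl hk'⟩⟩
  · constructor
    · intro k hk
      obtain ⟨c, hc⟩ := h.reg (g := k) (by
        filter_upwards [hk] with i hi using (ZFSet.mem_inter.1 hi).2)
      refine ⟨o c, ?_, Or.inl ((h.fix c).congr hc.symm)⟩
      obtain ⟨i, hi1, hi2⟩ := (hk.and hc).exists
      have := (ZFSet.mem_inter.1 hi1).1
      rwa [hi2] at this
    · intro y hy
      obtain ⟨c, rfl⟩ := mem_kap.1 (hX hy)
      refine ⟨fun _ => o c, ?_, Or.inl (h.fix c)⟩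
      filter_upwards [h.tail c] with i hi
      exact ZFSet.mem_inter.2 ⟨hy, Ordinal.toZFSet_mem_toZFSet_iff.2 hi⟩

theorem coll_ord {g : I → ZFSet.{u}} {y : ZFSet.{u}} (hy : Coll D g y)
    (hg : ∀ᶠ i in (D : Filter I), (g i).IsOrdinal) : y.IsOrdinal := by
  rw [ZFSet.isOrdinal_iff_forall_mem_isTransitive]
  constructor
  · intro z hz w hw
    obtain ⟨a, ha, haz⟩ := hy.snd hz
    obtain ⟨b, hb, hbw⟩ := haz.snd hw
    refine (hy.mem_iff hbw).1 ?_
    filter_upwards [ha, hb, hg] with i h1 h2 h3 using h3.mem_trans h2 h1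
  · intro x hx z hz w hw
    obtain ⟨a, ha, hax⟩ := hy.snd hx
    obtain ⟨b, hb, hbz⟩ := hax.snd hz
    obtain ⟨c, hc, hcw⟩ := hbz.snd hw
    refine (hax.mem_iff hcw).1 ?_
    filter_upwards [ha, hb, hc, hg] with i h1 h2 h3 h4
    exact (h4.mem h1).mem_trans h3 h2

theorem mos_ord {X : Set ZFSet.{u}} {x : ZFSet.{u}}
    (hx : x.IsOrdinal) : (mos X x).IsOrdinal := by
  rw [ZFSet.isOrdinal_iff_forall_mem_isTransitive]
  constructor
  · intro z hz w hw
    obtain ⟨a, hax, haX, rfl⟩ := mem_mos.1 hz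
    obtain ⟨b, hba, hbX, rfl⟩ := mem_mos.1 hw
    exact mem_mos.2 ⟨b, hx.mem_trans hba hax, hbX, rfl⟩
  · intro y hy z hz w hw
    obtain ⟨a, hax, haX, rfl⟩ := mem_mos.1 hy
    obtain ⟨b, hba, hbX, rfl⟩ := mem_mos.1 hz
    obtain ⟨c, hcb, hcX, rfl⟩ := mem_mos.1 hw
    exact mem_mos.2 ⟨c, (hx.mem hax).mem_trans hcb hba, hcX, rfl⟩

theorem mem_kap_iff {c : Cardinal.{u}} {x : ZFSet.{u}} :
    x ∈ kap (Order.succ c) ↔ x.IsOrdinal ∧ x.card ≤ c := by
  constructor
  · intro h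
    rw [Ordinal.mem_toZFSet_iff] at h
    obtain ⟨a, ha, rfl⟩ := h
    refine ⟨ZFSet.isOrdinal_toZFSet _, ?_⟩
    rw [Ordinal.card_toZFSet]
    rw [Cardinal.lt_ord] at ha
    exact Order.lt_succ_iff.1 ha
  · rintro ⟨h1, h2⟩
    rw [← h1.toZFSet_rank_eq] at h2 ⊢
    rw [Ordinal.card_toZFSet] at h2
    exact Ordinal.toZFSet_mem_toZFSet_iff.2 (Cardinal.lt_ord.2 (Order.lt_succ_iff.2 h2))

/-- every ordinal below `δ⁺` is represented by a function below the successor function -/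
theorem Seed.canon (h : Seed δ D f) {y : ZFSet.{u}} (hy : y ∈ kap (Order.succ δ)) :
    ∃ g : I → ZFSet.{u}, (∀ i, g i ∈ kap (Order.succ (f i).1.card)) ∧ Coll D g y := by
  obtain ⟨hyo, hyc⟩ := mem_kap_iff.1 hy
  by_cases hne : y = ∅
  · subst hne
    refine ⟨fun _ => ∅, fun i => ?_, ⟨fun g x => UQ D g (fun _ => ∅) ∧ x = ∅, ?_, UQ.refl _, rfl⟩⟩
    · rw [mem_kap_iff]
      exact ⟨ZFSet.isOrdinal_empty, by simp⟩
    · rintro g x ⟨hg, rfl⟩
      refine ⟨fun k hk => ?_, fun y hy => absurd hy (ZFSet.notMem_empty _)⟩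
      exfalso
      obtain ⟨i, hi1, hi2⟩ := (hk.and hg).exists
      rw [hi2] at hi1
      exact ZFSet.notMem_empty _ hi1
  · -- a surjection `e : δ → y`
    have hne' : ∃ z, z ∈ y := by
      by_contra hc
      push Not at hc
      exact hne ((ZFSet.eq_empty y).2 hc)
    have h1 : ∃ e : Idx δ → ZFSet.{u}, (∀ β, e β ∈ y) ∧ ∀ z, z ∈ y → ∃ β, e β = z := by
      have h2 : #y ≤ #(Idx δ) := by
        rw [ZFSet.cardinalMk_coe_sort, mk_Idx, Cardinal.lift_le]
        exact hyc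
      obtain ⟨z0, hz0⟩ := hne'
      have : Nonempty y := ⟨⟨z0, hz0⟩⟩
      obtain ⟨e⟩ := h2
      refine ⟨fun β => (invFun e β : y), fun β => (invFun e β : y).2, fun z hz => ?_⟩
      refine ⟨e ⟨z, hz⟩, ?_⟩
      show ((invFun e (e ⟨z, hz⟩) : y) : ZFSet.{u}) = z
      rw [leftInverse_invFun e.injective]
    obtain ⟨e, he1, he2⟩ := h1
    let X : I → Set ZFSet.{u} := fun i => {z | ∃ γ, γ < f i ∧ e γ = z}
    -- the general bisimulation
    have key : ∀ (t : ZFSet.{u}), (∀ z, z ∈ t → z ∈ y) → (t = y ∨ t ∈ y) →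
        Coll D (fun i => mos (X i) t) t := by
      intro t ht ht'
      refine ⟨fun g x => (x = y ∨ x ∈ y) ∧ UQ D g (fun i => mos (X i) x), ?_, ht', UQ.refl _⟩
      rintro g x ⟨hx, hg⟩
      have hxy : ∀ z, z ∈ x → z ∈ y := by
        rcases hx with rfl | hx
        · exact fun _ hz => hz
        · exact fun z hz => hyo.mem_trans hz hx
      constructor
      · intro k hk
        have h3 : ∀ᶠ i in (D : Filter I), ∃ γ, γ < f i ∧ e γ ∈ x ∧ mos (X i) (e γ) = k i := by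
          filter_upwards [hk, hg] with i h1 h2
          rw [h2, mem_mos] at h1
          obtain ⟨z, hz1, ⟨γ, hγ, rfl⟩, hz3⟩ := h1
          exact ⟨γ, hγ, hz1, hz3⟩
        have h4 : ∀ i, ∃ γ : Idx δ, (∃ γ, γ < f i ∧ e γ ∈ x ∧ mos (X i) (e γ) = k i) →
            (γ < f i ∧ e γ ∈ x ∧ mos (X i) (e γ) = k i) := by
          intro i
          by_cases hi : ∃ γ, γ < f i ∧ e γ ∈ x ∧ mos (X i) (e γ) = k i
          · obtain ⟨γ, hγ⟩ := hi
            exact ⟨γ, fun _ => hγ⟩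
          · exact ⟨f i, fun h => absurd h hi⟩
        choose γ hγ using h4
        obtain ⟨c, hc⟩ := h.reg' (γ := γ) (by
          filter_upwards [h3] with i hi using (hγ i hi).1)
        obtain ⟨i, hi1, hi2⟩ := (h3.and hc).exists
        refine ⟨e c, ?_, Or.inr (he1 c), ?_⟩
        · have := (hγ i hi1).2.1
          rwa [hi2] at this
        · filter_upwards [h3, hc] with i hi1 hi2
          have := (hγ i hi1).2.2
          rw [hi2] at this
          exact this.symm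
      · intro z hz
        obtain ⟨c, rfl⟩ := he2 z (hxy z hz)
        refine ⟨fun i => mos (X i) (e c), ?_, Or.inr (he1 c), UQ.refl _⟩
        filter_upwards [hg, h.tail c] with i hi1 hi2
        rw [hi1, mem_mos]
        exact ⟨e c, hz, ⟨c, hi2, rfl⟩, rfl⟩
    refine ⟨fun i => mos (X i) y, fun i => ?_, key y (fun _ hz => hz) (Or.inl rfl)⟩
    rw [mem_kap_iff]
    refine ⟨mos_ord hyo, ?_⟩
    have h5 : #(mos (X i) y) ≤ #(Set.Iio (f i)) := by
      refine mk_le_of_surjective (f := fun γ : Set.Iio (f i) =>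
        (⟨mos (X i) (e γ.1), mem_mos.2 ⟨e γ.1, he1 _, ⟨γ.1, γ.2, rfl⟩, rfl⟩⟩ : mos (X i) y)) ?_
      rintro ⟨z, hz⟩
      obtain ⟨x, hx1, ⟨γ, hγ, rfl⟩, rfl⟩ := mem_mos.1 hz
      exact ⟨⟨γ, hγ⟩, rfl⟩
    have h6 : #(Set.Iio (f i)) ≤ #(Set.Iio (f i).1) := by
      refine mk_le_of_injective (f := fun γ : Set.Iio (f i) => (⟨γ.1.1, γ.2⟩ : Set.Iio (f i).1)) ?_
      intro a b hab
      have := congrArg Subtype.val hab
      exact Subtype.ext (Subtype.ext this)
    have h7 := h5.trans h6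
    rw [ZFSet.cardinalMk_coe_sort, Cardinal.mk_Iio_ordinal, Cardinal.lift_le] at h7
    exact h7

theorem Seed.succ (h : Seed δ D f) :
    Coll D (fun i => kap (Order.succ (f i).1.card)) (kap (Order.succ δ)) := by
  refine ⟨fun g x => Coll D g x ∨ (g = (fun i => kap (Order.succ (f i).1.card)) ∧
    x = kap (Order.succ δ)), ?_, Or.inr ⟨rfl, rfl⟩⟩
  rintro g x (hg | ⟨rfl, rfl⟩)
  · exact ⟨fun k hk => by
      obtain ⟨y, hy, hy'⟩ := hg.fst hk
      exact ⟨y, hy, Or.inl hy'⟩, fun y hy => by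
      obtain ⟨k, hk, hk'⟩ := hg.snd hy
      exact ⟨k, hk, Or.inl hk'⟩⟩
  · constructor
    · intro k hk
      obtain ⟨y, hy⟩ := h.tot k
      refine ⟨y, ?_, Or.inl hy⟩
      have hk' : ∀ᶠ i in (D : Filter I), (k i).IsOrdinal ∧ (k i).card ≤ (f i).1.card := by
        filter_upwards [hk] with i hi using mem_kap_iff.1 hi
      rw [mem_kap_iff]
      refine ⟨coll_ord hy (hk'.mono fun _ h => h.1), ?_⟩
      -- injections of `k i` into `f i`
      have h1 : ∀ i, ∃ ι : ZFSet.{u} → Idx δ, (k i).card ≤ (f i).1.card →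
          (∀ z, z ∈ k i → ι z < f i) ∧ ∀ z z', z ∈ k i → z' ∈ k i → ι z = ι z' → z = z' := by
        intro i
        by_cases hi : (k i).card ≤ (f i).1.card
        · have h2 : #(k i) ≤ #(Set.Iio (f i).1) := by
            rw [ZFSet.cardinalMk_coe_sort, Cardinal.mk_Iio_ordinal, Cardinal.lift_le]
            exact hi
          obtain ⟨e⟩ := h2
          classical
          refine ⟨fun z => if hz : z ∈ k i then ⟨(e ⟨z, hz⟩).1, Set.mem_Iio.2 (lt_trans (Set.mem_Iio.1 (e ⟨z, hz⟩).2) (Set.mem_Iio.1 (f i).2))⟩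
            else f i, fun _ => ⟨fun z hz => ?_, fun z z' hz hz' heq => ?_⟩⟩
          · simp only [dif_pos hz]; exact (e ⟨z, hz⟩).2
          · simp only [dif_pos hz, dif_pos hz'] at heq
            have h3 := congrArg Subtype.val heq
            have h4 := e.injective (Subtype.ext h3)
            exact congrArg Subtype.val h4
        · exact ⟨fun _ => f i, fun h => absurd h hi⟩
      choose ι hι using h1
      have h2 : ∀ x : y, ∃ (a : I → ZFSet.{u}) (c : Idx δ), UE D a k ∧ Coll D a x ∧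
          ∀ᶠ i in (D : Filter I), ι i (a i) = c := by
        rintro ⟨x, hx⟩
        obtain ⟨a, ha, hax⟩ := hy.snd hx
        obtain ⟨c, hc⟩ := h.reg' (γ := fun i => ι i (a i)) (by
          filter_upwards [ha, hk'] with i hi1 hi2
          exact (hι i hi2.2).1 _ hi1)
        exact ⟨a, c, ha, hax, hc⟩
      choose a c ha hax hc using h2
      have h3 : #y ≤ #(Idx δ) := by
        refine mk_le_of_injective (f := c) ?_
        intro x x' hxx
        have h4 : UQ D (a x) (a x') := by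
          filter_upwards [ha x, ha x', hc x, hc x', hk'] with i h1 h2 h3 h4 h5
          exact (hι i h5.2).2 _ _ h1 h2 (by rw [h3, h4, hxx])
        exact Subtype.ext (((hax x).congr h4).unique (hax x'))
      rw [ZFSet.cardinalMk_coe_sort, mk_Idx, Cardinal.lift_le] at h3
      exact h3
    · intro y hy
      obtain ⟨g, hg, hgy⟩ := h.canon hy
      exact ⟨g, Eventually.of_forall hg, Or.inl hgy⟩

end Pool.Agent.GWO
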