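import Pool.Agent.GWO.Elem

/-! # Elementary embeddings with critical point `δ`: closure properties of the target -/

namespace Pool.Agent.GWO

open Pool.Agent.SingleUlt Function Filter Cardinal Ordinal

universe u w

variable {n : ℕ}

theorem tra_univ : Tra (Set.univ : Set ZFSet.{u}) := fun _ _ _ _ => Set.mem_univ _

theorem Tra.ext {M : Set ZFSet.{u}} (hM : Tra M) {x y : ZFSet.{u}} (hx : x ∈ M) (hy : y ∈ M)
    (h : ∀ z ∈ M, z ∈ x ↔ z ∈ y) : x = y := by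
  ext z
  exact ⟨fun hz => (h z (hM x hx z hz)).1 hz, fun hz => (h z (hM y hy z hz)).2 hz⟩

theorem Tra.pair {M : Set ZFSet.{u}} (hM : Tra M) {x y : ZFSet.{u}} (h : ZFSet.pair x y ∈ M) :
    x ∈ M ∧ y ∈ M := by
  have h1 : ({x, y} : ZFSet.{u}) ∈ M := hM _ h _ (by rw [ZFSet.pair, ZFSet.mem_pair]; exact Or.inr rfl)
  exact ⟨hM _ h1 _ (by simp), hM _ h1 _ (by simp)⟩

theorem RDfn.tr (x : Fin n) : RDfn n (fun _ (v : Fin n → ZFSet.{u}) => (v x).IsTransitive) :=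
  (RDfn.all (S := fun _ v y => y ∈ v x → y ⊆ v x) ((RDfn.mem _ _).imp (RDfn.sub _ _))).congr
    fun _ _ hM hv => ⟨fun h y hy => h y (hM _ (hv _) y hy) hy, fun h _ _ hy => h _ hy⟩

theorem RDfn.ord (x : Fin n) : RDfn n (fun _ (v : Fin n → ZFSet.{u}) => (v x).IsOrdinal) :=
  ((RDfn.tr x).and (RDfn.all (S := fun _ v y => y ∈ v x → y.IsTransitive)
    ((RDfn.mem _ _).imp (RDfn.tr _)))).congr fun _ v hM hv => by
    rw [ZFSet.isOrdinal_iff_forall_mem_isTransitive]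
    exact ⟨fun h => ⟨h.1, fun y hy => h.2 y (hM _ (hv _) y hy) hy⟩,
      fun h => ⟨h.1, fun y _ hy => h.2 y hy⟩⟩

section

variable {M : Set ZFSet.{u}} {j : ZFSet.{u} → ZFSet.{u}}

theorem Elem.mem_iff (h : Elem M j) (x y : ZFSet.{u}) : j x ∈ j y ↔ x ∈ y :=
  (h.transfer (RDfn.mem (n := 2) 0 1) ![x, y]).symm

theorem Elem.ord (h : Elem M j) {x : ZFSet.{u}} (hx : x.IsOrdinal) : (j x).IsOrdinal :=
  (h.transfer (RDfn.ord (n := 1) 0) ![x]).1 hx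

theorem Elem.pair (h : Elem M j) (x y : ZFSet.{u}) :
    j (ZFSet.pair x y) = ZFSet.pair (j x) (j y) :=
  (h.transfer (RDfn.pair (n := 3) 0 1 2) ![ZFSet.pair x y, x, y]).1 rfl

theorem Elem.inter (h : Elem M j) {a b : ZFSet.{u}} (ha : a ∈ M) (hb : b ∈ M) :
    a ∩ b ∈ M := by
  have hR : RDfn 0 (fun M (_ : Fin 0 → ZFSet.{u}) => ∀ a ∈ M, ∀ b ∈ M, ∃ c ∈ M, ∀ x ∈ M,
      (x ∈ c ↔ (x ∈ a ∧ x ∈ b))) :=
    RDfn.all (RDfn.all (RDfn.ex (RDfn.all ((RDfn.mem _ _).iff ((RDfn.mem _ _).and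
      (RDfn.mem _ _))))))
  obtain ⟨c, hc, hc'⟩ := (h.transfer hR Fin.elim0).1 (fun a _ b _ => ⟨a ∩ b, Set.mem_univ _,
    fun x _ => ZFSet.mem_inter⟩) a ha b hb
  have : a ∩ b = c := by
    ext x
    rw [ZFSet.mem_inter]
    exact ⟨fun hx => (hc' x (h.trans a ha x hx.1)).2 hx, fun hx => (hc' x (h.trans c hc x hx)).1 hx⟩
  rw [this]; exact hc

theorem Elem.prod (h : Elem M j) {a : ZFSet.{u}} (ha : a ∈ M) :
    ∃ p ∈ M, ∀ x y, x ∈ a → y ∈ a → ZFSet.pair x y ∈ p := by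
  have hR : RDfn 0 (fun M (_ : Fin 0 → ZFSet.{u}) => ∀ a ∈ M, ∃ p ∈ M, ∀ x ∈ M, ∀ y ∈ M,
      x ∈ a → y ∈ a → ZFSet.pair x y ∈ p) :=
    RDfn.all (RDfn.ex (RDfn.all (RDfn.all ((RDfn.mem _ _).imp ((RDfn.mem _ _).imp
      (RDfn.pairMem _ _ _))))))
  obtain ⟨p, hp, hp'⟩ := (h.transfer hR Fin.elim0).1 (fun a _ => ⟨a.prod a, Set.mem_univ _,
    fun x _ y _ hx hy => ZFSet.pair_mem_prod.2 ⟨hx, hy⟩⟩) a ha
  exact ⟨p, hp, fun x y hx hy => hp' x (h.trans a ha x hx) y (h.trans a ha y hy) hx hy⟩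

/-- Mostowski's theorem in `M` -/
theorem Elem.collapse (h : Elem M j) {d E : ZFSet.{u}} (hd : d ∈ M) (hE : E ∈ M)
    (hwf : WellFounded (fun y x : ZFSet.{u} => y ∈ d ∧ x ∈ d ∧ ZFSet.pair y x ∈ E))
    {c : ZFSet.{u} → ZFSet.{u}}
    (hc : ∀ x z, z ∈ c x ↔ ∃ y, (y ∈ d ∧ x ∈ d ∧ ZFSet.pair y x ∈ E) ∧ c y = z) :
    ∃ F ∈ M, ∀ x ∈ d, c x ∈ M ∧ ZFSet.pair x (c x) ∈ F ∧ ∀ z, ZFSet.pair x z ∈ F → z = c x := by
  have hR : RDfn 0 (fun M (_ : Fin 0 → ZFSet.{u}) => ∀ d ∈ M, ∀ E ∈ M,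
      (∀ S ∈ M, (∃ x ∈ M, x ∈ S) → S ⊆ d → ∃ m ∈ M, m ∈ S ∧ ∀ y ∈ M, y ∈ S →
        ¬ ZFSet.pair y m ∈ E) →
      ∃ F ∈ M, (∀ x ∈ M, x ∈ d → ∃ z ∈ M, ZFSet.pair x z ∈ F) ∧
        (∀ x ∈ M, x ∈ d → ∀ z ∈ M, ZFSet.pair x z ∈ F → ∀ w ∈ M,
          (w ∈ z ↔ ∃ y ∈ M, y ∈ d ∧ ZFSet.pair y x ∈ E ∧ ZFSet.pair y w ∈ F))) :=
    RDfn.all (RDfn.all ((RDfn.all ((RDfn.ex (RDfn.mem _ _)).imp ((RDfn.sub _ _).imp
      (RDfn.ex ((RDfn.mem _ _).and (RDfn.all ((RDfn.mem _ _).imp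
        (RDfn.pairMem _ _ _).not))))))).imp
      (RDfn.ex ((RDfn.all ((RDfn.mem _ _).imp (RDfn.ex (RDfn.pairMem _ _ _)))).and
        (RDfn.all ((RDfn.mem _ _).imp (RDfn.all ((RDfn.pairMem _ _ _).imp (RDfn.all
          ((RDfn.mem _ _).iff (RDfn.ex ((RDfn.mem _ _).and ((RDfn.pairMem _ _ _).and
            (RDfn.pairMem _ _ _))))))))))))))
  have hV : ∀ d ∈ (Set.univ : Set ZFSet.{u}), ∀ E ∈ (Set.univ : Set ZFSet.{u}),
      (∀ S ∈ (Set.univ : Set ZFSet.{u}), (∃ x ∈ (Set.univ : Set ZFSet.{u}), x ∈ S) → S ⊆ d →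
        ∃ m ∈ (Set.univ : Set ZFSet.{u}), m ∈ S ∧ ∀ y ∈ (Set.univ : Set ZFSet.{u}), y ∈ S →
        ¬ ZFSet.pair y m ∈ E) →
      ∃ F ∈ (Set.univ : Set ZFSet.{u}), (∀ x ∈ (Set.univ : Set ZFSet.{u}), x ∈ d →
        ∃ z ∈ (Set.univ : Set ZFSet.{u}), ZFSet.pair x z ∈ F) ∧
        (∀ x ∈ (Set.univ : Set ZFSet.{u}), x ∈ d → ∀ z ∈ (Set.univ : Set ZFSet.{u}),
          ZFSet.pair x z ∈ F → ∀ w ∈ (Set.univ : Set ZFSet.{u}),
          (w ∈ z ↔ ∃ y ∈ (Set.univ : Set ZFSet.{u}), y ∈ d ∧ ZFSet.pair y x ∈ E ∧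
            ZFSet.pair y w ∈ F)) := by
    intro d _ E _ hmin
    have hwf : WellFounded (fun y x : ZFSet.{u} => y ∈ d ∧ x ∈ d ∧ ZFSet.pair y x ∈ E) := by
      rw [WellFounded.wellFounded_iff_has_min]
      intro S hS
      obtain ⟨a, ha⟩ := hS
      by_cases hd : ∃ x, x ∈ S ∧ x ∈ d
      · classical
        obtain ⟨x, hxS, hxd⟩ := hd
        obtain ⟨m, _, hm, hm'⟩ := hmin (ZFSet.sep (fun x => x ∈ S) d) (Set.mem_univ _)
          ⟨x, Set.mem_univ _, ZFSet.mem_sep.2 ⟨hxd, hxS⟩⟩ (fun z hz => (ZFSet.mem_sep.1 hz).1)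
        refine ⟨m, (ZFSet.mem_sep.1 hm).2, fun y hy hym => ?_⟩
        exact hm' y (Set.mem_univ _) (ZFSet.mem_sep.2 ⟨hym.1, hy⟩) hym.2.2
      · exact ⟨a, ha, fun y hy hya => hd ⟨a, ha, hya.2.1⟩⟩
    obtain ⟨c, hc⟩ := exists_col hwf (p := d) (fun y x h => h.1)
    let F : ZFSet.{u} := ZFSet.range fun x : d => ZFSet.pair x.1 (c x.1)
    have hF : ∀ x z, ZFSet.pair x z ∈ F ↔ x ∈ d ∧ z = c x := by
      intro x z
      rw [ZFSet.mem_range]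
      constructor
      · rintro ⟨y, hy⟩
        obtain ⟨h1, h2⟩ := ZFSet.pair_injective hy
        rw [← h1, ← h2]; exact ⟨y.2, rfl⟩
      · rintro ⟨hx, rfl⟩
        exact ⟨⟨x, hx⟩, rfl⟩
    refine ⟨F, Set.mem_univ _, fun x _ hx => ⟨c x, Set.mem_univ _, (hF _ _).2 ⟨hx, rfl⟩⟩, ?_⟩
    intro x _ hx z _ hxz w _
    rw [((hF _ _).1 hxz).2, hc]
    constructor
    · rintro ⟨y, ⟨h1, _, h3⟩, rfl⟩
      exact ⟨y, Set.mem_univ _, h1, h3, (hF _ _).2 ⟨h1, rfl⟩⟩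
    · rintro ⟨y, _, h1, h2, h3⟩
      exact ⟨y, ⟨h1, hx, h2⟩, ((hF _ _).1 h3).2.symm⟩
  obtain ⟨F, hF, hF1, hF2⟩ := (h.transfer hR Fin.elim0).1 hV d hd E hE (by
    intro S hS hne hSd
    obtain ⟨x, _, hx⟩ := hne
    obtain ⟨m, hm, hm'⟩ := hwf.has_min {x | x ∈ S} ⟨x, hx⟩
    refine ⟨m, h.trans S hS m hm, hm, fun y _ hy hp => ?_⟩
    exact hm' y hy ⟨hSd hy, hSd hm, hp⟩)
  have key : ∀ x, x ∈ d → ∀ z, ZFSet.pair x z ∈ F → z = c x := by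
    intro x
    induction x using hwf.induction with
    | _ x ih =>
      intro hx z hz
      have hzM : z ∈ M := (Tra.pair h.trans (h.trans F hF _ hz)).2
      have h1 := hF2 x (h.trans d hd x hx) hx z hzM hz
      ext w
      rw [hc]
      constructor
      · intro hw
        obtain ⟨y, _, h2, h3, h4⟩ := (h1 w (h.trans z hzM w hw)).1 hw
        exact ⟨y, ⟨h2, hx, h3⟩, (ih y ⟨h2, hx, h3⟩ h2 w h4).symm⟩
      · rintro ⟨y, ⟨h2, _, h3⟩, rfl⟩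
        obtain ⟨z', hz', hyz'⟩ := hF1 y (h.trans d hd y h2) h2
        have h4 := ih y ⟨h2, hx, h3⟩ h2 z' hyz'
        rw [h4] at hz' hyz'
        exact (h1 _ hz').2 ⟨y, h.trans d hd y h2, h2, h3, hyz'⟩
  refine ⟨F, hF, fun x hx => ?_⟩
  obtain ⟨z, hzM, hz⟩ := hF1 x (h.trans d hd x hx) hx
  have h1 := key x hx z hz
  rw [h1] at hz hzM
  exact ⟨hzM, hz, key x hx⟩

/-- `f` covers `q` by a partial function from `a` -/
def Cov (f a q : ZFSet.{u}) : Prop :=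
  (∀ y, y ∈ q → ∃ x, x ∈ a ∧ ZFSet.pair x y ∈ f) ∧
  ∀ x, x ∈ a → ∀ y y', ZFSet.pair x y ∈ f → ZFSet.pair x y' ∈ f → y = y'

theorem RDfn.cov (f a q : Fin n) : RDfn n (fun _ (v : Fin n → ZFSet.{u}) =>
    Cov (v f) (v a) (v q)) :=
  ((RDfn.all (S := fun M v y => y ∈ v q → ∃ x ∈ M, x ∈ v a ∧ ZFSet.pair x y ∈ v f)
    ((RDfn.mem _ _).imp (RDfn.ex ((RDfn.mem _ _).and (RDfn.pairMem _ _ _))))).and
   (RDfn.all (S := fun M v x => x ∈ v a → ∀ y ∈ M, ∀ y' ∈ M, ZFSet.pair x y ∈ v f →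
      ZFSet.pair x y' ∈ v f → y = y')
    ((RDfn.mem _ _).imp (RDfn.all (RDfn.all ((RDfn.pairMem _ _ _).imp ((RDfn.pairMem _ _ _).imp
      (RDfn.eq _ _)))))))).congr fun M v hM hv => by
    constructor
    · rintro ⟨h1, h2⟩
      refine ⟨fun y hy => ?_, fun x hx y y' hy hy' => ?_⟩
      · obtain ⟨x, _, hx⟩ := h1 y (hM _ (hv _) y hy) hy
        exact ⟨x, hx⟩
      · exact h2 x (hM _ (hv _) x hx) hx y (hM.pair (hM _ (hv _) _ hy)).2 y'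
          (hM.pair (hM _ (hv _) _ hy')).2 hy hy'
    · rintro ⟨h1, h2⟩
      refine ⟨fun y _ hy => ?_, fun x _ hx y _ y' _ hy hy' => h2 x hx y y' hy hy'⟩
      obtain ⟨x, hx, hxy⟩ := h1 y hy
      exact ⟨x, hM _ (hv _) x hx, hx, hxy⟩

theorem exists_cov_iff (a q : ZFSet.{u}) : (∃ f, Cov f a q) ↔ q.card ≤ a.card := by
  constructor
  · rintro ⟨f, h1, h2⟩
    choose x hx hxf using h1
    have h3 : #q ≤ #a := by
      refine mk_le_of_injective (f := fun y : q => (⟨x y.1 y.2, hx y.1 y.2⟩ : a)) ?_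
      intro y y' hyy
      have h4 : x y.1 y.2 = x y'.1 y'.2 := congrArg Subtype.val hyy
      have h5 := hxf y'.1 y'.2
      rw [← h4] at h5
      exact Subtype.ext (h2 _ (hx y.1 y.2) _ _ (hxf y.1 y.2) h5)
    rw [ZFSet.cardinalMk_coe_sort, ZFSet.cardinalMk_coe_sort, Cardinal.lift_le] at h3
    exact h3
  · intro h
    have h3 : #q ≤ #a := by
      rw [ZFSet.cardinalMk_coe_sort, ZFSet.cardinalMk_coe_sort, Cardinal.lift_le]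
      exact h
    obtain ⟨e⟩ := h3
    let F : ZFSet.{u} := ZFSet.range fun y : q => ZFSet.pair (e y).1 y.1
    have hF : ∀ x z, ZFSet.pair x z ∈ F ↔ ∃ hz : z ∈ q, (e ⟨z, hz⟩).1 = x := by
      intro x z
      rw [ZFSet.mem_range]
      constructor
      · rintro ⟨y, hy⟩
        obtain ⟨h1, h2⟩ := ZFSet.pair_injective hy
        subst h2
        exact ⟨y.2, h1⟩
      · rintro ⟨hz, rfl⟩
        exact ⟨⟨z, hz⟩, rfl⟩
    refine ⟨F, fun y hy => ⟨(e ⟨y, hy⟩).1, (e ⟨y, hy⟩).2, (hF _ _).2 ⟨hy, rfl⟩⟩, ?_⟩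
    intro x _ y y' hy hy'
    obtain ⟨h1, h2⟩ := (hF _ _).1 hy
    obtain ⟨h3, h4⟩ := (hF _ _).1 hy'
    have := e.injective (Subtype.ext (h2.trans h4.symm))
    exact congrArg Subtype.val this

/-- `p` is the cardinal successor of `a`, in `M` -/
def SuccP (M : Set ZFSet.{u}) (a p : ZFSet.{u}) : Prop :=
  p.IsOrdinal ∧ (∀ q ∈ M, q ∈ p → ∃ f ∈ M, Cov f a q) ∧ ¬ ∃ f ∈ M, Cov f a p

theorem RDfn.succP (a p : Fin n) :
    RDfn n (fun M (v : Fin n → ZFSet.{u}) => SuccP M (v a) (v p)) :=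
  (RDfn.ord _).and ((RDfn.all ((RDfn.mem _ _).imp (RDfn.ex (RDfn.cov _ _ _)))).and
    (RDfn.ex (RDfn.cov _ _ _)).not)

theorem succP_univ (a p : ZFSet.{u}) :
    SuccP Set.univ a p ↔ p = kap (Order.succ a.card) := by
  have h0 : SuccP Set.univ a p ↔ p.IsOrdinal ∧ (∀ q, q ∈ p → q.card ≤ a.card) ∧
      ¬ p.card ≤ a.card := by
    unfold SuccP
    refine and_congr Iff.rfl (and_congr ?_ (not_congr ?_))
    · refine ⟨fun h q hq => ?_, fun h q _ hq => ?_⟩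
      · obtain ⟨f, _, hf⟩ := h q (Set.mem_univ _) hq
        exact (exists_cov_iff a q).1 ⟨f, hf⟩
      · obtain ⟨f, hf⟩ := (exists_cov_iff a q).2 (h q hq)
        exact ⟨f, Set.mem_univ _, hf⟩
    · rw [← exists_cov_iff]
      exact ⟨fun ⟨f, _, hf⟩ => ⟨f, hf⟩, fun ⟨f, hf⟩ => ⟨f, Set.mem_univ _, hf⟩⟩
  rw [h0]
  constructor
  · rintro ⟨h1, h2, h3⟩
    have h4 : p ⊆ kap (Order.succ a.card) := fun q hq =>
      mem_kap_iff.2 ⟨h1.mem hq, h2 q hq⟩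
    rcases (h1.subset_iff_eq_or_mem (ZFSet.isOrdinal_toZFSet _)).1 h4 with h5 | h5
    · exact h5
    · exact absurd (mem_kap_iff.1 h5).2 h3
  · rintro rfl
    refine ⟨ZFSet.isOrdinal_toZFSet _, fun q hq => (mem_kap_iff.1 hq).2, fun h => ?_⟩
    rw [card_kap] at h
    exact absurd h (not_le.2 (Order.lt_succ _))

end

end Pool.Agent.GWO
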