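import Pool.Agent.GWO.Crit

/-! # Elementary embeddings with critical point `δ`: the main equivalence -/

namespace Pool.Agent.GWO

open Pool.Agent.SingleUlt Function Filter Cardinal Ordinal

universe u w

variable {n : ℕ} {M : Set ZFSet.{u}} {j : ZFSet.{u} → ZFSet.{u}} {δ : Cardinal.{u}}

/-- `j : V → M` is an elementary embedding with critical point `δ` -/
structure HasCrit (M : Set ZFSet.{u}) (j : ZFSet.{u} → ZFSet.{u}) (δ : Cardinal.{u}) : Prop where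
  elem : Elem M j
  fix : ∀ c : Idx δ, j (o c) = o c
  moved : j (kap δ) ≠ kap δ

theorem HasCrit.fix' (h : HasCrit M j δ) {x : ZFSet.{u}} (hx : x ∈ kap δ) : j x = x := by
  obtain ⟨c, rfl⟩ := mem_kap.1 hx
  exact h.fix c

theorem HasCrit.mem_j (h : HasCrit M j δ) : kap δ ∈ j (kap δ) := by
  have h1 : (kap δ).IsOrdinal := ZFSet.isOrdinal_toZFSet _
  have h2 : kap δ ⊆ j (kap δ) := by
    intro x hx
    have := (h.elem.mem_iff x (kap δ)).2 hx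
    rwa [h.fix' hx] at this
  rcases (h1.subset_iff_eq_or_mem (h.elem.ord h1)).1 h2 with h3 | h3
  · exact absurd h3.symm h.moved
  · exact h3

theorem HasCrit.kap_mem (h : HasCrit M j δ) : kap δ ∈ M :=
  h.elem.trans _ (h.elem.into _) _ h.mem_j

theorem HasCrit.sub_mem (h : HasCrit M j δ) {X : ZFSet.{u}} (hX : X ⊆ kap δ) : X ∈ M := by
  have h1 : X = kap δ ∩ j X := by
    ext x
    rw [ZFSet.mem_inter]
    constructor
    · intro hx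
      refine ⟨hX hx, ?_⟩
      have := (h.elem.mem_iff x X).2 hx
      rwa [h.fix' (hX hx)] at this
    · rintro ⟨hx, hx'⟩
      rw [← h.fix' hx] at hx'
      exact (h.elem.mem_iff x X).1 hx'
  rw [h1]
  exact h.elem.inter h.kap_mem (h.elem.into X)

theorem HasCrit.rel_mem (h : HasCrit M j δ) {X : ZFSet.{u}}
    (hX : ∀ z, z ∈ X → ∃ x y, x ∈ kap δ ∧ y ∈ kap δ ∧ z = ZFSet.pair x y) : X ∈ M := by
  obtain ⟨p, hp, hp'⟩ := h.elem.prod h.kap_mem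
  have hfix : ∀ z, z ∈ X → j z = z := by
    intro z hz
    obtain ⟨x, y, hx, hy, rfl⟩ := hX z hz
    rw [h.elem.pair, h.fix' hx, h.fix' hy]
  have hpp : ∀ x y, x ∈ kap δ → y ∈ kap δ → ZFSet.pair x y ∈ M := fun x y hx hy =>
    h.elem.trans _ hp _ (hp' x y hx hy)
  -- `X` is the intersection of `j X` with the set of pairs of elements of `δ`
  have hR : RDfn 0 (fun M (_ : Fin 0 → ZFSet.{u}) => ∀ a ∈ M, ∀ b ∈ M, ∃ c ∈ M, ∀ z ∈ M,
      (z ∈ c ↔ (z ∈ b ∧ ∃ x ∈ M, ∃ y ∈ M, x ∈ a ∧ y ∈ a ∧ z = ZFSet.pair x y))) :=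
    RDfn.all (RDfn.all (RDfn.ex (RDfn.all ((RDfn.mem _ _).iff ((RDfn.mem _ _).and
      (RDfn.ex (RDfn.ex ((RDfn.mem _ _).and ((RDfn.mem _ _).and (RDfn.pair _ _ _))))))))))
  classical
  obtain ⟨c, hc, hc'⟩ := (h.elem.transfer hR Fin.elim0).1 (fun a _ b _ =>
    ⟨ZFSet.sep (fun z => ∃ x y, x ∈ a ∧ y ∈ a ∧ z = ZFSet.pair x y) b, Set.mem_univ _,
    fun z _ => by
      rw [ZFSet.mem_sep]
      refine and_congr Iff.rfl ⟨?_, ?_⟩
      · rintro ⟨x, y, h1, h2, h3⟩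
        exact ⟨x, Set.mem_univ _, y, Set.mem_univ _, h1, h2, h3⟩
      · rintro ⟨x, _, y, _, h1, h2, h3⟩
        exact ⟨x, y, h1, h2, h3⟩⟩) (kap δ) h.kap_mem (j X) (h.elem.into X)
  have h1 : X = c := by
    ext z
    constructor
    · intro hz
      obtain ⟨x, y, hx, hy, rfl⟩ := hX z hz
      refine (hc' _ (hpp x y hx hy)).2 ⟨?_, x, h.elem.trans _ h.kap_mem _ hx, y,
        h.elem.trans _ h.kap_mem _ hy, hx, hy, rfl⟩
      have := (h.elem.mem_iff _ X).2 hz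
      rwa [hfix _ hz] at this
    · intro hz
      obtain ⟨h2, x, _, y, _, hx, hy, rfl⟩ := (hc' _ (h.elem.trans c hc z hz)).1 hz
      have h3 : j (ZFSet.pair x y) = ZFSet.pair x y := by
        rw [h.elem.pair, h.fix' hx, h.fix' hy]
      rw [← h3] at h2
      exact (h.elem.mem_iff _ X).1 h2
  rw [h1]; exact hc

/-- every ordinal below `δ⁺` is covered in `M` by `δ` -/
theorem HasCrit.cov (h : HasCrit M j δ) {p : ZFSet.{u}} (hp : p ∈ kap (Order.succ δ)) :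
    ∃ f ∈ M, Cov f (kap δ) p := by
  obtain ⟨hpo, hpc⟩ := mem_kap_iff.1 hp
  by_cases hne : ∃ z, z ∈ p
  · obtain ⟨z0, hz0⟩ := hne
    have h2 : #p ≤ #(Idx δ) := by
      rw [ZFSet.cardinalMk_coe_sort, mk_Idx, Cardinal.lift_le]
      exact hpc
    have : Nonempty p := ⟨⟨z0, hz0⟩⟩
    obtain ⟨e'⟩ := h2
    let e : Idx δ → ZFSet.{u} := fun β => (invFun e' β : p).1
    have he1 : ∀ β, e β ∈ p := fun β => (invFun e' β : p).2
    have he2 : ∀ z, z ∈ p → ∃ β, e β = z := by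
      intro z hz
      refine ⟨e' ⟨z, hz⟩, ?_⟩
      show ((invFun e' (e' ⟨z, hz⟩) : p) : ZFSet.{u}) = z
      rw [leftInverse_invFun e'.injective]
    let E : ZFSet.{u} := ZFSet.range fun q : {q : Idx δ × Idx δ // e q.1 ∈ e q.2} =>
      ZFSet.pair (o q.1.1) (o q.1.2)
    have hE : ∀ β γ : Idx δ, ZFSet.pair (o β) (o γ) ∈ E ↔ e β ∈ e γ := by
      intro β γ
      rw [ZFSet.mem_range]
      constructor
      · rintro ⟨q, hq⟩
        obtain ⟨h3, h4⟩ := ZFSet.pair_injective hq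
        rw [← o_injective h3, ← o_injective h4]; exact q.2
      · intro h3
        exact ⟨⟨(β, γ), h3⟩, rfl⟩
    have hEM : E ∈ M := h.rel_mem fun z hz => by
      obtain ⟨q, rfl⟩ := ZFSet.mem_range.1 hz
      exact ⟨_, _, mem_kap.2 ⟨_, rfl⟩, mem_kap.2 ⟨_, rfl⟩, rfl⟩
    have hwf : WellFounded (fun y x : ZFSet.{u} => y ∈ kap δ ∧ x ∈ kap δ ∧
        ZFSet.pair y x ∈ E) := by
      classical
      let e2 : ZFSet.{u} → ZFSet.{u} := fun x => if hx : ∃ c : Idx δ, o c = x then e hx.choose else ∅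
      have he3 : ∀ c : Idx δ, e2 (o c) = e c := by
        intro c
        have hx : ∃ c' : Idx δ, o c' = o c := ⟨c, rfl⟩
        show (if hx : ∃ c' : Idx δ, o c' = o c then e hx.choose else ∅) = e c
        rw [dif_pos hx, o_injective hx.choose_spec]
      refine Subrelation.wf (r := InvImage (· ∈ ·) e2) ?_ (InvImage.wf e2 ZFSet.mem_wf)
      rintro y x ⟨hy, hx, hyx⟩
      obtain ⟨b, rfl⟩ := mem_kap.1 hy
      obtain ⟨c, rfl⟩ := mem_kap.1 hx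
      show e2 (o b) ∈ e2 (o c)
      rw [he3, he3]; exact (hE b c).1 hyx
    obtain ⟨c, hc⟩ := exists_col hwf (p := kap δ) (fun y x h => h.1)
    obtain ⟨F, hF, hF'⟩ := h.elem.collapse h.kap_mem hEM hwf hc
    have hce : ∀ β : Idx δ, c (o β) = e β := by
      have key : ∀ x, ∀ β : Idx δ, e β = x → c (o β) = e β := by
        intro x
        induction x using ZFSet.inductionOn with
        | _ x ih =>
          intro β hβ
          ext w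
          rw [hc]
          constructor
          · rintro ⟨y, ⟨hy, _, hyx⟩, rfl⟩
            obtain ⟨γ, rfl⟩ := mem_kap.1 hy
            have h3 := (hE γ β).1 hyx
            rw [ih (e γ) (hβ ▸ h3) γ rfl]; exact h3
          · intro hw
            obtain ⟨γ, rfl⟩ := he2 w (hpo.mem_trans hw (he1 β))
            exact ⟨o γ, ⟨mem_kap.2 ⟨γ, rfl⟩, mem_kap.2 ⟨β, rfl⟩, (hE γ β).2 hw⟩,
              ih (e γ) (hβ ▸ hw) γ rfl⟩
      exact fun β => key _ β rfl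
    refine ⟨F, hF, fun y hy => ?_, fun x hx y y' hy hy' => ?_⟩
    · obtain ⟨β, rfl⟩ := he2 y hy
      have h3 := (hF' (o β) (mem_kap.2 ⟨β, rfl⟩)).2.1
      rw [hce] at h3
      exact ⟨o β, mem_kap.2 ⟨β, rfl⟩, h3⟩
    · rw [(hF' x hx).2.2 y hy, (hF' x hx).2.2 y' hy']
  · refine ⟨∅, h.sub_mem (fun z hz => absurd hz (ZFSet.notMem_empty z)), ?_, ?_⟩
    · intro y hy; exact absurd ⟨y, hy⟩ hne
    · intro x _ y y' hy; exact absurd hy (ZFSet.notMem_empty _)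

theorem HasCrit.succP_eq (h : HasCrit M j δ) {p : ZFSet.{u}} (hpM : p ∈ M)
    (hp : SuccP M (kap δ) p) : p = kap (Order.succ δ) := by
  obtain ⟨h1, h2, h3⟩ := hp
  rcases h1.mem_trichotomous (ZFSet.isOrdinal_toZFSet (Order.succ δ).ord) with h4 | h4 | h4
  · exact absurd (h.cov h4) h3
  · exact h4
  · exfalso
    obtain ⟨f, _, hf⟩ := h2 _ (h.elem.trans p hpM _ h4) h4
    have := (exists_cov_iff _ _).1 ⟨f, hf⟩
    rw [card_kap, card_kap] at this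
    exact absurd this (not_le.2 (Order.lt_succ _))

theorem HasCrit.succ_mem (h : HasCrit M j δ) :
    kap (Order.succ δ) ∈ M ∧ SuccP M (kap δ) (kap (Order.succ δ)) := by
  have hR : RDfn 0 (fun M (_ : Fin 0 → ZFSet.{u}) => ∀ a ∈ M, ∃ p ∈ M, SuccP M a p) :=
    RDfn.all (RDfn.ex (RDfn.succP _ _))
  obtain ⟨p, hpM, hp⟩ := (h.elem.transfer hR Fin.elim0).1 (fun a _ =>
    ⟨_, Set.mem_univ _, (succP_univ _ _).2 rfl⟩) (kap δ) h.kap_mem
  rw [← h.succP_eq hpM hp]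
  exact ⟨hpM, hp⟩

/-! ## `P(δ⁺) ⊆ M` implies `H(δ⁺⁺) ⊆ M` -/

/-- `G` codes an injective pairing function on `l` -/
def PairF (G l : ZFSet.{u}) : Prop :=
  (∀ x y, x ∈ l → y ∈ l → ∃ z, z ∈ l ∧ ZFSet.pair (ZFSet.pair x y) z ∈ G) ∧
  ∀ x y x' y' z, x ∈ l → y ∈ l → x' ∈ l → y' ∈ l → z ∈ l →
    ZFSet.pair (ZFSet.pair x y) z ∈ G → ZFSet.pair (ZFSet.pair x' y') z ∈ G → x = x' ∧ y = y'

/-- `⟨⟨a, b⟩, c⟩ ∈ f` -/
theorem RDfn.pairMem3 (a b c f : Fin n) : RDfn n (fun _ (v : Fin n → ZFSet.{u}) =>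
    ZFSet.pair (ZFSet.pair (v a) (v b)) (v c) ∈ v f) :=
  (RDfn.ex (S := fun _ v x => x = ZFSet.pair (v a) (v b) ∧ ZFSet.pair x (v c) ∈ v f)
    ((RDfn.pair _ _ _).and (RDfn.pairMem _ _ _))).congr fun M v hM hv => by
    constructor
    · rintro ⟨x, _, rfl, hx⟩; exact hx
    · intro h; exact ⟨_, (hM.pair (hM _ (hv _) _ h)).1, rfl, h⟩

theorem RDfn.pairF (G l : Fin n) :
    RDfn n (fun _ (v : Fin n → ZFSet.{u}) => PairF (v G) (v l)) :=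
  ((RDfn.all (S := fun M v x => ∀ y ∈ M, x ∈ v l → y ∈ v l → ∃ z ∈ M, z ∈ v l ∧
      ZFSet.pair (ZFSet.pair x y) z ∈ v G)
    (RDfn.all ((RDfn.mem _ _).imp ((RDfn.mem _ _).imp (RDfn.ex ((RDfn.mem _ _).and
      (RDfn.pairMem3 _ _ _ _))))))).and
   (RDfn.all (S := fun M v x => ∀ y ∈ M, ∀ x' ∈ M, ∀ y' ∈ M, ∀ z ∈ M, x ∈ v l → y ∈ v l →
      x' ∈ v l → y' ∈ v l → z ∈ v l → ZFSet.pair (ZFSet.pair x y) z ∈ v G →
      ZFSet.pair (ZFSet.pair x' y') z ∈ v G → x = x' ∧ y = y')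
    (RDfn.all (RDfn.all (RDfn.all (RDfn.all ((RDfn.mem _ _).imp ((RDfn.mem _ _).imp
      ((RDfn.mem _ _).imp ((RDfn.mem _ _).imp ((RDfn.mem _ _).imp ((RDfn.pairMem3 _ _ _ _).imp
        ((RDfn.pairMem3 _ _ _ _).imp ((RDfn.eq _ _).and (RDfn.eq _ _))))))))))))))).congr
    fun M v hM hv => by
    have hl : ∀ x, x ∈ v l → x ∈ M := fun x hx => hM _ (hv _) x hx
    constructor
    · rintro ⟨h1, h2⟩
      refine ⟨fun x y hx hy => ?_, fun x y x' y' z hx hy hx' hy' hz h3 h4 =>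
        h2 x (hl x hx) y (hl y hy) x' (hl _ hx') y' (hl _ hy') z (hl z hz) hx hy hx' hy' hz h3 h4⟩
      obtain ⟨z, _, hz⟩ := h1 x (hl x hx) y (hl y hy) hx hy
      exact ⟨z, hz⟩
    · rintro ⟨h1, h2⟩
      refine ⟨fun x _ y _ hx hy => ?_, fun x _ y _ x' _ y' _ z _ hx hy hx' hy' hz h3 h4 =>
        h2 x y x' y' z hx hy hx' hy' hz h3 h4⟩
      obtain ⟨z, hz, hz'⟩ := h1 x y hx hy
      exact ⟨z, hl z hz, hz, hz'⟩

theorem exists_pairF {l : ZFSet.{u}} (hl : ℵ₀ ≤ l.card) : ∃ G, PairF G l := by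
  have h1 : #(l × l) ≤ #l := by
    rw [mk_prod, Cardinal.lift_id, ZFSet.cardinalMk_coe_sort,
      ← Cardinal.lift_mul, mul_eq_self hl]
  obtain ⟨e⟩ := h1
  let G : ZFSet.{u} := ZFSet.range fun q : l × l => ZFSet.pair (ZFSet.pair q.1.1 q.2.1) (e q).1
  have hG : ∀ x y z, ZFSet.pair (ZFSet.pair x y) z ∈ G ↔
      ∃ (hx : x ∈ l) (hy : y ∈ l), z = (e (⟨x, hx⟩, ⟨y, hy⟩)).1 := by
    intro x y z
    rw [ZFSet.mem_range]
    constructor
    · rintro ⟨q, hq⟩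
      obtain ⟨h1, h2⟩ := ZFSet.pair_injective hq
      obtain ⟨h3, h4⟩ := ZFSet.pair_injective h1
      subst h3 h4
      exact ⟨q.1.2, q.2.2, h2.symm⟩
    · rintro ⟨hx, hy, rfl⟩
      exact ⟨(⟨x, hx⟩, ⟨y, hy⟩), rfl⟩
  refine ⟨G, fun x y hx hy => ⟨_, (e (⟨x, hx⟩, ⟨y, hy⟩)).2, (hG _ _ _).2 ⟨hx, hy, rfl⟩⟩, ?_⟩
  intro x y x' y' z hx hy hx' hy' _ h3 h4
  obtain ⟨_, _, h5⟩ := (hG _ _ _).1 h3
  obtain ⟨_, _, h6⟩ := (hG _ _ _).1 h4
  have h7 := e.injective (Subtype.ext (h5.symm.trans h6))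
  rw [Prod.mk.injEq] at h7
  exact ⟨congrArg Subtype.val h7.1, congrArg Subtype.val h7.2⟩

theorem HasCrit.model (h : HasCrit M j δ) (hδ : ℵ₀ < δ)
    (hM : ∀ A : ZFSet.{u}, A ⊆ kap (Order.succ δ) → A ∈ M)
    (ρ : Idx (Order.succ δ) → ZFSet.{u}) (hρ : ∀ ν z, z ∈ ρ ν → ∃ μ, ρ μ = z)
    (ν : Idx (Order.succ δ)) : ρ ν ∈ M := by
  have hkM := h.succ_mem.1
  -- a pairing function in `M`
  have hR : RDfn 1 (fun M (v : Fin 1 → ZFSet.{u}) => ∀ l ∈ M, v 0 ⊆ l → ∃ G ∈ M, PairF G l) :=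
    RDfn.all ((RDfn.sub _ _).imp (RDfn.ex (RDfn.pairF _ _)))
  have hom : (ω : Ordinal.{u}) < δ.ord := by rw [Cardinal.lt_ord, card_omega0]; exact hδ
  have hjw : j (kap ℵ₀) = kap ℵ₀ := by
    refine h.fix' (mem_kap.2 ⟨⟨ω, hom⟩, ?_⟩)
    show (ω : Ordinal.{u}).toZFSet = (ℵ₀ : Cardinal.{u}).ord.toZFSet
    rw [ord_aleph0]
  have hG : ∃ G ∈ M, PairF G (kap (Order.succ δ)) := by
    have h1 := (h.elem.transfer hR ![kap ℵ₀]).1 (fun l _ hl => by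
      obtain ⟨G, hG⟩ := exists_pairF (l := l) (by
        have := ZFSet.card_mono hl
        rwa [show (![kap ℵ₀] : Fin 1 → ZFSet.{u}) 0 = kap ℵ₀ from rfl, card_kap] at this)
      exact ⟨G, Set.mem_univ _, hG⟩)
    refine h1 _ hkM ?_
    show j (kap ℵ₀) ⊆ _
    rw [hjw]
    exact kap_mono (hδ.le.trans (Order.le_succ δ))
  obtain ⟨G, hGM, hG1, hG2⟩ := hG
  classical
  let A : ZFSet.{u} := ZFSet.sep (fun z => ∃ ν μ : Idx (Order.succ δ), ρ ν ∈ ρ μ ∧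
    ZFSet.pair (ZFSet.pair (o ν) (o μ)) z ∈ G) (kap (Order.succ δ))
  have hA : A ∈ M := hM A fun z hz => (ZFSet.mem_sep.1 hz).1
  have hR2 : RDfn 0 (fun M (_ : Fin 0 → ZFSet.{u}) => ∀ G ∈ M, ∀ A ∈ M, ∀ d ∈ M, ∃ E ∈ M,
      ∀ x ∈ M, ∀ y ∈ M, x ∈ d → y ∈ d → (ZFSet.pair x y ∈ E ↔ ∃ z ∈ M, z ∈ A ∧
        ZFSet.pair (ZFSet.pair x y) z ∈ G)) :=
    RDfn.all (RDfn.all (RDfn.all (RDfn.ex (RDfn.all (RDfn.all ((RDfn.mem _ _).imp
      ((RDfn.mem _ _).imp ((RDfn.pairMem _ _ _).iff (RDfn.ex ((RDfn.mem _ _).and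
        (RDfn.pairMem3 _ _ _ _)))))))))))
  obtain ⟨E, hE, hE'⟩ := (h.elem.transfer hR2 Fin.elim0).1 (fun G _ A _ d _ => by
    refine ⟨ZFSet.sep (fun p => ∃ x y, p = ZFSet.pair x y ∧ ∃ z, z ∈ A ∧
      ZFSet.pair (ZFSet.pair x y) z ∈ G) (d.prod d), Set.mem_univ _, ?_⟩
    intro x _ y _ hx hy
    rw [ZFSet.mem_sep, ZFSet.pair_mem_prod]
    constructor
    · rintro ⟨_, x', y', he, z, hz, hz'⟩
      obtain ⟨h3, h4⟩ := ZFSet.pair_injective he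
      subst h3 h4
      exact ⟨z, Set.mem_univ _, hz, hz'⟩
    · rintro ⟨z, _, hz, hz'⟩
      exact ⟨⟨hx, hy⟩, x, y, rfl, z, hz, hz'⟩) G hGM A hA _ hkM
  have hEρ : ∀ ν μ : Idx (Order.succ δ), ZFSet.pair (o ν) (o μ) ∈ E ↔ ρ ν ∈ ρ μ := by
    intro ν μ
    have hν : o ν ∈ kap (Order.succ δ) := mem_kap.2 ⟨ν, rfl⟩
    have hμ : o μ ∈ kap (Order.succ δ) := mem_kap.2 ⟨μ, rfl⟩
    rw [hE' _ (h.elem.trans _ hkM _ hν) _ (h.elem.trans _ hkM _ hμ) hν hμ]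
    constructor
    · rintro ⟨z, _, hz, hz'⟩
      obtain ⟨hzk, ν', μ', h1, h2⟩ := ZFSet.mem_sep.1 hz
      obtain ⟨h3, h4⟩ := hG2 _ _ _ _ _ hν hμ (mem_kap.2 ⟨ν', rfl⟩) (mem_kap.2 ⟨μ', rfl⟩) hzk hz' h2
      rw [o_injective h3, o_injective h4]; exact h1
    · intro h1
      obtain ⟨z, hz, hz'⟩ := hG1 _ _ hν hμ
      exact ⟨z, h.elem.trans _ hkM _ hz, ZFSet.mem_sep.2 ⟨hz, ν, μ, h1, hz'⟩, hz'⟩
  have hwf : WellFounded (fun y x : ZFSet.{u} => y ∈ kap (Order.succ δ) ∧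
      x ∈ kap (Order.succ δ) ∧ ZFSet.pair y x ∈ E) := by
    let e2 : ZFSet.{u} → ZFSet.{u} := fun x =>
      if hx : ∃ c : Idx (Order.succ δ), o c = x then ρ hx.choose else ∅
    have he3 : ∀ c : Idx (Order.succ δ), e2 (o c) = ρ c := by
      intro c
      have hx : ∃ c' : Idx (Order.succ δ), o c' = o c := ⟨c, rfl⟩
      show (if hx : ∃ c' : Idx (Order.succ δ), o c' = o c then ρ hx.choose else ∅) = ρ c
      rw [dif_pos hx, o_injective hx.choose_spec]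
    refine Subrelation.wf (r := InvImage (· ∈ ·) e2) ?_ (InvImage.wf e2 ZFSet.mem_wf)
    rintro y x ⟨hy, hx, hyx⟩
    obtain ⟨b, rfl⟩ := mem_kap.1 hy
    obtain ⟨c, rfl⟩ := mem_kap.1 hx
    show e2 (o b) ∈ e2 (o c)
    rw [he3, he3]; exact (hEρ b c).1 hyx
  obtain ⟨c, hc⟩ := exists_col hwf (p := kap (Order.succ δ)) (fun y x h => h.1)
  obtain ⟨F, _, hF'⟩ := h.elem.collapse hkM hE hwf hc
  have hce : ∀ β : Idx (Order.succ δ), c (o β) = ρ β := by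
    have key : ∀ x, ∀ β : Idx (Order.succ δ), ρ β = x → c (o β) = ρ β := by
      intro x
      induction x using ZFSet.inductionOn with
      | _ x ih =>
        intro β hβ
        ext w
        rw [hc]
        constructor
        · rintro ⟨y, ⟨hy, _, hyx⟩, rfl⟩
          obtain ⟨γ, rfl⟩ := mem_kap.1 hy
          have h3 := (hEρ γ β).1 hyx
          rw [ih (ρ γ) (hβ ▸ h3) γ rfl]; exact h3
        · intro hw
          obtain ⟨γ, rfl⟩ := hρ β w hw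
          exact ⟨o γ, ⟨mem_kap.2 ⟨γ, rfl⟩, mem_kap.2 ⟨β, rfl⟩, (hEρ γ β).2 hw⟩,
            ih (ρ γ) (hβ ▸ hw) γ rfl⟩
    exact fun β => key _ β rfl
  rw [← hce ν]
  exact (hF' (o ν) (mem_kap.2 ⟨ν, rfl⟩)).1

end Pool.Agent.GWO
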