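import Pool.Agent.GWO.CritB

/-! # Elementary embeddings with critical point `δ`: good wellorderings -/

namespace Pool.Agent.GWO

open Pool.Agent.SingleUlt Function Filter Cardinal Ordinal

universe u w

variable {n : ℕ} {M : Set ZFSet.{u}} {j : ZFSet.{u} → ZFSet.{u}} {δ : Cardinal.{u}}

/-- the first-order condition `the good wellordering works at p`, in `M` -/
def Th (M : Set ZFSet.{u}) (φ : Fml) (p : ZFSet.{u}) : Prop :=
  (∀ s ∈ M, In M φ (asg s p) → ∀ x ∈ M, x ∈ s → x ⊆ p) ∧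
  (∀ y ∈ M, y ⊆ p → ∃ s ∈ M, In M φ (asg s p) ∧ ¬ y ∈ s ∧
    ∀ t ∈ M, In M φ (asg t p) → ¬ y ∈ t → t ⊆ s) ∧
  (∀ s ∈ M, In M φ (asg s p) → ∃ y ∈ M, y ⊆ p ∧ ¬ y ∈ s ∧
    ∀ t ∈ M, In M φ (asg t p) → ¬ y ∈ t → t ⊆ s) ∧
  (∀ y ∈ M, ∀ y' ∈ M, y ⊆ p → y' ⊆ p → ¬ y = y' → ∃ t ∈ M, In M φ (asg t p) ∧
    ((y ∈ t ∧ ¬ y' ∈ t) ∨ (y' ∈ t ∧ ¬ y ∈ t))) ∧
  (∀ y ∈ M, y ⊆ p → ∃ t ∈ M, In M φ (asg t p) ∧ y ∈ t) ∧
  (∀ A ∈ M, (∃ x ∈ M, x ∈ A) → (∀ x ∈ M, x ∈ A → x ⊆ p) → ∃ y ∈ M, y ∈ A ∧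
    ∀ z ∈ M, z ∈ A → ∀ t ∈ M, In M φ (asg t p) → z ∈ t → y ∈ t)

theorem RDfn.th (φ : Fml) (p : Fin n) :
    RDfn n (fun M (v : Fin n → ZFSet.{u}) => Th M φ (v p)) :=
  (RDfn.all ((RDfn.asg φ _ _).imp (RDfn.all ((RDfn.mem _ _).imp (RDfn.sub _ _))))).and
  ((RDfn.all ((RDfn.sub _ _).imp (RDfn.ex ((RDfn.asg φ _ _).and ((RDfn.mem _ _).not.and
    (RDfn.all ((RDfn.asg φ _ _).imp ((RDfn.mem _ _).not.imp (RDfn.sub _ _))))))))).and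
  ((RDfn.all ((RDfn.asg φ _ _).imp (RDfn.ex ((RDfn.sub _ _).and ((RDfn.mem _ _).not.and
    (RDfn.all ((RDfn.asg φ _ _).imp ((RDfn.mem _ _).not.imp (RDfn.sub _ _))))))))).and
  ((RDfn.all (RDfn.all ((RDfn.sub _ _).imp ((RDfn.sub _ _).imp ((RDfn.eq _ _).not.imp
    (RDfn.ex ((RDfn.asg φ _ _).and (((RDfn.mem _ _).and (RDfn.mem _ _).not).or
      ((RDfn.mem _ _).and (RDfn.mem _ _).not))))))))).and
  ((RDfn.all ((RDfn.sub _ _).imp (RDfn.ex ((RDfn.asg φ _ _).and (RDfn.mem _ _))))).and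
  (RDfn.all ((RDfn.ex (RDfn.mem _ _)).imp ((RDfn.all ((RDfn.mem _ _).imp (RDfn.sub _ _))).imp
    (RDfn.ex ((RDfn.mem _ _).and (RDfn.all ((RDfn.mem _ _).imp (RDfn.all
      ((RDfn.asg φ _ _).imp ((RDfn.mem _ _).imp (RDfn.mem _ _)))))))))))))))

theorem th_univ {φ : Fml} {p : ZFSet.{u}} : Th Set.univ φ p ↔ GoodWO φ p := by
  unfold Th
  simp only [Set.mem_univ, true_and, forall_true_left, in_univ]
  constructor
  · rintro ⟨h1, h3, h4, h5, h6, h7⟩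
    exact good_of h1 h3 h4 h5 h6 h7
  · intro hG
    obtain ⟨r, hr⟩ := goodWO_iff.1 hG
    have hmax : ∀ y : {x : ZFSet.{u} // x ⊆ p}, ∀ t : ZFSet.{u}, φ.Tr (asg t p) → ¬ y.1 ∈ t →
        t ⊆ ini r y := by
      intro y t ht hyt
      obtain ⟨z, rfl⟩ := hr.eq_ini ht
      exact hr.ini_sub.2 fun h1 => hyt (mem_ini.2 ⟨y.2, h1⟩)
    have hnot : ∀ y : {x : ZFSet.{u} // x ⊆ p}, ¬ y.1 ∈ ini r y := by
      intro y h1
      obtain ⟨_, h2⟩ := mem_ini.1 h1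
      exact hr.irrefl h2
    refine ⟨?_, ?_, ?_, ?_, ?_, ?_⟩
    · intro s hs x hx
      obtain ⟨z, rfl⟩ := hr.eq_ini hs
      exact (mem_ini.1 hx).1
    · intro y hy
      exact ⟨_, hr.tr_ini ⟨y, hy⟩, hnot ⟨y, hy⟩, hmax ⟨y, hy⟩⟩
    · intro s hs
      obtain ⟨z, rfl⟩ := hr.eq_ini hs
      exact ⟨z.1, z.2, hnot z, hmax z⟩
    · intro y y' hy hy' hne
      rcases hr.tri ⟨y, hy⟩ ⟨y', hy'⟩ with h1 | h1 | h1
      · exact ⟨_, hr.tr_ini ⟨y', hy'⟩, Or.inl ⟨mem_ini.2 ⟨hy, h1⟩, hnot ⟨y', hy'⟩⟩⟩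
      · exact absurd (congrArg Subtype.val h1) hne
      · exact ⟨_, hr.tr_ini ⟨y, hy⟩, Or.inr ⟨mem_ini.2 ⟨hy', h1⟩, hnot ⟨y, hy⟩⟩⟩
    · intro y hy
      obtain ⟨z, hz⟩ := hr.noMax ⟨y, hy⟩
      exact ⟨_, hr.tr_ini z, mem_ini.2 ⟨hy, hz⟩⟩
    · intro A hne hA
      have hwo := hr.wo
      have hwf : WellFounded r := IsWellFounded.wf
      obtain ⟨x, hx⟩ := hne
      have hne' : {y : {x : ZFSet.{u} // x ⊆ p} | y.1 ∈ A}.Nonempty := ⟨⟨x, hA x hx⟩, hx⟩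
      obtain ⟨Y, hYA, hmin⟩ : ∃ Y : {x : ZFSet.{u} // x ⊆ p}, Y.1 ∈ A ∧
          ∀ Z : {x : ZFSet.{u} // x ⊆ p}, Z.1 ∈ A → ¬ r Z Y :=
        ⟨hwf.min _ hne', hwf.min_mem _ hne', fun Z hZ => hwf.not_lt_min _ hZ⟩
      refine ⟨Y.1, hYA, fun z hz t ht hzt => ?_⟩
      obtain ⟨w, rfl⟩ := hr.eq_ini ht
      obtain ⟨hzp, hzw⟩ := mem_ini.1 hzt
      refine mem_ini.2 ⟨Y.2, ?_⟩
      rcases hr.tri Y w with h1 | h1 | h1
      · exact h1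
      · rw [← h1] at hzw
        exact absurd hzw (hmin ⟨z, hzp⟩ hz)
      · exact absurd (hr.trans hzw h1) (hmin ⟨z, hzp⟩ hz)

section

variable {φ : Fml}

theorem asg_memM {s p : ZFSet.{u}} (hs : s ∈ M) (hp : p ∈ M) (n : ℕ) : asg s p n ∈ M :=
  asg_mem hs hp n

/-- if `P(δ⁺) ⊆ M`, then initial segments belong to `M` and `M` knows it -/
theorem HasCrit.ini_mem (h : HasCrit M j δ) (hδ : ℵ₀ < δ) (hφ : Sigma1 φ)
    (hM : ∀ A : ZFSet.{u}, A ⊆ kap (Order.succ δ) → A ∈ M)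
    {r : {x : ZFSet.{u} // x ⊆ kap (Order.succ δ)} → {x : ZFSet.{u} // x ⊆ kap (Order.succ δ)} → Prop}
    (hr : IsGood φ (kap (Order.succ δ)) r) (y : {x : ZFSet.{u} // x ⊆ kap (Order.succ δ)}) :
    ini r y ∈ M ∧ In M φ (asg (ini r y) (kap (Order.succ δ))) := by
  have hinf : ℵ₀ ≤ Order.succ δ := hδ.le.trans (Order.le_succ δ)
  obtain ⟨W, hW⟩ := sigma1_witM hφ _ (hr.tr_ini y)
  have hS : #{x | x ∈ ini r y} ≤ Cardinal.lift.{u+1} (Order.succ δ) := by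
    have h3 : #({a | a ∈ ini r y} : Set ZFSet.{u}) = Cardinal.lift.{u+1} (ini r y).card :=
      ZFSet.cardinalMk_coe_sort
    rw [h3, Cardinal.lift_le]
    exact hr.card_ini hφ hinf y
  obtain ⟨X, hX, hXc, hXk, hSX, hXW⟩ := exists_hull hinf _ hS
    (ini r y :: kap (Order.succ δ) :: W)
  have hXM : ∀ x ∈ X, mos X x ∈ M := by
    intro x hx
    have hne : Nonempty X := ⟨⟨x, hx⟩⟩
    have h1 : #X ≤ #(Idx (Order.succ δ)) := by rwa [mk_Idx]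
    obtain ⟨e⟩ := h1
    let ρ : Idx (Order.succ δ) → ZFSet.{u} := fun ν => mos X (invFun e ν : X).1
    have hρ : ∀ y (hy : y ∈ X), ρ (e ⟨y, hy⟩) = mos X y := by
      intro y hy
      show mos X (invFun e (e ⟨y, hy⟩) : X).1 = mos X y
      rw [leftInverse_invFun e.injective]
    have h2 := h.model hδ hM ρ (fun ν z hz => by
      obtain ⟨y, _, hyX, rfl⟩ := mem_mos.1 hz
      exact ⟨e ⟨y, hyX⟩, hρ y hyX⟩) (e ⟨x, hx⟩)
    rwa [hρ] at h2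
  have hsX : ini r y ∈ X := hXW _ (by simp)
  have hpX : kap (Order.succ δ) ∈ X := hXW _ (by simp)
  have hp : mos X (kap (Order.succ δ)) = kap (Order.succ δ) := mos_fix_sub hXk subset_rfl
  have hs : mos X (ini r y) = ini r y := mos_eq_self fun z hz =>
    ⟨hSX hz, mos_fix_sub hXk (mem_ini.1 hz).1⟩
  have h2 := hW X hX (asg_mem hsX hpX) (fun x hx => hXW _ (by simp [hx])) M h.elem.trans hXM
  rw [mos_asg hp, hs] at h2
  have h3 := hXM _ hsX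
  rw [hs] at h3
  exact ⟨h3, h2⟩

theorem HasCrit.th_of (h : HasCrit M j δ) (hδ : ℵ₀ < δ) (hφ : Sigma1 φ)
    (hG : GoodWO φ (kap (Order.succ δ)))
    (hM : ∀ A : ZFSet.{u}, A ⊆ kap (Order.succ δ) → A ∈ M) :
    Th M φ (kap (Order.succ δ)) := by
  obtain ⟨r, hr⟩ := goodWO_iff.1 hG
  obtain ⟨g1, g3, g4, g5, g6, g7⟩ := th_univ.2 hG
  simp only [Set.mem_univ, true_and, forall_true_left, in_univ] at g1 g3 g4 g5 g6 g7
  have up : ∀ s ∈ M, In M φ (asg s (kap (Order.succ δ))) → φ.Tr (asg s (kap (Order.succ δ))) :=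
    fun s hs => sigma1_abs h.elem.trans hφ _ (asg_mem hs h.succ_mem.1)
  have dn : ∀ s, φ.Tr (asg s (kap (Order.succ δ))) → s ∈ M ∧
      In M φ (asg s (kap (Order.succ δ))) := by
    intro s hs
    obtain ⟨y, rfl⟩ := hr.eq_ini hs
    exact h.ini_mem hδ hφ hM hr y
  refine ⟨?_, ?_, ?_, ?_, ?_, ?_⟩
  · intro s hsM hs x _ hx
    exact g1 s (up s hsM hs) x hx
  · intro y _ hy
    obtain ⟨s, hs, h1, h2⟩ := g3 y hy
    exact ⟨s, (dn s hs).1, (dn s hs).2, h1, fun t htM ht => h2 t (up t htM ht)⟩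
  · intro s hsM hs
    obtain ⟨y, hy, h1, h2⟩ := g4 s (up s hsM hs)
    exact ⟨y, hM y hy, hy, h1, fun t htM ht => h2 t (up t htM ht)⟩
  · intro y _ y' _ hy hy' hne
    obtain ⟨t, ht, h1⟩ := g5 y y' hy hy' hne
    exact ⟨t, (dn t ht).1, (dn t ht).2, h1⟩
  · intro y _ hy
    obtain ⟨t, ht, h1⟩ := g6 y hy
    exact ⟨t, (dn t ht).1, (dn t ht).2, h1⟩
  · intro A hA hne hsub
    obtain ⟨x, _, hx⟩ := hne
    obtain ⟨y, hy, h1⟩ := g7 A ⟨x, hx⟩ (fun x hx => hsub x (h.elem.trans A hA x hx) hx)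
    exact ⟨y, h.elem.trans A hA y hy, hy, fun z _ hz t htM ht => h1 z hz t (up t htM ht)⟩

theorem HasCrit.contains (h : HasCrit M j δ) (hδ : ℵ₀ < δ) (hφ : Sigma1 φ)
    (h2 : Order.succ δ < 2 ^ δ) (hG : GoodWO φ (kap (Order.succ δ)))
    (hT : Th M φ (kap (Order.succ δ))) :
    ∀ A : ZFSet.{u}, A ⊆ kap (Order.succ δ) → A ∈ M := by
  obtain ⟨r, hr⟩ := goodWO_iff.1 hG
  obtain ⟨-, g3, g4, g5, g6, -⟩ := hT
  have up : ∀ s ∈ M, In M φ (asg s (kap (Order.succ δ))) → φ.Tr (asg s (kap (Order.succ δ))) :=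
    fun s hs => sigma1_abs h.elem.trans hφ _ (asg_mem hs h.succ_mem.1)
  -- initial segments of elements of `M` are in `M`
  have key : ∀ B : {x : ZFSet.{u} // x ⊆ kap (Order.succ δ)}, B.1 ∈ M → ini r B ∈ M := by
    intro B hB
    obtain ⟨s, hsM, hs, hBs, hmax⟩ := g3 B.1 hB B.2
    obtain ⟨z, rfl⟩ := hr.eq_ini (up s hsM hs)
    obtain ⟨t, htM, ht, hBt⟩ := g6 B.1 hB B.2
    obtain ⟨z', rfl⟩ := hr.eq_ini (up t htM ht)
    obtain ⟨_, hBz'⟩ := mem_ini.1 hBt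
    rcases hr.tri z B with h3 | h3 | h3
    · exfalso
      have hzM : z.1 ∈ M := h.elem.trans _ htM _ (mem_ini.2 ⟨z.2, hr.trans h3 hBz'⟩)
      obtain ⟨t', ht'M, ht', h4⟩ := g5 z.1 hzM B.1 hB z.2 B.2 (fun h5 => by
        have h6 : z = B := Subtype.ext h5
        rw [h6] at h3; exact hr.irrefl h3)
      rcases h4 with ⟨h4, h5⟩ | ⟨h4, h5⟩
      · have h6 := hmax t' ht'M ht' h5 h4
        obtain ⟨_, h7⟩ := mem_ini.1 h6
        exact hr.irrefl h7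
      · obtain ⟨w, rfl⟩ := hr.eq_ini (up t' ht'M ht')
        obtain ⟨_, h6⟩ := mem_ini.1 h4
        exact h5 (mem_ini.2 ⟨z.2, hr.trans h3 h6⟩)
    · rw [← h3]; exact hsM
    · exact absurd (mem_ini.2 ⟨B.2, h3⟩) hBs
  intro A0 hA0
  by_contra hc
  have h1 : (kap δ).powerset ⊆ ini r ⟨A0, hA0⟩ := by
    intro X hX
    rw [ZFSet.mem_powerset] at hX
    have hX' : X ⊆ kap (Order.succ δ) := fun z hz => kap_mono (Order.le_succ δ) (hX hz)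
    rw [mem_ini]
    refine ⟨hX', ?_⟩
    have hXM : X ∈ M := h.sub_mem hX
    rcases hr.tri ⟨X, hX'⟩ ⟨A0, hA0⟩ with h3 | h3 | h3
    · exact h3
    · exfalso
      have h4 : X = A0 := congrArg Subtype.val h3
      exact hc (h4 ▸ hXM)
    · exact absurd (h.elem.trans _ (key ⟨X, hX'⟩ hXM) _ (mem_ini.2 ⟨hA0, h3⟩)) hc
  have h3 := (ZFSet.card_mono h1).trans
    (hr.card_ini hφ (hδ.le.trans (Order.le_succ δ)) ⟨A0, hA0⟩)
  rw [ZFSet.card_powerset, card_kap] at h3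
  exact absurd h3 (not_le.2 h2)

/-- the set of all `α < δ` such that `φ` works at `|α|⁺`, as a set -/
noncomputable def reflSet (φ : Fml) (δ : Cardinal.{u}) : ZFSet.{u} :=
  ZFSet.range fun i : {i : Idx δ // GoodWO φ (kap (Order.succ i.1.card))} => o i.1

theorem mem_reflSet {φ : Fml} {i : Idx δ} :
    o i ∈ reflSet φ δ ↔ GoodWO φ (kap (Order.succ i.1.card)) := by
  unfold reflSet
  rw [ZFSet.mem_range]
  constructor
  · rintro ⟨k, hk⟩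
    rw [← o_injective hk]; exact k.2
  · intro h
    exact ⟨⟨i, h⟩, rfl⟩

/-- **Main equivalence for elementary embeddings.** -/
theorem HasCrit.main (h : HasCrit M j δ) (hδ : ℵ₀ < δ) (hφ : Sigma1 φ)
    (h2 : Order.succ δ < 2 ^ δ) (hG : GoodWO φ (kap (Order.succ δ))) :
    (∀ A : ZFSet.{u}, A ⊆ kap (Order.succ δ) → A ∈ M) ↔ kap δ ∈ j (reflSet φ δ) := by
  have hR : RDfn 2 (fun M (v : Fin 2 → ZFSet.{u}) => ∀ a ∈ M, a ∈ v 1 →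
      (a ∈ v 0 ↔ ∃ p ∈ M, SuccP M a p ∧ Th M φ p)) :=
    RDfn.all ((RDfn.mem _ _).imp ((RDfn.mem _ _).iff (RDfn.ex ((RDfn.succP _ _).and
      (RDfn.th φ _)))))
  have h1 := (h.elem.transfer hR ![reflSet φ δ, kap δ]).1 (by
    intro a _ ha
    obtain ⟨i, rfl⟩ := mem_kap.1 (show a ∈ kap δ from ha)
    show o i ∈ reflSet φ δ ↔ _
    rw [mem_reflSet]
    have hcard : (o i).card = i.1.card := Ordinal.card_toZFSet _
    constructor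
    · intro hi
      exact ⟨_, Set.mem_univ _, (succP_univ _ _).2 rfl, th_univ.2 (by rw [hcard]; exact hi)⟩
    · rintro ⟨p, _, hp, hp'⟩
      rw [succP_univ] at hp
      subst hp
      rw [hcard] at hp'
      exact th_univ.1 hp')
  have h3 : kap δ ∈ j (reflSet φ δ) ↔ ∃ p ∈ M, SuccP M (kap δ) p ∧ Th M φ p :=
    h1 (kap δ) h.kap_mem h.mem_j
  rw [h3]
  constructor
  · intro hM
    exact ⟨_, h.succ_mem.1, h.succ_mem.2, h.th_of hδ hφ hG hM⟩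
  · rintro ⟨p, hpM, hp, hT⟩
    rw [h.succP_eq hpM hp] at hT
    exact h.contains hδ hφ h2 hG hT

end

end Pool.Agent.GWO
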