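import Pool.Agent.GWO.CritC

/-! # The normal measure derived from an elementary embedding -/

namespace Pool.Agent.GWO

open Pool.Agent.SingleUlt Function Filter Cardinal Ordinal

universe u w

variable {n : ℕ} {M : Set ZFSet.{u}} {j : ZFSet.{u} → ZFSet.{u}} {δ : Cardinal.{u}}

/-- the set of ordinals coding a set of indices -/
noncomputable def cde (S : Set (Idx δ)) : ZFSet.{u} := ZFSet.range fun s : S => o s.1

theorem mem_cde {S : Set (Idx δ)} {z : ZFSet.{u}} : z ∈ cde S ↔ ∃ i ∈ S, o i = z := by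
  unfold cde
  rw [ZFSet.mem_range]
  exact ⟨fun ⟨s, hs⟩ => ⟨s.1, s.2, hs⟩, fun ⟨i, hi, h⟩ => ⟨⟨i, hi⟩, h⟩⟩

theorem o_mem_cde {S : Set (Idx δ)} {i : Idx δ} : o i ∈ cde S ↔ i ∈ S := by
  rw [mem_cde]
  exact ⟨fun ⟨k, hk, h⟩ => by rw [← o_injective h]; exact hk, fun h => ⟨i, h, rfl⟩⟩

theorem cde_sub (S : Set (Idx δ)) : cde S ⊆ kap δ := by
  intro z hz
  obtain ⟨i, _, rfl⟩ := mem_cde.1 hz
  exact mem_kap.2 ⟨i, rfl⟩

theorem cde_eq {X : ZFSet.{u}} (hX : X ⊆ kap δ) : cde {i : Idx δ | o i ∈ X} = X := by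
  ext z
  rw [mem_cde]
  constructor
  · rintro ⟨i, hi, rfl⟩; exact hi
  · intro hz
    obtain ⟨c, rfl⟩ := mem_kap.1 (hX hz)
    exact ⟨c, hz, rfl⟩

/-- transfer of bounded statements to the critical point -/
theorem HasCrit.at_crit (h : HasCrit M j δ) {m : ℕ}
    {R : Set ZFSet.{u} → ZFSet.{u} → (Fin m → ZFSet.{u}) → Prop}
    (hR : RDfn (m+1) (fun M v => R M (v (Fin.last m)) (fun i => v i.castSucc)))
    (v : Fin m → ZFSet.{u}) (k : Fin m) (hk : v k = kap δ)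
    (H : ∀ i : Idx δ, R Set.univ (o i) v) : R M (kap δ) (fun i => j (v i)) := by
  have hR' : RDfn m (fun M v => ∀ x ∈ M, x ∈ v k → R M x v) :=
    RDfn.all (S := fun M v x => x ∈ v k → R M x v) ((RDfn.mem _ _).imp hR)
  have h1 := (h.elem.transfer hR' v).1 (fun x _ hx => by
    rw [hk] at hx
    obtain ⟨i, rfl⟩ := mem_kap.1 hx
    exact H i)
  refine h1 (kap δ) h.kap_mem ?_
  show kap δ ∈ j (v k)
  rw [hk]; exact h.mem_j

theorem HasCrit.exists_uf (h : HasCrit M j δ) : ∃ U : Ultrafilter (Idx δ),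
    ∀ S : Set (Idx δ), S ∈ U ↔ kap δ ∈ j (cde S) := by
  have huniv : kap δ ∈ j (cde (Set.univ : Set (Idx δ))) := by
    have : cde (Set.univ : Set (Idx δ)) = kap δ := by
      ext z
      rw [mem_cde, mem_kap]
      exact ⟨fun ⟨i, _, hi⟩ => ⟨i, hi⟩, fun ⟨i, hi⟩ => ⟨i, Set.mem_univ _, hi⟩⟩
    rw [this]; exact h.mem_j
  have hsup : ∀ S T : Set (Idx δ), S ⊆ T → kap δ ∈ j (cde S) → kap δ ∈ j (cde T) := by
    intro S T hST
    have := h.at_crit (m := 3) (R := fun _ a v => a ∈ v 0 → a ∈ v 1)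
      ((RDfn.mem _ _).imp (RDfn.mem _ _)) ![cde S, cde T, kap δ] 2 rfl (fun i hi => by
        have h1 : i ∈ S := o_mem_cde.1 hi
        exact o_mem_cde.2 (hST h1))
    exact this
  have hint : ∀ S T : Set (Idx δ), kap δ ∈ j (cde S) → kap δ ∈ j (cde T) →
      kap δ ∈ j (cde (S ∩ T)) := by
    intro S T
    have := h.at_crit (m := 4) (R := fun _ a v => a ∈ v 0 → (a ∈ v 1 → a ∈ v 2))
      ((RDfn.mem _ _).imp ((RDfn.mem _ _).imp (RDfn.mem _ _)))
      ![cde S, cde T, cde (S ∩ T), kap δ] 3 rfl (fun i hi hi' => by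
        have h1 : i ∈ S := o_mem_cde.1 hi
        have h2 : i ∈ T := o_mem_cde.1 hi'
        exact o_mem_cde.2 ⟨h1, h2⟩)
    exact this
  have hcompl : ∀ S : Set (Idx δ), kap δ ∈ j (cde Sᶜ) ↔ ¬ kap δ ∈ j (cde S) := by
    intro S
    have := h.at_crit (m := 3) (R := fun _ a v => (a ∈ v 0 ↔ ¬ a ∈ v 1))
      ((RDfn.mem _ _).iff (RDfn.mem _ _).not) ![cde Sᶜ, cde S, kap δ] 2 rfl (fun i => by
        show o i ∈ cde Sᶜ ↔ ¬ o i ∈ cde S
        rw [o_mem_cde, o_mem_cde]; rfl)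
    exact this
  let F : Filter (Idx δ) :=
    { sets := {S | kap δ ∈ j (cde S)}
      univ_sets := huniv
      sets_of_superset := fun {S T} hS hST => hsup S T hST hS
      inter_sets := fun {S T} hS hT => hint S T hS hT }
  refine ⟨Ultrafilter.ofComplNotMemIff F fun S => ?_, fun S => Iff.rfl⟩
  show ¬ kap δ ∈ j (cde Sᶜ) ↔ kap δ ∈ j (cde S)
  rw [hcompl, not_not]

/-- intersections of fewer than `δ` sets, and diagonal intersections -/
theorem HasCrit.inters (h : HasCrit M j δ) {U : Ultrafilter (Idx δ)}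
    (hU : ∀ S : Set (Idx δ), S ∈ U ↔ kap δ ∈ j (cde S)) (X : Idx δ → Set (Idx δ))
    (hX : ∀ a, X a ∈ U) : {b | ∀ a, a < b → b ∈ X a} ∈ U := by
  let F : ZFSet.{u} := ZFSet.range fun a : Idx δ => ZFSet.pair (o a) (cde (X a))
  have hF : ∀ (a : Idx δ) c, ZFSet.pair (o a) c ∈ F ↔ c = cde (X a) := by
    intro a c
    rw [ZFSet.mem_range]
    constructor
    · rintro ⟨b, hb⟩
      obtain ⟨h1, h2⟩ := ZFSet.pair_injective hb
      rw [← o_injective h1, h2]
    · rintro rfl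
      exact ⟨a, rfl⟩
  have h1 := h.at_crit (m := 3) (R := fun M a v => (a ∈ v 0 ↔ ∀ x ∈ M, ∀ c ∈ M,
      x ∈ a → ZFSet.pair x c ∈ v 1 → a ∈ c))
    ((RDfn.mem _ _).iff (RDfn.all (RDfn.all ((RDfn.mem _ _).imp ((RDfn.pairMem _ _ _).imp
      (RDfn.mem _ _)))))) ![cde {b | ∀ a, a < b → b ∈ X a}, F, kap δ] 2 rfl (fun i => by
        show o i ∈ cde {b | ∀ a, a < b → b ∈ X a} ↔ ∀ x ∈ Set.univ, ∀ c ∈ Set.univ,
          x ∈ o i → ZFSet.pair x c ∈ F → o i ∈ c
        rw [o_mem_cde]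
        constructor
        · intro hi x _ c _ hx hc
          obtain ⟨a, ha, rfl⟩ := Ordinal.mem_toZFSet_iff.1 hx
          have ha' : a < δ.ord := lt_trans ha i.2
          rw [(hF ⟨a, ha'⟩ c).1 hc, o_mem_cde]
          exact hi ⟨a, ha'⟩ ha
        · intro hi a ha
          have := hi (o a) (Set.mem_univ _) (cde (X a)) (Set.mem_univ _)
            (Ordinal.toZFSet_mem_toZFSet_iff.2 ha) ((hF a _).2 rfl)
          exact o_mem_cde.1 this)
  rw [hU]
  refine h1.2 fun x hxM c hcM hx hc => ?_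
  obtain ⟨a, rfl⟩ := mem_kap.1 hx
  -- `c = j (cde (X a))`
  have h2 : ZFSet.pair (o a) (j (cde (X a))) ∈ j F := by
    have := (h.elem.mem_iff (ZFSet.pair (o a) (cde (X a))) F).2 ((hF a _).2 rfl)
    rwa [h.elem.pair, h.fix a] at this
  have h3 : RDfn 1 (fun M (v : Fin 1 → ZFSet.{u}) => ∀ x ∈ M, ∀ c ∈ M, ∀ d ∈ M,
      ZFSet.pair x c ∈ v 0 → ZFSet.pair x d ∈ v 0 → c = d) :=
    RDfn.all (RDfn.all (RDfn.all ((RDfn.pairMem _ _ _).imp ((RDfn.pairMem _ _ _).imp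
      (RDfn.eq _ _)))))
  have h4 := (h.elem.transfer h3 ![F]).1 (fun x _ c _ d _ hc hd => by
    have hc' : ZFSet.pair x c ∈ F := hc
    have hd' : ZFSet.pair x d ∈ F := hd
    obtain ⟨b, hb⟩ := ZFSet.mem_range.1 hc'
    obtain ⟨h5, h6⟩ := ZFSet.pair_injective hb
    rw [← h5] at hc' hd'
    rw [(hF b c).1 hc', (hF b d).1 hd'])
  have h5 : c = j (cde (X a)) := h4 (o a) hxM c hcM _ (h.elem.into _) hc h2
  rw [h5, ← hU]
  exact hX a

theorem HasCrit.normal (h : HasCrit M j δ) (hδ : ℵ₀ < δ) {U : Ultrafilter (Idx δ)}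
    (hU : ∀ S : Set (Idx δ), S ∈ U ↔ kap δ ∈ j (cde S)) : IsNormalMeasure δ U := by
  have htail : ∀ c : Idx δ, {i | c < i} ∈ U := by
    intro c
    rw [hU]
    have := h.at_crit (m := 3) (R := fun _ a v => (v 0 ∈ a → a ∈ v 1))
      ((RDfn.mem _ _).imp (RDfn.mem _ _)) ![o c, cde {i | c < i}, kap δ] 2 rfl (fun i hi => by
        have h1 : c < i := Ordinal.toZFSet_mem_toZFSet_iff.1 hi
        exact o_mem_cde.2 h1)
    refine this ?_
    show j (o c) ∈ kap δ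
    rw [h.fix]; exact mem_kap.2 ⟨c, rfl⟩
  refine ⟨hδ, fun a => ?_, ?_, h.inters hU⟩
  · refine mem_of_superset (htail a) fun i hi => ?_
    exact (ne_of_lt (show a < i from hi)).symm
  · intro S hS hSU
    obtain ⟨d, hdδ, hd⟩ := Cardinal.lt_lift_iff.1 hS
    have h1 : #(Set.Iio d.ord) = #S := by
      rw [← hd, Cardinal.mk_Iio_ordinal, card_ord]
    obtain ⟨e⟩ := Cardinal.eq.1 h1
    have hdo : d.ord < δ.ord := Cardinal.ord_lt_ord.2 hdδ
    classical
    let X : Idx δ → Set (Idx δ) := fun a =>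
      if ha : a.1 < d.ord then (e ⟨a.1, ha⟩).1 else Set.univ
    have hX : ∀ a, X a ∈ U := by
      intro a
      by_cases ha : a.1 < d.ord
      · show (if ha : a.1 < d.ord then (e ⟨a.1, ha⟩).1 else Set.univ) ∈ U
        rw [dif_pos ha]; exact hSU _ (e ⟨a.1, ha⟩).2
      · show (if ha : a.1 < d.ord then (e ⟨a.1, ha⟩).1 else Set.univ) ∈ U
        rw [dif_neg ha]; exact univ_mem
    refine mem_of_superset (inter_mem (h.inters hU X hX) (htail ⟨d.ord, hdo⟩)) ?_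
    rintro b ⟨hb1, hb2⟩
    rw [Set.mem_sInter]
    intro s hs
    obtain ⟨⟨a, ha⟩, hae⟩ := e.surjective ⟨s, hs⟩
    have ha' : a < δ.ord := lt_trans ha hdo
    have hab : a < b.1 := lt_trans (show a < d.ord from ha) (show d.ord < b.1 from hb2)
    have h3 := hb1 ⟨a, ha'⟩ hab
    have h4 : b ∈ (if ha : a < d.ord then (e ⟨a, ha⟩).1 else Set.univ) := h3
    rw [dif_pos (show a < d.ord from ha)] at h4
    rw [hae] at h4
    exact h4

/-- ultrapower embeddings by normal measures are examples -/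
theorem normal_hasCrit {U : Ultrafilter (Idx δ)} (hU : IsNormalMeasure δ U) :
    HasCrit (Mod U) (emb U) δ ∧ ∀ S : Set (Idx δ), S ∈ U ↔ kap δ ∈ emb U (cde S) := by
  have hs := seed_normal hU
  have hsat : ∀ (φ : Fml) (F : ℕ → Idx δ → ZFSet.{u}) (v : ℕ → ZFSet.{u}),
      (∀ n, Coll U (F n) (v n)) → (φ.Sat (UQ U) (UE U) F ↔ In (Mod U) φ v) := by
    intro φ
    induction φ with
    | mem i j => intro F v h; exact (h j).mem_iff (h i)
    | eq i j => intro F v h; exact (h i).eq_iff (h j)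
    | neg φ ih => intro F v h; exact not_congr (ih F v h)
    | and φ ψ ih1 ih2 => intro F v h; exact and_congr (ih1 F v h) (ih2 F v h)
    | all i φ ih =>
      intro F v h
      constructor
      · intro H a ha
        obtain ⟨g, hg⟩ := (mem_Mod hU.tot a).1 ha
        exact (ih _ _ (upd h hg)).1 (H g)
      · intro H g
        obtain ⟨a, ha⟩ := hU.tot g
        exact (ih _ _ (upd h ha)).2 (H a ((mem_Mod hU.tot a).2 ⟨g, ha⟩))
  have hmem : ∀ S : Set (Idx δ), S ∈ U ↔ kap δ ∈ emb U (cde S) := by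
    intro S
    rw [← hU.mem_iff (cde S) (hU.coll_emb _)]
    have : {i : Idx δ | o i ∈ cde S} = S := by ext i; exact o_mem_cde
    rw [this]
  refine ⟨⟨⟨?_, fun x => ⟨_, rfl⟩, ?_⟩, fun c => ?_, fun hc => ?_⟩, hmem⟩
  · intro x hx y hy
    obtain ⟨g, hg⟩ := (mem_Mod hU.tot x).1 hx
    obtain ⟨k, _, hk⟩ := hg.snd hy
    exact (mem_Mod hU.tot y).2 ⟨k, hk⟩
  · intro φ v
    rw [← hsat φ (fun n _ => v n) (fun n => emb U (v n)) (fun n => hU.coll_emb _), los]
    constructor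
    · intro h; exact Eventually.of_forall fun _ => h
    · intro h
      obtain ⟨_, hi⟩ := h.exists
      exact hi
  · exact (hU.coll_emb (o c)).unique (hU.coll_const c)
  · have h1 : kap δ ∈ emb U (kap δ) := by
      refine ((hU.coll_emb (kap δ)).mem_iff hU.coll_id).1 ?_
      exact Eventually.of_forall fun i => mem_kap.2 ⟨i, rfl⟩
    rw [hc] at h1
    exact ZFSet.mem_irrefl _ h1

end Pool.Agent.GWO
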