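import Pool.Agent.GWO.Model

/-! # If `P(δ⁺) ⊆ M` then the good wellordering reflects -/

namespace Pool.Agent.GWO

open Pool.Agent.SingleUlt Function Filter Cardinal Ordinal

universe u w

variable {δ : Cardinal.{u}} {I : Type w} {D : Ultrafilter I} {f : I → Idx δ}

theorem Seed.hullM (h : Seed δ D f)
    (hM : ∀ A : ZFSet.{u}, A ⊆ kap (Order.succ δ) → ∃ g, Coll D g A) {X : Set ZFSet.{u}}
    (hX : #X ≤ Cardinal.lift.{u+1} (Order.succ δ)) : ∀ x ∈ X, ∃ g, Coll D g (mos X x) := by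
  intro x hx
  have hne : Nonempty X := ⟨⟨x, hx⟩⟩
  have h1 : #X ≤ #(Idx (Order.succ δ)) := by rwa [mk_Idx]
  obtain ⟨e⟩ := h1
  let ρ : Idx (Order.succ δ) → ZFSet.{u} := fun ν => mos X (invFun e ν : X).1
  have hρ : ∀ y (hy : y ∈ X), ρ (e ⟨y, hy⟩) = mos X y := by
    intro y hy
    show mos X (invFun e (e ⟨y, hy⟩) : X).1 = mos X y
    rw [leftInverse_invFun e.injective]
  have h2 := h.model hM ρ (fun ν z hz => by
    obtain ⟨y, _, hyX, rfl⟩ := mem_mos.1 hz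
    exact ⟨e ⟨y, hyX⟩, hρ y hyX⟩) (e ⟨x, hx⟩)
  rw [hρ] at h2
  exact h2

section

variable {φ : Fml}
  {r : {x : ZFSet.{u} // x ⊆ kap (Order.succ δ)} → {x : ZFSet.{u} // x ⊆ kap (Order.succ δ)} → Prop}

/-- initial segments are in the ultrapower, and transfer -/
theorem Seed.T0 (h : Seed δ D f) (hφ : Sigma1 φ)
    (hM : ∀ A : ZFSet.{u}, A ⊆ kap (Order.succ δ) → ∃ g, Coll D g A)
    (hr : IsGood φ (kap (Order.succ δ)) r) (y : {x : ZFSet.{u} // x ⊆ kap (Order.succ δ)}) :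
    ∃ s : I → ZFSet.{u}, Coll D s (ini r y) ∧
      ∀ᶠ i in (D : Filter I), φ.Tr (asg (s i) (kap (Order.succ (f i).1.card))) := by
  have hinf : ℵ₀ ≤ Order.succ δ := h.inf.trans (Order.le_succ δ)
  obtain ⟨W, hW⟩ := sigma1_wit.{u, w} hφ _ (hr.tr_ini y)
  have hS : #{x | x ∈ ini r y} ≤ Cardinal.lift.{u+1} (Order.succ δ) := by
    have h3 : #({a | a ∈ ini r y} : Set ZFSet.{u}) = Cardinal.lift.{u+1} (ini r y).card :=
      ZFSet.cardinalMk_coe_sort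
    rw [h3, Cardinal.lift_le]
    exact hr.card_ini hφ hinf y
  obtain ⟨X, hX, hXc, hXk, hSX, hXW⟩ := exists_hull hinf _ hS
    (ini r y :: kap (Order.succ δ) :: W)
  have hsX : ini r y ∈ X := hXW _ (by simp)
  have hpX : kap (Order.succ δ) ∈ X := hXW _ (by simp)
  have hp : mos X (kap (Order.succ δ)) = kap (Order.succ δ) := mos_fix_sub hXk subset_rfl
  have hs : mos X (ini r y) = ini r y := mos_eq_self fun z hz =>
    ⟨hSX hz, mos_fix_sub hXk (mem_ini.1 hz).1⟩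
  have h2 := (hW X hX (asg_mem hsX hpX) (fun x hx => hXW _ (by simp [hx]))).2 D
    (h.hullM hM hXc)
  obtain ⟨s, hs'⟩ := h.hullM hM hXc _ hsX
  rw [hs] at hs'
  refine ⟨s, hs', h2 (fun n i => asg (s i) (kap (Order.succ (f i).1.card)) n) fun n => ?_⟩
  have h4 := congrFun (mos_asg (s := ini r y) hp) n
  rw [h4, hs]
  exact coll_asg hs' h.succ n

theorem Seed.T (h : Seed δ D f) (hφ : Sigma1 φ)
    (hM : ∀ A : ZFSet.{u}, A ⊆ kap (Order.succ δ) → ∃ g, Coll D g A)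
    (hr : IsGood φ (kap (Order.succ δ)) r) {s : I → ZFSet.{u}}
    {y : {x : ZFSet.{u} // x ⊆ kap (Order.succ δ)}} (hs : Coll D s (ini r y)) :
    ∀ᶠ i in (D : Filter I), φ.Tr (asg (s i) (kap (Order.succ (f i).1.card))) := by
  obtain ⟨s', hs', h'⟩ := h.T0 hφ hM hr y
  filter_upwards [hs.inj hs', h'] with i h1 h2
  rw [h1]; exact h2

/-- upwards: a set of the model with `φ` a.e. is an initial segment -/
theorem Seed.up (h : Seed δ D f) (hφ : Sigma1 φ) (hr : IsGood φ (kap (Order.succ δ)) r)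
    {s : I → ZFSet.{u}}
    (hs : ∀ᶠ i in (D : Filter I), φ.Tr (asg (s i) (kap (Order.succ (f i).1.card)))) :
    ∃ y, Coll D s (ini r y) := by
  obtain ⟨S, hS⟩ := h.tot s
  have h1 := tr_up h.tot hφ hS h.succ hs
  rw [hr.def_iff] at h1
  obtain ⟨y, hy⟩ := h1
  refine ⟨y, ?_⟩
  have : S = ini r y := by
    ext x
    rw [hy, mem_ini]
  rwa [← this]

theorem ini_sub (hr : IsGood φ (kap (Order.succ δ)) r)
    {y z : {x : ZFSet.{u} // x ⊆ kap (Order.succ δ)}} : ini r y ⊆ ini r z ↔ ¬ r z y := by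
  constructor
  · intro h hzy
    obtain ⟨_, h1⟩ := mem_ini.1 (h (mem_ini.2 ⟨z.2, hzy⟩))
    exact hr.irrefl h1
  · intro h x hx
    obtain ⟨hx1, hx2⟩ := mem_ini.1 hx
    rcases hr.tri y z with h1 | h1 | h1
    · exact mem_ini.2 ⟨hx1, hr.trans hx2 h1⟩
    · rw [← h1]; exact hx
    · exact absurd h1 h

end

/-- a first-order sufficient condition for `GoodWO` -/
theorem good_of {φ : Fml} {p : ZFSet.{u}}
    (h1 : ∀ s : ZFSet.{u}, φ.Tr (asg s p) → ∀ x, x ∈ s → x ⊆ p)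
    (h3 : ∀ y : ZFSet.{u}, y ⊆ p → ∃ s, φ.Tr (asg s p) ∧ y ∉ s ∧
      ∀ t, φ.Tr (asg t p) → y ∉ t → t ⊆ s)
    (h4 : ∀ s : ZFSet.{u}, φ.Tr (asg s p) → ∃ y, y ⊆ p ∧ y ∉ s ∧
      ∀ t, φ.Tr (asg t p) → y ∉ t → t ⊆ s)
    (h5 : ∀ y y' : ZFSet.{u}, y ⊆ p → y' ⊆ p → y ≠ y' → ∃ t, φ.Tr (asg t p) ∧
      ((y ∈ t ∧ y' ∉ t) ∨ (y' ∈ t ∧ y ∉ t)))
    (h6 : ∀ y : ZFSet.{u}, y ⊆ p → ∃ t, φ.Tr (asg t p) ∧ y ∈ t)
    (h7 : ∀ A : ZFSet.{u}, (∃ x, x ∈ A) → (∀ x, x ∈ A → x ⊆ p) → ∃ y, y ∈ A ∧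
      ∀ z, z ∈ A → ∀ t, φ.Tr (asg t p) → z ∈ t → y ∈ t) : GoodWO φ p := by
  let r : {x : ZFSet.{u} // x ⊆ p} → {x : ZFSet.{u} // x ⊆ p} → Prop := fun x y =>
    ∃ t, φ.Tr (asg t p) ∧ x.1 ∈ t ∧ y.1 ∉ t
  have htri : ∀ a b, r a b ∨ a = b ∨ r b a := by
    intro a b
    by_cases hab : a = b
    · exact Or.inr (Or.inl hab)
    · obtain ⟨t, ht, h | h⟩ := h5 a.1 b.1 a.2 b.2 (fun h => hab (Subtype.ext h))
      · exact Or.inl ⟨t, ht, h.1, h.2⟩
      · exact Or.inr (Or.inr ⟨t, ht, h.1, h.2⟩)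
  have hwf : WellFounded r := by
    rw [WellFounded.wellFounded_iff_has_min]
    intro S hS
    classical
    let A : ZFSet.{u} := ZFSet.sep (fun x => ∃ h : x ⊆ p, (⟨x, h⟩ : {x : ZFSet.{u} // x ⊆ p}) ∈ S)
      p.powerset
    have hA : ∀ x, x ∈ A ↔ ∃ h : x ⊆ p, (⟨x, h⟩ : {x : ZFSet.{u} // x ⊆ p}) ∈ S := by
      intro x
      rw [ZFSet.mem_sep, ZFSet.mem_powerset]
      exact ⟨fun h => h.2, fun h => ⟨h.1, h⟩⟩
    obtain ⟨a, ha⟩ := hS
    obtain ⟨y, hy, hmin⟩ := h7 A ⟨a.1, (hA _).2 ⟨a.2, ha⟩⟩ (fun x hx => ((hA x).1 hx).1)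
    obtain ⟨hy1, hy2⟩ := (hA y).1 hy
    refine ⟨⟨y, hy1⟩, hy2, fun z hz => ?_⟩
    rintro ⟨t, ht, hzt, hyt⟩
    exact hyt (hmin z.1 ((hA _).2 ⟨z.2, hz⟩) t ht hzt)
  have hwo : IsWellOrder _ r :=
    { wf := hwf
      trichotomous := fun a b h1 h2 => by
        rcases htri a b with h | h | h
        · exact absurd h h1
        · exact h
        · exact absurd h h2 }
  refine ⟨r, hwo, fun y => ?_, fun s => ?_⟩
  · obtain ⟨t, ht, hyt⟩ := h6 y.1 y.2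
    obtain ⟨z, hz, hzt, _⟩ := h4 t ht
    exact ⟨⟨z, hz⟩, t, ht, hyt, hzt⟩
  · constructor
    · intro hs
      obtain ⟨y, hy, hys, hmax⟩ := h4 s hs
      refine ⟨⟨y, hy⟩, fun x => ⟨fun hx => ⟨h1 s hs x hx, s, hs, hx, hys⟩, ?_⟩⟩
      rintro ⟨_, t, ht, hxt, hyt⟩
      exact hmax t ht hyt hxt
    · rintro ⟨y, hy⟩
      obtain ⟨s', hs', hys, hmax⟩ := h3 y.1 y.2
      have : s = s' := by
        ext x
        rw [hy]
        constructor
        · rintro ⟨_, t, ht, hxt, hyt⟩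
          exact hmax t ht hyt hxt
        · intro hx
          exact ⟨h1 s' hs' x hx, s', hs', hx, hys⟩
      rw [this]; exact hs'

/-- **Reflection.**  If the ultrapower contains all subsets of `δ⁺`, then the good wellordering
reflects to almost all `α < δ`. -/
theorem Seed.reflect (h : Seed δ D f) {φ : Fml} (hφ : Sigma1 φ)
    (hG : GoodWO φ (kap (Order.succ δ)))
    (hM : ∀ A : ZFSet.{u}, A ⊆ kap (Order.succ δ) → ∃ g, Coll D g A) :
    ∀ᶠ i in (D : Filter I), GoodWO φ (kap (Order.succ (f i).1.card)) := by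
  obtain ⟨r, hr⟩ := goodWO_iff.1 hG
  -- maximality of initial segments, transferred
  have mx : ∀ (s y : I → ZFSet.{u}) (Y : {x : ZFSet.{u} // x ⊆ kap (Order.succ δ)}),
      Coll D s (ini r Y) → Coll D y Y.1 → ∀ᶠ i in (D : Filter I), y i ∉ s i ∧
        ∀ t, φ.Tr (asg t (kap (Order.succ (f i).1.card))) → y i ∉ t → t ⊆ s i := by
    intro s y Y hs hy
    have h1 : ∀ᶠ i in (D : Filter I), y i ∉ s i := by
      rw [Ultrafilter.eventually_not]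
      intro hc
      have := (hs.mem_iff hy).1 hc
      obtain ⟨_, h2⟩ := mem_ini.1 this
      exact hr.irrefl h2
    have h2 : ∀ᶠ i in (D : Filter I),
        ∀ t, φ.Tr (asg t (kap (Order.succ (f i).1.card))) → y i ∉ t → t ⊆ s i := by
      by_contra hc
      rw [← Ultrafilter.eventually_not] at hc
      have h3 : ∀ i, ∃ t : ZFSet.{u}, (¬ ∀ t, φ.Tr (asg t (kap (Order.succ (f i).1.card))) →
          y i ∉ t → t ⊆ s i) → φ.Tr (asg t (kap (Order.succ (f i).1.card))) ∧ y i ∉ t ∧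
            ¬ t ⊆ s i := by
        intro i
        by_cases hi : ∀ t, φ.Tr (asg t (kap (Order.succ (f i).1.card))) → y i ∉ t → t ⊆ s i
        · exact ⟨∅, fun h => absurd hi h⟩
        · push Not at hi
          obtain ⟨t, ht⟩ := hi
          exact ⟨t, fun _ => ht⟩
      choose t ht using h3
      have h4 : ∀ᶠ i in (D : Filter I), φ.Tr (asg (t i) (kap (Order.succ (f i).1.card))) ∧
          y i ∉ t i ∧ ¬ t i ⊆ s i := hc.mono fun i hi => ht i hi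
      obtain ⟨Z, hZ⟩ := h.up hφ hr (h4.mono fun i hi => hi.1)
      have h5 : ¬ r Y Z := by
        intro hYZ
        have := (hZ.mem_iff hy).2 (mem_ini.2 ⟨Y.2, hYZ⟩)
        obtain ⟨i, hi1, hi2⟩ := (this.and h4).exists
        exact hi2.2.1 hi1
      have h6 : ini r Z ⊆ ini r Y := (ini_sub hr).2 h5
      have h7 := (coll_sub_iff hZ hs).1 h6
      obtain ⟨i, hi1, hi2⟩ := (h7.and h4).exists
      exact hi2.2.2 hi1
    exact h1.and h2
  have up_sub : ∀ {y : I → ZFSet.{u}}, (∀ᶠ i in (D : Filter I),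
      y i ⊆ kap (Order.succ (f i).1.card)) → ∃ Y : {x : ZFSet.{u} // x ⊆ kap (Order.succ δ)},
      Coll D y Y.1 := by
    intro y hy
    obtain ⟨Y, hY⟩ := h.tot y
    exact ⟨⟨Y, (coll_sub_iff hY h.succ).2 hy⟩, hY⟩
  -- the conditions one by one
  have c1 : ∀ᶠ i in (D : Filter I), ∀ s : ZFSet.{u},
      φ.Tr (asg s (kap (Order.succ (f i).1.card))) → ∀ x, x ∈ s →
        x ⊆ kap (Order.succ (f i).1.card) := by
    by_contra hc
    rw [← Ultrafilter.eventually_not] at hc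
    have h3 : ∀ i, ∃ s x : ZFSet.{u}, (¬ ∀ s : ZFSet.{u},
        φ.Tr (asg s (kap (Order.succ (f i).1.card))) → ∀ x, x ∈ s →
        x ⊆ kap (Order.succ (f i).1.card)) → φ.Tr (asg s (kap (Order.succ (f i).1.card))) ∧
          x ∈ s ∧ ¬ x ⊆ kap (Order.succ (f i).1.card) := by
      intro i
      by_cases hi : ∀ s : ZFSet.{u}, φ.Tr (asg s (kap (Order.succ (f i).1.card))) → ∀ x, x ∈ s →
        x ⊆ kap (Order.succ (f i).1.card)
      · exact ⟨∅, ∅, fun h => absurd hi h⟩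
      · push Not at hi
        obtain ⟨s, hs, x, hx⟩ := hi
        exact ⟨s, x, fun _ => ⟨hs, hx⟩⟩
    choose s x hsx using h3
    have h4 := hc.mono fun i hi => hsx i hi
    obtain ⟨Z, hZ⟩ := h.up hφ hr (h4.mono fun i hi => hi.1)
    obtain ⟨X, hX⟩ := h.tot x
    have h5 : X ∈ ini r Z := (hZ.mem_iff hX).1 (h4.mono fun i hi => hi.2.1)
    have h6 := (coll_sub_iff hX h.succ).1 (mem_ini.1 h5).1
    obtain ⟨i, hi1, hi2⟩ := (h6.and h4).exists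
    exact hi2.2.2 hi1
  have c3 : ∀ᶠ i in (D : Filter I), ∀ y : ZFSet.{u}, y ⊆ kap (Order.succ (f i).1.card) →
      ∃ s, φ.Tr (asg s (kap (Order.succ (f i).1.card))) ∧ y ∉ s ∧
      ∀ t, φ.Tr (asg t (kap (Order.succ (f i).1.card))) → y ∉ t → t ⊆ s := by
    by_contra hc
    rw [← Ultrafilter.eventually_not] at hc
    have h3 : ∀ i, ∃ y : ZFSet.{u}, (¬ ∀ y : ZFSet.{u}, y ⊆ kap (Order.succ (f i).1.card) →
        ∃ s, φ.Tr (asg s (kap (Order.succ (f i).1.card))) ∧ y ∉ s ∧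
        ∀ t, φ.Tr (asg t (kap (Order.succ (f i).1.card))) → y ∉ t → t ⊆ s) →
        y ⊆ kap (Order.succ (f i).1.card) ∧ ¬ ∃ s,
        φ.Tr (asg s (kap (Order.succ (f i).1.card))) ∧ y ∉ s ∧
        ∀ t, φ.Tr (asg t (kap (Order.succ (f i).1.card))) → y ∉ t → t ⊆ s := by
      intro i
      by_cases hi : ∀ y : ZFSet.{u}, y ⊆ kap (Order.succ (f i).1.card) →
        ∃ s, φ.Tr (asg s (kap (Order.succ (f i).1.card))) ∧ y ∉ s ∧
        ∀ t, φ.Tr (asg t (kap (Order.succ (f i).1.card))) → y ∉ t → t ⊆ s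
      · exact ⟨∅, fun h => absurd hi h⟩
      · rw [not_forall] at hi
        obtain ⟨y, hy⟩ := hi
        rw [Classical.not_imp] at hy
        exact ⟨y, fun _ => hy⟩
    choose y hy using h3
    have h4 := hc.mono fun i hi => hy i hi
    obtain ⟨Y, hY⟩ := up_sub (h4.mono fun i hi => hi.1)
    obtain ⟨s, hs, hs'⟩ := h.T0 hφ hM hr Y
    obtain ⟨i, hi1, hi2, hi3⟩ := (h4.and (hs'.and (mx s y Y hs hY))).exists
    exact hi1.2 ⟨s i, hi2, hi3⟩
  have c4 : ∀ᶠ i in (D : Filter I), ∀ s : ZFSet.{u},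
      φ.Tr (asg s (kap (Order.succ (f i).1.card))) → ∃ y, y ⊆ kap (Order.succ (f i).1.card) ∧
      y ∉ s ∧ ∀ t, φ.Tr (asg t (kap (Order.succ (f i).1.card))) → y ∉ t → t ⊆ s := by
    by_contra hc
    rw [← Ultrafilter.eventually_not] at hc
    have h3 : ∀ i, ∃ s : ZFSet.{u}, (¬ ∀ s : ZFSet.{u},
        φ.Tr (asg s (kap (Order.succ (f i).1.card))) → ∃ y, y ⊆ kap (Order.succ (f i).1.card) ∧
        y ∉ s ∧ ∀ t, φ.Tr (asg t (kap (Order.succ (f i).1.card))) → y ∉ t → t ⊆ s) →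
        φ.Tr (asg s (kap (Order.succ (f i).1.card))) ∧
        ¬ ∃ y, y ⊆ kap (Order.succ (f i).1.card) ∧
        y ∉ s ∧ ∀ t, φ.Tr (asg t (kap (Order.succ (f i).1.card))) → y ∉ t → t ⊆ s := by
      intro i
      by_cases hi : ∀ s : ZFSet.{u},
        φ.Tr (asg s (kap (Order.succ (f i).1.card))) → ∃ y, y ⊆ kap (Order.succ (f i).1.card) ∧
        y ∉ s ∧ ∀ t, φ.Tr (asg t (kap (Order.succ (f i).1.card))) → y ∉ t → t ⊆ s
      · exact ⟨∅, fun h => absurd hi h⟩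
      · rw [not_forall] at hi
        obtain ⟨s, hs⟩ := hi
        rw [Classical.not_imp] at hs
        exact ⟨s, fun _ => hs⟩
    choose s hs using h3
    have h4 := hc.mono fun i hi => hs i hi
    obtain ⟨Y, hY⟩ := h.up hφ hr (h4.mono fun i hi => hi.1)
    obtain ⟨y, hy⟩ := hM Y.1 Y.2
    obtain ⟨i, hi1, hi2, hi3⟩ := (h4.and ((mx s y Y hY hy).and
      ((coll_sub_iff hy h.succ).1 Y.2))).exists
    exact hi1.2 ⟨y i, hi3, hi2⟩
  have c5 : ∀ᶠ i in (D : Filter I), ∀ y y' : ZFSet.{u}, y ⊆ kap (Order.succ (f i).1.card) →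
      y' ⊆ kap (Order.succ (f i).1.card) → y ≠ y' → ∃ t,
      φ.Tr (asg t (kap (Order.succ (f i).1.card))) ∧ ((y ∈ t ∧ y' ∉ t) ∨ (y' ∈ t ∧ y ∉ t)) := by
    by_contra hc
    rw [← Ultrafilter.eventually_not] at hc
    have h3 : ∀ i, ∃ y y' : ZFSet.{u}, (¬ ∀ y y' : ZFSet.{u},
        y ⊆ kap (Order.succ (f i).1.card) → y' ⊆ kap (Order.succ (f i).1.card) → y ≠ y' → ∃ t,
        φ.Tr (asg t (kap (Order.succ (f i).1.card))) ∧
          ((y ∈ t ∧ y' ∉ t) ∨ (y' ∈ t ∧ y ∉ t))) →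
        y ⊆ kap (Order.succ (f i).1.card) ∧ y' ⊆ kap (Order.succ (f i).1.card) ∧ y ≠ y' ∧
        ¬ ∃ t, φ.Tr (asg t (kap (Order.succ (f i).1.card))) ∧
          ((y ∈ t ∧ y' ∉ t) ∨ (y' ∈ t ∧ y ∉ t)) := by
      intro i
      by_cases hi : ∀ y y' : ZFSet.{u},
        y ⊆ kap (Order.succ (f i).1.card) → y' ⊆ kap (Order.succ (f i).1.card) → y ≠ y' → ∃ t,
        φ.Tr (asg t (kap (Order.succ (f i).1.card))) ∧
          ((y ∈ t ∧ y' ∉ t) ∨ (y' ∈ t ∧ y ∉ t))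
      · exact ⟨∅, ∅, fun h => absurd hi h⟩
      · simp only [not_forall, Classical.not_imp] at hi
        obtain ⟨y, y', a, b, c, d⟩ := hi
        exact ⟨y, y', fun _ => ⟨a, b, c, d⟩⟩
    choose y y' hy using h3
    have h4 := hc.mono fun i hi => hy i hi
    obtain ⟨Y, hY⟩ := up_sub (h4.mono fun i hi => hi.1)
    obtain ⟨Y', hY'⟩ := up_sub (h4.mono fun i hi => hi.2.1)
    have hne : Y ≠ Y' := by
      intro hc'
      rw [← hc'] at hY'
      obtain ⟨i, hi1, hi2⟩ := ((hY.inj hY').and h4).exists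
      exact hi2.2.2.1 hi1
    have key : ∀ (Y Y' : {x : ZFSet.{u} // x ⊆ kap (Order.succ δ)}) (y y' : I → ZFSet.{u}),
        Coll D y Y.1 → Coll D y' Y'.1 → r Y Y' → ∀ᶠ i in (D : Filter I), ∃ t,
        φ.Tr (asg t (kap (Order.succ (f i).1.card))) ∧ y i ∈ t ∧ y' i ∉ t := by
      intro Y Y' y y' hY hY' hlt
      obtain ⟨t, ht, ht'⟩ := h.T0 hφ hM hr Y'
      have h5 := (ht.mem_iff hY).2 (mem_ini.2 ⟨Y.2, hlt⟩)
      filter_upwards [h5, ht', mx t y' Y' ht hY'] with i h6 h7 h8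
      exact ⟨t i, h7, h6, h8.1⟩
    rcases hr.tri Y Y' with h5 | h5 | h5
    · obtain ⟨i, ⟨t, ht1, ht2, ht3⟩, hi2⟩ := ((key Y Y' y y' hY hY' h5).and h4).exists
      exact hi2.2.2.2 ⟨t, ht1, Or.inl ⟨ht2, ht3⟩⟩
    · exact hne h5
    · obtain ⟨i, ⟨t, ht1, ht2, ht3⟩, hi2⟩ := ((key Y' Y y' y hY' hY h5).and h4).exists
      exact hi2.2.2.2 ⟨t, ht1, Or.inr ⟨ht2, ht3⟩⟩
  have c6 : ∀ᶠ i in (D : Filter I), ∀ y : ZFSet.{u}, y ⊆ kap (Order.succ (f i).1.card) →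
      ∃ t, φ.Tr (asg t (kap (Order.succ (f i).1.card))) ∧ y ∈ t := by
    by_contra hc
    rw [← Ultrafilter.eventually_not] at hc
    have h3 : ∀ i, ∃ y : ZFSet.{u}, (¬ ∀ y : ZFSet.{u}, y ⊆ kap (Order.succ (f i).1.card) →
        ∃ t, φ.Tr (asg t (kap (Order.succ (f i).1.card))) ∧ y ∈ t) →
        y ⊆ kap (Order.succ (f i).1.card) ∧
        ¬ ∃ t, φ.Tr (asg t (kap (Order.succ (f i).1.card))) ∧ y ∈ t := by
      intro i
      by_cases hi : ∀ y : ZFSet.{u}, y ⊆ kap (Order.succ (f i).1.card) →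
        ∃ t, φ.Tr (asg t (kap (Order.succ (f i).1.card))) ∧ y ∈ t
      · exact ⟨∅, fun h => absurd hi h⟩
      · rw [not_forall] at hi
        obtain ⟨y, hy⟩ := hi
        rw [Classical.not_imp] at hy
        exact ⟨y, fun _ => hy⟩
    choose y hy using h3
    have h4 := hc.mono fun i hi => hy i hi
    obtain ⟨Y, hY⟩ := up_sub (h4.mono fun i hi => hi.1)
    obtain ⟨Z, hZ⟩ := hr.noMax Y
    obtain ⟨t, ht, ht'⟩ := h.T0 hφ hM hr Z
    have h5 := (ht.mem_iff hY).2 (mem_ini.2 ⟨Y.2, hZ⟩)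
    obtain ⟨i, hi1, hi2, hi3⟩ := (h4.and (ht'.and h5)).exists
    exact hi1.2 ⟨t i, hi2, hi3⟩
  have c7 : ∀ᶠ i in (D : Filter I), ∀ A : ZFSet.{u}, (∃ x, x ∈ A) →
      (∀ x, x ∈ A → x ⊆ kap (Order.succ (f i).1.card)) → ∃ y, y ∈ A ∧
      ∀ z, z ∈ A → ∀ t, φ.Tr (asg t (kap (Order.succ (f i).1.card))) → z ∈ t → y ∈ t := by
    by_contra hc
    rw [← Ultrafilter.eventually_not] at hc
    have h3 : ∀ i, ∃ A : ZFSet.{u}, (¬ ∀ A : ZFSet.{u}, (∃ x, x ∈ A) →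
        (∀ x, x ∈ A → x ⊆ kap (Order.succ (f i).1.card)) → ∃ y, y ∈ A ∧
        ∀ z, z ∈ A → ∀ t, φ.Tr (asg t (kap (Order.succ (f i).1.card))) → z ∈ t → y ∈ t) →
        (∃ x, x ∈ A) ∧ (∀ x, x ∈ A → x ⊆ kap (Order.succ (f i).1.card)) ∧ ¬ ∃ y, y ∈ A ∧
        ∀ z, z ∈ A → ∀ t, φ.Tr (asg t (kap (Order.succ (f i).1.card))) → z ∈ t → y ∈ t := by
      intro i
      by_cases hi : ∀ A : ZFSet.{u}, (∃ x, x ∈ A) →
        (∀ x, x ∈ A → x ⊆ kap (Order.succ (f i).1.card)) → ∃ y, y ∈ A ∧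
        ∀ z, z ∈ A → ∀ t, φ.Tr (asg t (kap (Order.succ (f i).1.card))) → z ∈ t → y ∈ t
      · exact ⟨∅, fun h => absurd hi h⟩
      · simp only [not_forall, Classical.not_imp] at hi
        obtain ⟨A, a, b, c⟩ := hi
        exact ⟨A, fun _ => ⟨a, b, by simpa only [not_forall, Classical.not_imp] using c⟩⟩
    choose A hA using h3
    have h4 := hc.mono fun i hi => hA i hi
    obtain ⟨B, hB⟩ := h.tot A
    have hBsub : ∀ x, x ∈ B → x ⊆ kap (Order.succ δ) := by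
      intro x hx
      obtain ⟨k, hk, hkx⟩ := hB.snd hx
      refine (coll_sub_iff hkx h.succ).2 ?_
      filter_upwards [h4, hk] with i h5 h6 using h5.2.1 _ h6
    have hBne : ∃ x, x ∈ B := by
      have h5 : ∀ i, ∃ x : ZFSet.{u}, (∃ x, x ∈ A i) → x ∈ A i := by
        intro i
        by_cases hi : ∃ x, x ∈ A i
        · obtain ⟨x, hx⟩ := hi
          exact ⟨x, fun _ => hx⟩
        · exact ⟨∅, fun h => absurd h hi⟩
      choose x hx using h5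
      obtain ⟨X, hX, _⟩ := hB.fst (g := x) (h4.mono fun i hi => hx i hi.1)
      exact ⟨X, hX⟩
    have hwo := hr.wo
    have hwf : WellFounded r := IsWellFounded.wf
    have hne : {y : {x : ZFSet.{u} // x ⊆ kap (Order.succ δ)} | y.1 ∈ B}.Nonempty := by
      obtain ⟨x, hx⟩ := hBne
      exact ⟨⟨x, hBsub x hx⟩, hx⟩
    obtain ⟨Y, hYB, hmin⟩ : ∃ Y : {x : ZFSet.{u} // x ⊆ kap (Order.succ δ)}, Y.1 ∈ B ∧
        ∀ Z : {x : ZFSet.{u} // x ⊆ kap (Order.succ δ)}, Z.1 ∈ B → ¬ r Z Y :=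
      ⟨hwf.min _ hne, hwf.min_mem _ hne, fun Z hZ => hwf.not_lt_min _ hZ⟩
    obtain ⟨y, hyA, hy⟩ := hB.snd hYB
    have h5 : ∀ᶠ i in (D : Filter I), ¬ ∀ z, z ∈ A i → ∀ t,
        φ.Tr (asg t (kap (Order.succ (f i).1.card))) → z ∈ t → y i ∈ t := by
      filter_upwards [h4, hyA] with i h6 h7 h8
      exact h6.2.2 ⟨y i, h7, h8⟩
    have h6 : ∀ i, ∃ z t : ZFSet.{u}, (¬ ∀ z, z ∈ A i → ∀ t,
        φ.Tr (asg t (kap (Order.succ (f i).1.card))) → z ∈ t → y i ∈ t) →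
        z ∈ A i ∧ φ.Tr (asg t (kap (Order.succ (f i).1.card))) ∧ z ∈ t ∧ y i ∉ t := by
      intro i
      by_cases hi : ∀ z, z ∈ A i → ∀ t,
        φ.Tr (asg t (kap (Order.succ (f i).1.card))) → z ∈ t → y i ∈ t
      · exact ⟨∅, ∅, fun h => absurd hi h⟩
      · push Not at hi
        obtain ⟨z, hz, t, ht⟩ := hi
        exact ⟨z, t, fun _ => ⟨hz, ht⟩⟩
    choose z t hzt using h6
    have h7 := h5.mono fun i hi => hzt i hi
    obtain ⟨w, hw⟩ := h.up hφ hr (h7.mono fun i hi => hi.2.1)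
    obtain ⟨Z, hZ⟩ := h.tot z
    have hZB : Z ∈ B := (hB.mem_iff hZ).1 (h7.mono fun i hi => hi.1)
    have hZw : Z ∈ ini r w := (hw.mem_iff hZ).1 (h7.mono fun i hi => hi.2.2.1)
    obtain ⟨hZs, hZr⟩ := mem_ini.1 hZw
    have hYw : ¬ r Y w := by
      intro hc'
      have := (hw.mem_iff hy).2 (mem_ini.2 ⟨Y.2, hc'⟩)
      obtain ⟨i, hi1, hi2⟩ := (this.and h7).exists
      exact hi2.2.2.2 hi1
    rcases hr.tri Y w with h8 | h8 | h8
    · exact hYw h8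
    · rw [← h8] at hZr
      exact hmin ⟨Z, hZs⟩ hZB hZr
    · exact hmin ⟨Z, hZs⟩ hZB (hr.trans hZr h8)
  filter_upwards [c1, c3, c4, c5, c6, c7] with i h1 h3 h4 h5 h6 h7
  exact good_of h1 h3 h4 h5 h6 h7

end Pool.Agent.GWO
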