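import Pool.Agent.GWO.Push

/-! # Elementary embeddings of the universe into transitive classes -/

namespace Pool.Agent.GWO

open Pool.Agent.SingleUlt Function Filter Cardinal Ordinal

universe u w

/-- Tarskian satisfaction in the class `M` (quantifiers range over `M`) -/
def In (M : Set ZFSet.{u}) : Fml → (ℕ → ZFSet.{u}) → Prop
  | .mem i j, v => v i ∈ v j
  | .eq i j, v => v i = v j
  | .neg φ, v => ¬ In M φ v
  | .and φ ψ, v => In M φ v ∧ In M ψ v
  | .all i φ, v => ∀ a ∈ M, In M φ (update v i a)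

theorem in_univ (φ : Fml) : ∀ v : ℕ → ZFSet.{u}, In Set.univ φ v ↔ φ.Tr v := by
  induction φ with
  | mem i j => intro v; exact Iff.rfl
  | eq i j => intro v; exact Iff.rfl
  | neg φ ih => intro v; exact not_congr (ih v)
  | and φ ψ ih1 ih2 => intro v; exact and_congr (ih1 v) (ih2 v)
  | all i φ ih =>
    intro v
    show (∀ a ∈ Set.univ, In Set.univ φ (update v i a)) ↔ ∀ a, φ.Tr (update v i a)
    exact ⟨fun h a => (ih _).1 (h a (Set.mem_univ a)), fun h a _ => (ih _).2 (h a)⟩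

/-- `j` is an elementary embedding of the universe into the transitive class `M` -/
structure Elem (M : Set ZFSet.{u}) (j : ZFSet.{u} → ZFSet.{u}) : Prop where
  trans : ∀ x ∈ M, ∀ y, y ∈ x → y ∈ M
  into : ∀ x, j x ∈ M
  elem : ∀ (φ : Fml) (v : ℕ → ZFSet.{u}), φ.Tr v ↔ In M φ (fun n => j (v n))

/-! ## relations defined uniformly in all classes -/

/-- `M` is transitive -/
def Tra (M : Set ZFSet.{u}) : Prop := ∀ x ∈ M, ∀ y, y ∈ x → y ∈ M

/-- `R` is first-order definable, uniformly in all transitive classes -/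
def RDfn (n : ℕ) (R : Set ZFSet.{u} → (Fin n → ZFSet.{u}) → Prop) : Prop :=
  ∃ φ : Fml, ∀ (M : Set ZFSet.{u}), Tra M → ∀ (v : ℕ → ZFSet.{u}), (∀ m, v m ∈ M) →
    (In M φ v ↔ R M (fun i => v i))

variable {n : ℕ}

theorem RDfn.mem (i j : Fin n) : RDfn n (fun _ (v : Fin n → ZFSet.{u}) => v i ∈ v j) :=
  ⟨.mem i j, fun _ _ _ _ => Iff.rfl⟩

theorem RDfn.eq (i j : Fin n) : RDfn n (fun _ (v : Fin n → ZFSet.{u}) => v i = v j) :=
  ⟨.eq i j, fun _ _ _ _ => Iff.rfl⟩

theorem RDfn.not {R : Set ZFSet.{u} → (Fin n → ZFSet.{u}) → Prop} (h : RDfn n R) :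
    RDfn n (fun M v => ¬ R M v) := by
  obtain ⟨φ, hφ⟩ := h
  exact ⟨.neg φ, fun M hM v hv => not_congr (hφ M hM v hv)⟩

theorem RDfn.and {R S : Set ZFSet.{u} → (Fin n → ZFSet.{u}) → Prop} (h : RDfn n R)
    (h' : RDfn n S) : RDfn n (fun M v => R M v ∧ S M v) := by
  obtain ⟨φ, hφ⟩ := h
  obtain ⟨ψ, hψ⟩ := h'
  exact ⟨.and φ ψ, fun M hM v hv => and_congr (hφ M hM v hv) (hψ M hM v hv)⟩

theorem RDfn.congr {R S : Set ZFSet.{u} → (Fin n → ZFSet.{u}) → Prop} (h : RDfn n R)
    (h' : ∀ M v, Tra M → (∀ i, v i ∈ M) → (R M v ↔ S M v)) : RDfn n S := by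
  obtain ⟨φ, hφ⟩ := h
  exact ⟨φ, fun M hM v hv => (hφ M hM v hv).trans (h' M _ hM fun _ => hv _)⟩

theorem RDfn.or {R S : Set ZFSet.{u} → (Fin n → ZFSet.{u}) → Prop} (h : RDfn n R)
    (h' : RDfn n S) : RDfn n (fun M v => R M v ∨ S M v) :=
  (h.not.and h'.not).not.congr fun M v _ _ => by tauto

theorem RDfn.imp {R S : Set ZFSet.{u} → (Fin n → ZFSet.{u}) → Prop} (h : RDfn n R)
    (h' : RDfn n S) : RDfn n (fun M v => R M v → S M v) :=
  (h.not.or h').congr fun M v _ _ => by tauto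

theorem RDfn.iff {R S : Set ZFSet.{u} → (Fin n → ZFSet.{u}) → Prop} (h : RDfn n R)
    (h' : RDfn n S) : RDfn n (fun M v => (R M v ↔ S M v)) :=
  ((h.imp h').and (h'.imp h)).congr fun M v _ _ => by tauto

theorem RDfn.all {S : Set ZFSet.{u} → (Fin n → ZFSet.{u}) → ZFSet.{u} → Prop}
    (h : RDfn (n+1) (fun M v => S M (fun i => v i.castSucc) (v (Fin.last n)))) :
    RDfn n (fun M v => ∀ x ∈ M, S M v x) := by
  obtain ⟨φ, hφ⟩ := h
  refine ⟨.all n φ, fun M hM v hv => ?_⟩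
  show (∀ a ∈ M, In M φ (update v n a)) ↔ _
  refine forall₂_congr fun a ha => ?_
  rw [hφ _ hM _ (upd_mem hv ha)]
  have h1 : (fun i : Fin n => update v n a ((i.castSucc : Fin (n+1)) : ℕ)) =
      fun i : Fin n => v i := by
    funext i
    have : ((i.castSucc : Fin (n+1)) : ℕ) ≠ n := by
      rw [Fin.val_castSucc]; exact Nat.ne_of_lt i.2
    rw [update_of_ne this, Fin.val_castSucc]
  have h2 : update v n a ((Fin.last n : Fin (n+1)) : ℕ) = a := by
    rw [Fin.val_last, update_self]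
  show S M (fun i : Fin n => update v n a ((i.castSucc : Fin (n+1)) : ℕ))
    (update v n a ((Fin.last n : Fin (n+1)) : ℕ)) ↔ _
  rw [h1, h2]

theorem RDfn.ex {S : Set ZFSet.{u} → (Fin n → ZFSet.{u}) → ZFSet.{u} → Prop}
    (h : RDfn (n+1) (fun M v => S M (fun i => v i.castSucc) (v (Fin.last n)))) :
    RDfn n (fun M v => ∃ x ∈ M, S M v x) :=
  (RDfn.all (S := fun M v x => ¬ S M v x) h.not).not.congr fun M v _ _ => by
    push Not; rfl

theorem RDfn.sub (i j : Fin n) : RDfn n (fun _ (v : Fin n → ZFSet.{u}) => v i ⊆ v j) :=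
  (RDfn.all (S := fun _ v x => x ∈ v i → x ∈ v j) ((RDfn.mem _ _).imp (RDfn.mem _ _))).congr
    fun _ _ hM hv => ⟨fun h x hx => h x (hM _ (hv _) x hx) hx, fun h _ _ hx => h hx⟩

/-- `v p = {v a}` -/
theorem RDfn.sing (p a : Fin n) : RDfn n (fun _ (v : Fin n → ZFSet.{u}) => v p = {v a}) :=
  (RDfn.all (S := fun _ v x => x ∈ v p ↔ x = v a) ((RDfn.mem _ _).iff (RDfn.eq _ _))).congr
    fun M v hM hv => by
    constructor
    · intro h
      ext x
      rw [ZFSet.mem_singleton]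
      exact ⟨fun hx => (h x (hM _ (hv _) x hx)).1 hx, fun hx => (h x (hx ▸ hv _)).2 hx⟩
    · intro h x _
      rw [h, ZFSet.mem_singleton]

theorem RDfn.upair (p a b : Fin n) :
    RDfn n (fun _ (v : Fin n → ZFSet.{u}) => v p = {v a, v b}) :=
  (RDfn.all (S := fun _ v x => x ∈ v p ↔ (x = v a ∨ x = v b))
    ((RDfn.mem _ _).iff ((RDfn.eq _ _).or (RDfn.eq _ _)))).congr fun M v hM hv => by
    constructor
    · intro h
      ext x
      rw [ZFSet.mem_pair]
      refine ⟨fun hx => (h x (hM _ (hv _) x hx)).1 hx, fun hx => (h x ?_).2 hx⟩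
      rcases hx with rfl | rfl
      · exact hv _
      · exact hv _
    · intro h x _
      rw [h, ZFSet.mem_pair]

theorem RDfn.pair (p a b : Fin n) :
    RDfn n (fun _ (v : Fin n → ZFSet.{u}) => v p = ZFSet.pair (v a) (v b)) :=
  ((RDfn.all (S := fun _ v x => x ∈ v p → (x = {v a} ∨ x = {v a, v b}))
    ((RDfn.mem _ _).imp ((RDfn.sing _ _).or (RDfn.upair _ _ _)))).and
   ((RDfn.ex (S := fun _ v x => x ∈ v p ∧ x = {v a}) ((RDfn.mem _ _).and (RDfn.sing _ _))).and
    (RDfn.ex (S := fun _ v x => x ∈ v p ∧ x = {v a, v b})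
      ((RDfn.mem _ _).and (RDfn.upair _ _ _))))).congr fun M v hM hv => by
    constructor
    · rintro ⟨h1, ⟨x, _, hx, hx'⟩, ⟨y, _, hy, hy'⟩⟩
      subst hx' hy'
      ext z
      rw [ZFSet.pair, ZFSet.mem_pair]
      constructor
      · intro hz; exact h1 z (hM _ (hv _) z hz) hz
      · rintro (rfl | rfl)
        · exact hx
        · exact hy
    · intro h
      have h1 : ({v a} : ZFSet.{u}) ∈ v p := by rw [h, ZFSet.pair, ZFSet.mem_pair]; exact Or.inl rfl
      have h2 : ({v a, v b} : ZFSet.{u}) ∈ v p := by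
        rw [h, ZFSet.pair, ZFSet.mem_pair]; exact Or.inr rfl
      refine ⟨fun x _ hx => ?_, ⟨_, hM _ (hv _) _ h1, h1, rfl⟩, ⟨_, hM _ (hv _) _ h2, h2, rfl⟩⟩
      rw [h, ZFSet.pair, ZFSet.mem_pair] at hx
      exact hx

theorem RDfn.pairMem (a b f : Fin n) :
    RDfn n (fun _ (v : Fin n → ZFSet.{u}) => ZFSet.pair (v a) (v b) ∈ v f) :=
  (RDfn.ex (S := fun _ v x => x ∈ v f ∧ x = ZFSet.pair (v a) (v b))
    ((RDfn.mem _ _).and (RDfn.pair _ _ _))).congr fun M v hM hv => by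
    constructor
    · rintro ⟨x, _, hx, rfl⟩; exact hx
    · intro h; exact ⟨_, hM _ (hv _) _ h, h, rfl⟩

/-! ## the relation `φ(s, p)` -/

theorem in_congr (φ : Fml) (M : Set ZFSet.{u}) : ∀ v v' : ℕ → ZFSet.{u},
    (∀ n, n < bd φ → v n = v' n) → (In M φ v ↔ In M φ v') := by
  induction φ with
  | mem i j =>
    intro v v' h
    show v i ∈ v j ↔ v' i ∈ v' j
    rw [h i (by simp [bd]), h j (by simp [bd])]
  | eq i j =>
    intro v v' h
    show v i = v j ↔ v' i = v' j
    rw [h i (by simp [bd]), h j (by simp [bd])]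
  | neg φ ih => intro v v' h; exact not_congr (ih v v' h)
  | and φ ψ ih1 ih2 =>
    intro v v' h
    exact and_congr (ih1 v v' fun n hn => h n (lt_of_lt_of_le hn (le_max_left _ _)))
      (ih2 v v' fun n hn => h n (lt_of_lt_of_le hn (le_max_right _ _)))
  | all i φ ih =>
    intro v v' h
    refine forall₂_congr fun a _ => ih _ _ fun n hn => ?_
    by_cases hni : n = i
    · subst hni; simp
    · rw [update_of_ne hni, update_of_ne hni]; exact h n hn

theorem in_ren {ρ : ℕ → ℕ} (hρ : Injective ρ) (M : Set ZFSet.{u}) (φ : Fml) :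
    ∀ v : ℕ → ZFSet.{u}, In M (ren ρ φ) v ↔ In M φ (v ∘ ρ) := by
  induction φ with
  | mem i j => intro v; exact Iff.rfl
  | eq i j => intro v; exact Iff.rfl
  | neg φ ih => intro v; exact not_congr (ih v)
  | and φ ψ ih1 ih2 => intro v; exact and_congr (ih1 v) (ih2 v)
  | all i φ ih =>
    intro v
    refine forall₂_congr fun a _ => ?_
    rw [ih, update_comp_eq_of_injective _ hρ]

/-- the same as `setv`, with a bounded quantifier in mind: `∀ x_k (x_k = x_a → ψ)` -/
theorem in_setv {k a : ℕ} (h : k ≠ a) (ψ : Fml) (M : Set ZFSet.{u}) (v : ℕ → ZFSet.{u})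
    (ha : v a ∈ M) : In M (setv k a ψ) v ↔ In M ψ (update v k (v a)) := by
  show (¬ ∀ b ∈ M, ¬ (update v k b k = update v k b a ∧ In M ψ (update v k b))) ↔ _
  constructor
  · intro hh
    push Not at hh
    obtain ⟨b, _, hb1, hb2⟩ := hh
    rw [update_self, update_of_ne h.symm] at hb1
    rw [← hb1]; exact hb2
  · intro hh hc
    exact hc (v a) ha ⟨by rw [update_self, update_of_ne h.symm], hh⟩

theorem in_setAll {N i j : ℕ} (hi : i < N) (hj : j < N) (M : Set ZFSet.{u}) : ∀ (m : ℕ) (ψ : Fml)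
    (v : ℕ → ZFSet.{u}), v i ∈ M → v j ∈ M → (In M (setAll N i j m ψ) v ↔
      In M ψ (fun n => if N ≤ n ∧ n < N + m then asg (v i) (v j) (n - N) else v n)) := by
  intro m
  induction m with
  | zero =>
    intro ψ v _ _
    have : (fun n => if N ≤ n ∧ n < N + 0 then asg (v i) (v j) (n - N) else v n) = v := by
      funext n
      rw [if_neg (by omega)]
    rw [this]; rfl
  | succ m ih =>
    intro ψ v hvi hvj
    show In M (setAll N i j m (setv (N+m) (if m = 0 then i else j) ψ)) v ↔ _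
    have ha : (if m = 0 then i else j) < N := by split_ifs <;> assumption
    have hneg : ¬ ((N ≤ if m = 0 then i else j) ∧ (if m = 0 then i else j) < N + m) := by omega
    rw [ih _ _ hvi hvj, in_setv (by omega)]
    · simp only [if_neg hneg]
      have : update (fun n => if N ≤ n ∧ n < N + m then asg (v i) (v j) (n - N) else v n) (N+m)
          (v (if m = 0 then i else j)) =
          (fun n => if N ≤ n ∧ n < N + (m+1) then asg (v i) (v j) (n - N) else v n) := by
        funext n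
        by_cases hn : n = N + m
        · subst hn
          have hpos : N ≤ N + m ∧ N + m < N + (m + 1) := by omega
          rw [update_self, if_pos hpos, Nat.add_sub_cancel_left]
          unfold asg
          split_ifs <;> rfl
        · rw [update_of_ne hn]
          by_cases h1 : N ≤ n ∧ n < N + m
          · rw [if_pos h1, if_pos (by omega)]
          · rw [if_neg h1, if_neg (by omega)]
      rw [this]
    · simp only [if_neg hneg]
      split_ifs <;> assumption

theorem RDfn.asg (φ : Fml) {n : ℕ} (i j : Fin n) :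
    RDfn n (fun M (v : Fin n → ZFSet.{u}) => In M φ (asg (v i) (v j))) := by
  refine ⟨setAll n i j (bd φ) (ren (fun m => n + m) φ), fun M _ v hv => ?_⟩
  rw [in_setAll i.2 j.2 M _ _ _ (hv _) (hv _), in_ren (fun a b h => by simpa using h)]
  refine in_congr φ M _ _ fun m hm => ?_
  show (if n ≤ n + m ∧ n + m < n + bd φ then GWO.asg (v i) (v j) (n + m - n) else v (n + m)) =
    GWO.asg (v i) (v j) m
  rw [if_pos (by omega)]
  congr 1
  omega

/-- transfer along an elementary embedding -/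
theorem Elem.transfer {M : Set ZFSet.{u}} {j : ZFSet.{u} → ZFSet.{u}} (h : Elem M j) {n : ℕ}
    {R : Set ZFSet.{u} → (Fin n → ZFSet.{u}) → Prop} (hR : RDfn n R) (v : Fin n → ZFSet.{u}) :
    R Set.univ v ↔ R M (fun i => j (v i)) := by
  obtain ⟨φ, hφ⟩ := hR
  let w : ℕ → ZFSet.{u} := fun k => if hk : k < n then v ⟨k, hk⟩ else ∅
  have hw : (fun i : Fin n => w i) = v := by
    funext i
    show (if hk : (i : ℕ) < n then v ⟨i, hk⟩ else ∅) = v i
    rw [dif_pos i.2]
  have h1 := hφ Set.univ (fun _ _ _ _ => Set.mem_univ _) w (fun _ => Set.mem_univ _)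
  have h2 := hφ M h.trans (fun k => j (w k)) (fun _ => h.into _)
  rw [hw, in_univ] at h1
  rw [← h1, h.elem φ w, h2]
  have h3 : (fun i : Fin n => j (w i)) = fun i : Fin n => j (v i) := by
    funext i
    exact congrArg j (congrFun hw i)
  rw [h3]

/-! ## absoluteness -/

theorem in_ball {i j : ℕ} (hij : i ≠ j) (φ : Fml) (M : Set ZFSet.{u}) (v : ℕ → ZFSet.{u}) :
    In M (ball i j φ) v ↔ ∀ a ∈ M, a ∈ v j → In M φ (update v i a) := by
  show (∀ a ∈ M, ¬ (update v i a i ∈ update v i a j ∧ ¬ In M φ (update v i a))) ↔ _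
  refine forall₂_congr fun a _ => ?_
  rw [update_self, update_of_ne hij.symm]
  tauto

theorem in_ex (i : ℕ) (φ : Fml) (M : Set ZFSet.{u}) (v : ℕ → ZFSet.{u}) :
    In M (ex i φ) v ↔ ∃ a ∈ M, In M φ (update v i a) := by
  show (¬ ∀ a ∈ M, ¬ In M φ (update v i a)) ↔ _
  push Not
  rfl

theorem delta0_abs {M : Set ZFSet.{u}} (hM : ∀ x ∈ M, ∀ y, y ∈ x → y ∈ M) {φ : Fml}
    (hφ : Delta0 φ) : ∀ v : ℕ → ZFSet.{u}, (∀ n, v n ∈ M) → (In M φ v ↔ φ.Tr v) := by
  induction hφ with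
  | mem i j => intro v _; exact Iff.rfl
  | eq i j => intro v _; exact Iff.rfl
  | neg _ ih => intro v hv; exact not_congr (ih v hv)
  | and _ _ ih1 ih2 => intro v hv; exact and_congr (ih1 v hv) (ih2 v hv)
  | @ball i j φ hij _ ih =>
    intro v hv
    rw [in_ball hij, tr_ball hij]
    constructor
    · intro H a ha
      have haM := hM _ (hv j) a ha
      exact (ih _ (upd_mem hv haM)).1 (H a haM ha)
    · intro H a haM ha
      exact (ih _ (upd_mem hv haM)).2 (H a ha)

theorem sigma1_abs {M : Set ZFSet.{u}} (hM : ∀ x ∈ M, ∀ y, y ∈ x → y ∈ M) {φ : Fml}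
    (hφ : Sigma1 φ) : ∀ v : ℕ → ZFSet.{u}, (∀ n, v n ∈ M) → In M φ v → φ.Tr v := by
  induction hφ with
  | base h0 => intro v hv; exact (delta0_abs hM h0 v hv).1
  | @ex k φ _ ih =>
    intro v hv h
    rw [in_ex] at h
    obtain ⟨a, haM, ha⟩ := h
    exact (tr_ex _ _ _).2 ⟨a, ih _ (upd_mem hv haM) ha⟩

theorem sigma1_witM {φ : Fml} (hφ : Sigma1 φ) : ∀ v : ℕ → ZFSet.{u}, φ.Tr v →
    ∃ W : List ZFSet.{u}, ∀ X : Set ZFSet.{u}, Closed X → (∀ n, v n ∈ X) → (∀ x ∈ W, x ∈ X) →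
      ∀ M : Set ZFSet.{u}, (∀ x ∈ M, ∀ y, y ∈ x → y ∈ M) → (∀ x ∈ X, mos X x ∈ M) →
        In M φ (fun n => mos X (v n)) := by
  induction hφ with
  | base h0 =>
    intro v hv
    refine ⟨[], fun X hX hvX _ M hM hXM => ?_⟩
    exact (delta0_abs hM h0 _ (fun n => hXM _ (hvX n))).2 ((delta0_mos hX h0 v hvX).2 hv)
  | @ex k φ _ ih =>
    intro v hv
    rw [tr_ex] at hv
    obtain ⟨a, ha⟩ := hv
    obtain ⟨W, hW⟩ := ih _ ha
    refine ⟨a :: W, fun X hX hvX hWX M hM hXM => ?_⟩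
    have haX : a ∈ X := hWX a (by simp)
    have h1 := hW X hX (upd_mem hvX haX) (fun x hx => hWX x (by simp [hx])) M hM hXM
    rw [mos_update] at h1
    exact (in_ex _ _ _ _).2 ⟨_, hXM a haX, h1⟩

end Pool.Agent.GWO
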