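import Pool.Agent.GWO.Basic

/-! # Small hulls and witnesses of `Σ₁` formulas -/

namespace Pool.Agent.GWO

open Pool.Agent.SingleUlt Function Filter Cardinal

universe u w

deriving instance Encodable for Fml

/-- a bound for the variables of a formula -/
def bd : Fml → ℕ
  | .mem i j => max (i+1) (j+1)
  | .eq i j => max (i+1) (j+1)
  | .neg φ => bd φ
  | .and φ ψ => max (bd φ) (bd ψ)
  | .all _ φ => bd φ

theorem tr_congr (φ : Fml) : ∀ v v' : ℕ → ZFSet.{u}, (∀ n, n < bd φ → v n = v' n) →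
    (φ.Tr v ↔ φ.Tr v') := by
  induction φ with
  | mem i j =>
    intro v v' h
    show v i ∈ v j ↔ v' i ∈ v' j
    rw [h i (by simp [bd]), h j (by simp [bd])]
  | eq i j =>
    intro v v' h
    show v i = v j ↔ v' i = v' j
    rw [h i (by simp [bd]), h j (by simp [bd])]
  | neg φ ih => intro v v' h; exact not_congr (ih v v' h)
  | and φ ψ ih1 ih2 =>
    intro v v' h
    exact and_congr (ih1 v v' fun n hn => h n (lt_of_lt_of_le hn (le_max_left _ _)))
      (ih2 v v' fun n hn => h n (lt_of_lt_of_le hn (le_max_right _ _)))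
  | all i φ ih =>
    intro v v' h
    refine forall_congr' fun a => ih _ _ fun n hn => ?_
    by_cases hni : n = i
    · subst hni; simp
    · rw [update_of_ne hni, update_of_ne hni]; exact h n hn

open Classical in
/-- Skolem functions -/
noncomputable def sk (q : Fml × ℕ × ℕ) (l : List ZFSet.{u}) : ZFSet.{u} :=
  if h : ∃ a, a ∈ l.getD q.2.2 ∅ ∧ q.1.Tr (update (fun n => l.getD n ∅) q.2.1 a) then h.choose
  else ∅

theorem sk_spec {q : Fml × ℕ × ℕ} {l : List ZFSet.{u}}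
    (h : ∃ a, a ∈ l.getD q.2.2 ∅ ∧ q.1.Tr (update (fun n => l.getD n ∅) q.2.1 a)) :
    sk q l ∈ l.getD q.2.2 ∅ ∧ q.1.Tr (update (fun n => l.getD n ∅) q.2.1 (sk q l)) := by
  unfold sk
  rw [dif_pos h]
  exact h.choose_spec

/-- one closure step -/
def step (X : Set ZFSet.{u}) : Set ZFSet.{u} :=
  X ∪ Set.range fun ql : (Fml × ℕ × ℕ) × List X => sk ql.1 (ql.2.map Subtype.val)

theorem card_step {X : Set ZFSet.{u}} {c : Cardinal.{u+1}} (hc : ℵ₀ ≤ c) (hX : #X ≤ c) :
    #(step X) ≤ c := by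
  refine (mk_union_le _ _).trans ?_
  have h1 : #(Set.range fun ql : (Fml × ℕ × ℕ) × List X => sk ql.1 (ql.2.map Subtype.val)) ≤ c := by
    refine (mk_range_le).trans ?_
    rw [mk_prod]
    have h2 : Cardinal.lift.{u+1} #(Fml × ℕ × ℕ) ≤ c := by
      refine le_trans ?_ hc
      rw [Cardinal.lift_le_aleph0]
      exact mk_le_aleph0
    have h3 : Cardinal.lift.{0} #(List X) ≤ c := by
      rw [Cardinal.lift_id'.{0}]
      exact (mk_list_le_max X).trans (max_le hc hX)
    exact (mul_le_mul' h2 h3).trans (mul_eq_self hc).le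
  exact (add_le_add hX h1).trans (add_eq_self hc).le

/-- the hull -/
def hull (X : Set ZFSet.{u}) : Set ZFSet.{u} := ⋃ n : ℕ, step^[n] X

theorem subset_hull (X : Set ZFSet.{u}) : X ⊆ hull X := fun _ hx =>
  Set.mem_iUnion.2 ⟨0, hx⟩

theorem card_hull {X : Set ZFSet.{u}} {c : Cardinal.{u+1}} (hc : ℵ₀ ≤ c) (hX : #X ≤ c) :
    #(hull X) ≤ c := by
  have h1 : ∀ n : ℕ, #(step^[n] X : Set ZFSet.{u}) ≤ c := by
    intro n
    induction n with
    | zero => exact hX
    | succ n ih => rw [iterate_succ_apply']; exact card_step hc ih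
  have h2 : #(hull X) ≤ #(Σ n : ℕ, (step^[n] X : Set ZFSet.{u})) := by
    refine mk_le_of_surjective (f := fun p : (Σ n : ℕ, (step^[n] X : Set ZFSet.{u})) =>
      (⟨p.2.1, Set.mem_iUnion.2 ⟨p.1, p.2.2⟩⟩ : hull X)) ?_
    rintro ⟨x, hx⟩
    obtain ⟨n, hn⟩ := Set.mem_iUnion.1 hx
    exact ⟨⟨n, ⟨x, hn⟩⟩, rfl⟩
  refine h2.trans ?_
  rw [mk_sigma]
  refine (sum_le_sum _ (fun _ : ℕ => c) h1).trans ?_
  rw [sum_const, Cardinal.lift_id'.{0}]
  refine (mul_le_mul' ?_ le_rfl).trans (mul_eq_self hc).le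
  rw [mk_nat, Cardinal.lift_aleph0]
  exact hc

theorem hull_closed {X : Set ZFSet.{u}} : Closed (hull X) := by
  intro φ v i j hv hex
  have hmono : ∀ n m : ℕ, n ≤ m → step^[n] X ⊆ step^[m] X := by
    intro n m h
    induction m, h using Nat.le_induction with
    | base => exact subset_rfl
    | succ m _ ih =>
      rw [iterate_succ_apply']
      exact ih.trans Set.subset_union_left
  set N := max (bd φ) (max (i+1) (j+1)) with hN
  have h1 : ∃ m, ∀ n, n < N → v n ∈ step^[m] X := by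
    have h2 : ∀ n, ∃ m, v n ∈ step^[m] X := fun n => Set.mem_iUnion.1 (hv n)
    choose m hm using h2
    refine ⟨(Finset.range N).sup m, fun n hn => ?_⟩
    exact hmono _ _ (Finset.le_sup (f := m) (Finset.mem_range.2 hn)) (hm n)
  obtain ⟨m, hm⟩ := h1
  let l : List (step^[m] X) := List.ofFn fun n : Fin N => ⟨v n, hm n n.2⟩
  set l' : List ZFSet.{u} := l.map Subtype.val with hl'
  have hl : ∀ n, n < N → l'.getD n ∅ = v n := by
    intro n hn
    have h3 : n < l'.length := by simp [hl', l, hn]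
    rw [List.getD_eq_getElem _ _ h3]
    simp [hl', l]
  have hj : j < N := lt_of_lt_of_le (Nat.lt_succ_self j) ((le_max_right _ _).trans (le_max_right _ _))
  have hcg : ∀ a, φ.Tr (update (fun n => l'.getD n ∅) i a) ↔ φ.Tr (update v i a) := by
    intro a
    refine tr_congr φ _ _ fun n hn => ?_
    by_cases hni : n = i
    · subst hni; simp
    · rw [update_of_ne hni, update_of_ne hni]
      exact hl n (lt_of_lt_of_le hn (le_max_left _ _))
  have hex' : ∃ a, a ∈ l'.getD j ∅ ∧ φ.Tr (update (fun n => l'.getD n ∅) i a) := by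
    obtain ⟨a, ha, ha'⟩ := hex
    exact ⟨a, by rw [hl j hj]; exact ha, (hcg a).2 ha'⟩
  have hsp := sk_spec (q := (φ, i, j)) hex'
  refine ⟨sk (φ, i, j) l', ?_, ?_, ?_⟩
  · refine Set.mem_iUnion.2 ⟨m+1, ?_⟩
    rw [iterate_succ_apply']
    exact Or.inr ⟨((φ, i, j), l), rfl⟩
  · rw [← hl j hj]; exact hsp.1
  · exact (hcg _).1 hsp.2

/-- witnesses for `Σ₁` formulas in small models -/
theorem sigma1_wit {φ : Fml} (hφ : Sigma1 φ) : ∀ v : ℕ → ZFSet.{u}, φ.Tr v →
    ∃ W : List ZFSet.{u}, ∀ X : Set ZFSet.{u}, Closed X → (∀ n, v n ∈ X) → (∀ x ∈ W, x ∈ X) →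
      φ.Tr (fun n => mos X (v n)) ∧
      ∀ {I : Type w} (D : Ultrafilter I), (∀ x ∈ X, ∃ g : I → ZFSet.{u}, Coll D g (mos X x)) →
        ∀ F : ℕ → I → ZFSet.{u}, (∀ n, Coll D (F n) (mos X (v n))) →
          ∀ᶠ i in (D : Filter I), φ.Tr (fun n => F n i) := by
  induction hφ with
  | base h0 =>
    intro v hv
    refine ⟨[], fun X hX hvX _ => ?_⟩
    have h1 := (delta0_mos hX h0 v hvX).2 hv
    exact ⟨h1, fun D _ F hF => (delta0_coll h0 F _ hF).1 h1⟩
  | @ex k φ _ ih =>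
    intro v hv
    rw [tr_ex] at hv
    obtain ⟨a, ha⟩ := hv
    obtain ⟨W, hW⟩ := ih _ ha
    refine ⟨a :: W, fun X hX hvX hWX => ?_⟩
    have haX : a ∈ X := hWX a (by simp)
    obtain ⟨h1, h2⟩ := hW X hX (upd_mem hvX haX) (fun x hx => hWX x (by simp [hx]))
    rw [mos_update] at h1
    refine ⟨(tr_ex _ _ _).2 ⟨_, h1⟩, fun D hD F hF => ?_⟩
    obtain ⟨g, hg⟩ := hD a haX
    have h3 := h2 D hD (update F k g) (fun n => by
      have := upd hF hg (k := k) n
      rw [← mos_update] at this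
      exact this)
    filter_upwards [h3] with i hi
    rw [updF] at hi
    exact (tr_ex _ _ _).2 ⟨_, hi⟩

end Pool.Agent.GWO
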