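import Pool.Agent.GWO.Hull

/-! # Initial segments of good wellorderings are small -/

namespace Pool.Agent.GWO

open Pool.Agent.SingleUlt Function Filter Cardinal Ordinal

universe u w

/-- the relation `r` witnesses `GoodWO φ p` -/
structure IsGood (φ : Fml) (p : ZFSet.{u})
    (r : {x : ZFSet.{u} // x ⊆ p} → {x : ZFSet.{u} // x ⊆ p} → Prop) : Prop where
  wo : IsWellOrder _ r
  noMax : ∀ y, ∃ z, r y z
  def_iff : ∀ s : ZFSet.{u}, φ.Tr (asg s p) ↔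
      ∃ y : {x : ZFSet.{u} // x ⊆ p}, ∀ x : ZFSet.{u}, x ∈ s ↔ ∃ h : x ⊆ p, r ⟨x, h⟩ y

theorem goodWO_iff {φ : Fml} {p : ZFSet.{u}} : GoodWO φ p ↔ ∃ r, IsGood φ p r :=
  ⟨fun ⟨r, h1, h2, h3⟩ => ⟨r, h1, h2, h3⟩, fun ⟨r, h⟩ => ⟨r, h.1, h.2, h.3⟩⟩

open Classical in
/-- the proper initial segment determined by `y` -/
noncomputable def ini {p : ZFSet.{u}}
    (r : {x : ZFSet.{u} // x ⊆ p} → {x : ZFSet.{u} // x ⊆ p} → Prop)
    (y : {x : ZFSet.{u} // x ⊆ p}) : ZFSet.{u} :=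
  ZFSet.sep (fun x => ∃ h : x ⊆ p, r ⟨x, h⟩ y) p.powerset

theorem mem_ini {p : ZFSet.{u}} {r : {x : ZFSet.{u} // x ⊆ p} → {x : ZFSet.{u} // x ⊆ p} → Prop}
    {y : {x : ZFSet.{u} // x ⊆ p}} {x : ZFSet.{u}} :
    x ∈ ini r y ↔ ∃ h : x ⊆ p, r ⟨x, h⟩ y := by
  unfold ini
  rw [ZFSet.mem_sep, ZFSet.mem_powerset]
  exact ⟨fun h => h.2, fun h => ⟨h.1, h⟩⟩

theorem IsGood.trans {φ : Fml} {p : ZFSet.{u}}
    {r : {x : ZFSet.{u} // x ⊆ p} → {x : ZFSet.{u} // x ⊆ p} → Prop} (h : IsGood φ p r)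
    {a b c : {x : ZFSet.{u} // x ⊆ p}} (h1 : r a b) (h2 : r b c) : r a c := by
  have := h.wo
  exact _root_.trans h1 h2

theorem IsGood.irrefl {φ : Fml} {p : ZFSet.{u}}
    {r : {x : ZFSet.{u} // x ⊆ p} → {x : ZFSet.{u} // x ⊆ p} → Prop} (h : IsGood φ p r)
    {a : {x : ZFSet.{u} // x ⊆ p}} (h1 : r a a) : False := by
  have := h.wo
  exact irrefl_of r a h1

theorem IsGood.tri {φ : Fml} {p : ZFSet.{u}}
    {r : {x : ZFSet.{u} // x ⊆ p} → {x : ZFSet.{u} // x ⊆ p} → Prop} (h : IsGood φ p r)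
    (a b : {x : ZFSet.{u} // x ⊆ p}) : r a b ∨ a = b ∨ r b a := by
  have := h.wo
  exact trichotomous_of r a b

theorem IsGood.tr_ini {φ : Fml} {p : ZFSet.{u}}
    {r : {x : ZFSet.{u} // x ⊆ p} → {x : ZFSet.{u} // x ⊆ p} → Prop} (h : IsGood φ p r)
    (y : {x : ZFSet.{u} // x ⊆ p}) : φ.Tr (asg (ini r y) p) :=
  (h.def_iff _).2 ⟨y, fun _ => mem_ini⟩

theorem mem_kap {κ : Cardinal.{u}} {x : ZFSet.{u}} : x ∈ kap κ ↔ ∃ c : Idx κ, o c = x := by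
  rw [Ordinal.mem_toZFSet_iff]
  exact ⟨fun ⟨a, ha, h⟩ => ⟨⟨a, ha⟩, h⟩, fun ⟨c, h⟩ => ⟨c.1, c.2, h⟩⟩

theorem mos_fix {κ : Cardinal.{u}} {X : Set ZFSet.{u}} (hX : ∀ a, a ∈ kap κ → a ∈ X)
    {a : ZFSet.{u}} (ha : a ∈ kap κ) : mos X a = a := by
  induction a using ZFSet.inductionOn with
  | _ a ih =>
    refine mos_eq_self fun y hy => ?_
    have hy' : y ∈ kap κ := (ZFSet.isOrdinal_toZFSet _).mem_trans hy ha
    exact ⟨hX y hy', ih y hy hy'⟩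

theorem mos_fix_sub {κ : Cardinal.{u}} {X : Set ZFSet.{u}} (hX : ∀ a, a ∈ kap κ → a ∈ X)
    {a : ZFSet.{u}} (ha : a ⊆ kap κ) : mos X a = a :=
  mos_eq_self fun _ hy => ⟨hX _ (ha hy), mos_fix hX (ha hy)⟩

theorem asg_mem {X : Set ZFSet.{u}} {s p : ZFSet.{u}} (hs : s ∈ X) (hp : p ∈ X) (n : ℕ) :
    asg s p n ∈ X := by
  unfold asg; split_ifs <;> assumption

theorem mos_asg {X : Set ZFSet.{u}} {s p : ZFSet.{u}} (hp : mos X p = p) :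
    (fun n => mos X (asg s p n)) = asg (mos X s) p := by
  funext n
  unfold asg; split_ifs <;> simp [hp]

/-- a small closed set containing given ones -/
theorem exists_hull {c : Cardinal.{u}} (hc : ℵ₀ ≤ c) (S : Set ZFSet.{u})
    (hS : #S ≤ Cardinal.lift.{u+1} c) (W : List ZFSet.{u}) :
    ∃ X : Set ZFSet.{u}, Closed X ∧ #X ≤ Cardinal.lift.{u+1} c ∧ (∀ a, a ∈ kap c → a ∈ X) ∧
      S ⊆ X ∧ (∀ x ∈ W, x ∈ X) := by
  have hc' : ℵ₀ ≤ Cardinal.lift.{u+1} c := by rwa [aleph0_le_lift]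
  let X0 : Set ZFSet.{u} := {a | a ∈ kap c} ∪ (S ∪ {x | x ∈ W})
  have h1 : #X0 ≤ Cardinal.lift.{u+1} c := by
    refine (mk_union_le _ _).trans ?_
    have h2 : #({a | a ∈ kap c} : Set ZFSet.{u}) ≤ Cardinal.lift.{u+1} c := by
      have h3 : #({a | a ∈ kap c} : Set ZFSet.{u}) = Cardinal.lift.{u+1} (kap c).card :=
        ZFSet.cardinalMk_coe_sort
      rw [h3, Ordinal.card_toZFSet, card_ord]
    have h4 : #({x | x ∈ W} : Set ZFSet.{u}) ≤ Cardinal.lift.{u+1} c := by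
      refine le_trans ?_ hc'
      have : Set.Countable ({x | x ∈ W} : Set ZFSet.{u}) := (List.finite_toSet W).countable
      exact this.le_aleph0
    have h5 : #((S ∪ {x | x ∈ W} : Set ZFSet.{u})) ≤ Cardinal.lift.{u+1} c :=
      (mk_union_le _ _).trans ((add_le_add hS h4).trans (add_eq_self hc').le)
    exact (add_le_add h2 h5).trans (add_eq_self hc').le
  exact ⟨hull X0, hull_closed, card_hull hc' h1, fun a ha => subset_hull _ (Or.inl ha),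
    fun x hx => subset_hull _ (Or.inr (Or.inl hx)), fun x hx => subset_hull _ (Or.inr (Or.inr hx))⟩

theorem IsGood.card_ini {φ : Fml} (hφ : Sigma1 φ) {c : Cardinal.{u}} (hc : ℵ₀ ≤ c)
    {r : {x : ZFSet.{u} // x ⊆ kap c} → {x : ZFSet.{u} // x ⊆ kap c} → Prop}
    (h : IsGood φ (kap c) r) (y : {x : ZFSet.{u} // x ⊆ kap c}) : (ini r y).card ≤ c := by
  obtain ⟨z, hz⟩ := h.noMax y
  obtain ⟨W, hW⟩ := sigma1_wit.{u, 0} hφ _ (h.tr_ini z)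
  obtain ⟨X, hX, hXc, hXk, -, hXW⟩ := exists_hull hc ∅ (by simp) (ini r z :: kap c :: y.1 :: W)
  have htX : ini r z ∈ X := hXW _ (by simp)
  have hpX : kap c ∈ X := hXW _ (by simp)
  have hyX : y.1 ∈ X := hXW _ (by simp)
  have hp : mos X (kap c) = kap c := mos_fix_sub hXk subset_rfl
  have h1 := (hW X hX (asg_mem htX hpX) (fun x hx => hXW _ (by simp [hx]))).1
  rw [mos_asg hp, h.def_iff] at h1
  obtain ⟨w, hw⟩ := h1
  have hmem : ∀ x : {x : ZFSet.{u} // x ⊆ kap c}, x.1 ∈ mos X (ini r z) ↔ x.1 ∈ X ∧ r x z := by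
    intro x
    rw [mem_mos]
    constructor
    · rintro ⟨x', hx', hxX, hxx⟩
      obtain ⟨hs, hr⟩ := mem_ini.1 hx'
      rw [mos_fix_sub hXk hs] at hxx
      subst hxx
      exact ⟨hxX, hr⟩
    · rintro ⟨hxX, hr⟩
      exact ⟨x.1, mem_ini.2 ⟨x.2, hr⟩, hxX, mos_fix_sub hXk x.2⟩
  have hyw : r y w := by
    obtain ⟨_, h2⟩ := (hw y.1).1 ((hmem y).2 ⟨hyX, hz⟩)
    exact h2
  have hsub : ((ini r y : ZFSet.{u}) : Set ZFSet.{u}) ⊆ X := by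
    intro x hx
    obtain ⟨hs, hr⟩ := mem_ini.1 (show x ∈ ini r y from hx)
    have h3 : r ⟨x, hs⟩ w := h.trans hr hyw
    exact ((hmem ⟨x, hs⟩).1 ((hw x).2 ⟨hs, h3⟩)).1
  have h4 : #(ini r y) ≤ Cardinal.lift.{u+1} c := (mk_le_mk_of_subset hsub).trans hXc
  rw [ZFSet.cardinalMk_coe_sort, Cardinal.lift_le] at h4
  exact h4

end Pool.Agent.GWO
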