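import Pool.Agent.GWO.Down

/-! # No normal measure is represented in its own ultrapower -/

namespace Pool.Agent.GWO

open Pool.Agent.SingleUlt Function Filter Cardinal Ordinal

universe u w

/-- `X` is measured one by the family `W` of subsets of `l` -/
def ms (l : Ordinal.{u}) (W : Set (Set Ordinal.{u})) (X : Set Ordinal.{u}) : Prop :=
  X ∩ Set.Iio l ∈ W

/-- `W` is a normal measure on `l` which is represented by `V` -/
structure SR (V : Ordinal.{u} → Set (Set Ordinal.{u})) (l : Ordinal.{u})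
    (W : Set (Set Ordinal.{u})) : Prop where
  q1 : ms l W Set.univ
  q1' : ¬ ms l W ∅
  q2 : ∀ X Y, X ⊆ Y → ms l W X → ms l W Y
  q3 : ∀ X Y, ms l W X → ms l W Y → ms l W (X ∩ Y)
  q4 : ∀ X, ms l W X ∨ ms l W Xᶜ
  q5 : ∀ c, c < l → ms l W {b | c < b}
  q6 : ∀ g : Ordinal.{u} → Ordinal.{u}, ms l W {b | g b < b} → ∃ c, ms l W {b | g b = c}
  q7 : ∀ X, ms l W X ↔ ms l W {b | ms b (V b) X}

variable {V : Ordinal.{u} → Set (Set Ordinal.{u})} {l : Ordinal.{u}} {W : Set (Set Ordinal.{u})}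

theorem SR.compl (h : SR V l W) {X : Set Ordinal.{u}} : ms l W Xᶜ ↔ ¬ ms l W X := by
  constructor
  · intro h1 h2
    have := h.q3 _ _ h2 h1
    rw [Set.inter_compl_self] at this
    exact h.q1' this
  · intro h1
    exact (h.q4 X).resolve_left h1

theorem ms_congr {X Y : Set Ordinal.{u}} (h : ∀ b, b < l → (b ∈ X ↔ b ∈ Y)) :
    ms l W X ↔ ms l W Y := by
  unfold ms
  have : X ∩ Set.Iio l = Y ∩ Set.Iio l := by
    ext b
    constructor
    · rintro ⟨h1, h2⟩; exact ⟨(h b h2).1 h1, h2⟩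
    · rintro ⟨h1, h2⟩; exact ⟨(h b h2).2 h1, h2⟩
  rw [this]

theorem SR.lt (h : SR V l W) : ms l W {b | b < l} :=
  (ms_congr (fun b hb => by simp [hb])).1 h.q1

/-- the limit of a family of sets -/
def lim (l : Ordinal.{u}) (W : Set (Set Ordinal.{u})) (x : Ordinal.{u} → Set Ordinal.{u}) :
    Set Ordinal.{u} := {c | ms l W {a | c ∈ x a}}

theorem SR.coh (h : SR V l W) (x : Ordinal.{u} → Set Ordinal.{u}) :
    ms l W {a | ∀ c, c < a → (c ∈ x a ↔ c ∈ lim l W x)} := by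
  by_contra hc
  rw [← h.compl] at hc
  have h1 : ∀ a, ∃ c, a ∈ {a | ∀ c, c < a → (c ∈ x a ↔ c ∈ lim l W x)}ᶜ →
      c < a ∧ ¬ (c ∈ x a ↔ c ∈ lim l W x) := by
    intro a
    by_cases ha : a ∈ {a | ∀ c, c < a → (c ∈ x a ↔ c ∈ lim l W x)}ᶜ
    · simp only [Set.mem_compl_iff, Set.mem_ofPred_eq, not_forall] at ha
      obtain ⟨c, h1, h2⟩ := ha
      exact ⟨c, fun _ => ⟨h1, h2⟩⟩
    · exact ⟨0, fun h => absurd h ha⟩
  choose g hg using h1
  obtain ⟨c, hcc⟩ := h.q6 g (h.q2 _ _ (fun a ha => (hg a ha).1) hc)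
  have h2 := h.q3 _ _ hc hcc
  by_cases hl : c ∈ lim l W x
  · have h3 := h.q3 _ _ h2 hl
    refine h.q1' ((h.q2 _ _ ?_ h3))
    rintro a ⟨⟨ha1, ha2⟩, ha3⟩
    have h4 := (hg a ha1).2
    rw [show g a = c from ha2] at h4
    exact h4 ⟨fun _ => hl, fun _ => ha3⟩
  · have h3 := h.q3 _ _ h2 ((h.compl).2 hl)
    refine h.q1' ((h.q2 _ _ ?_ h3))
    rintro a ⟨⟨ha1, ha2⟩, ha3⟩
    have h4 := (hg a ha1).2
    rw [show g a = c from ha2] at h4
    exact h4 ⟨fun h5 => absurd h5 ha3, fun h5 => absurd h5 hl⟩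

theorem SR.tl (h : SR V l W) (x : Ordinal.{u} → Set Ordinal.{u}) :
    ms l W {a | ms a (V a) (x a)} ↔ ms l W (lim l W x) := by
  rw [h.q7 (lim l W x)]
  have key : ∀ (P Q : Set Ordinal.{u}), (∀ a, a ∈ {a | ∀ c, c < a → (c ∈ x a ↔ c ∈ lim l W x)} →
      (a ∈ P → a ∈ Q)) → ms l W P → ms l W Q := by
    intro P Q hPQ hP
    refine h.q2 _ _ ?_ (h.q3 _ _ (h.coh x) hP)
    rintro a ⟨h1, h2⟩
    exact hPQ a h1 h2
  constructor
  · exact key _ _ fun a ha hP => (ms_congr ha).1 hP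
  · exact key _ _ fun a ha hP => (ms_congr ha).2 hP

/-- failure on a measure one set is impossible -/
theorem SR.ae (h : SR V l W) {P : Ordinal.{u} → Prop}
    (H : ms l W {a | ¬ P a} → False) : ms l W {a | P a} := by
  by_contra hc
  exact H ((h.compl).2 hc)

theorem SR.inhab (h : SR V l W) {X : Set Ordinal.{u}} (hX : ms l W X) : ∃ a, a ∈ X ∧ a < l := by
  by_contra hc
  push Not at hc
  refine h.q1' ((ms_congr fun b hb => ?_).1 hX)
  constructor
  · intro h1; exact absurd hb (not_lt.2 (hc b h1))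
  · intro h1; exact absurd h1 (Set.notMem_empty _)

theorem SR.descend (h : SR V l W) : ∃ a, a < l ∧ SR V a (V a) := by
  have d1 : ms l W {a | ms a (V a) Set.univ} := by
    rw [h.tl fun _ => Set.univ]
    refine h.q2 _ _ ?_ h.q1
    intro c _
    show ms l W {a | c ∈ (Set.univ : Set Ordinal.{u})}
    exact h.q2 _ _ (fun _ _ => Set.mem_univ _) h.q1
  have d1' : ms l W {a | ¬ ms a (V a) ∅} := by
    refine h.ae fun hc => ?_
    have h1 : ms l W {a | ms a (V a) ∅} := h.q2 _ _ (fun a ha => not_not.1 ha) hc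
    rw [h.tl fun _ => ∅] at h1
    refine h.q1' (h.q2 _ _ ?_ h1)
    intro c hc'
    exact absurd hc' h.q1'
  have d2 : ms l W {a | ∀ X Y, X ⊆ Y → ms a (V a) X → ms a (V a) Y} := by
    refine h.ae fun hc => ?_
    have h1 : ∀ a, ∃ X Y : Set Ordinal.{u}, (¬ ∀ X Y, X ⊆ Y → ms a (V a) X → ms a (V a) Y) →
        X ⊆ Y ∧ ms a (V a) X ∧ ¬ ms a (V a) Y := by
      intro a
      by_cases ha : ∀ X Y, X ⊆ Y → ms a (V a) X → ms a (V a) Y
      · exact ⟨∅, ∅, fun h => absurd ha h⟩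
      · simp only [not_forall] at ha
        obtain ⟨X, Y, h1, h2, h3⟩ := ha
        exact ⟨X, Y, fun _ => ⟨h1, h2, h3⟩⟩
    choose x y hxy using h1
    have hx : ms l W {a | ms a (V a) (x a)} := h.q2 _ _ (fun a ha => (hxy a ha).2.1) hc
    have hy : ms l W {a | ms a (V a) (y a)}ᶜ := h.q2 _ _ (fun a ha => (hxy a ha).2.2) hc
    rw [h.compl] at hy
    rw [h.tl] at hx hy
    refine hy (h.q2 _ _ ?_ hx)
    intro c hc'
    exact h.q2 _ _ (fun a ha => (hxy a ha.1).1 ha.2) (h.q3 _ _ hc hc')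
  have d3 : ms l W {a | ∀ X Y, ms a (V a) X → ms a (V a) Y → ms a (V a) (X ∩ Y)} := by
    refine h.ae fun hc => ?_
    have h1 : ∀ a, ∃ X Y : Set Ordinal.{u},
        (¬ ∀ X Y, ms a (V a) X → ms a (V a) Y → ms a (V a) (X ∩ Y)) →
        ms a (V a) X ∧ ms a (V a) Y ∧ ¬ ms a (V a) (X ∩ Y) := by
      intro a
      by_cases ha : ∀ X Y, ms a (V a) X → ms a (V a) Y → ms a (V a) (X ∩ Y)
      · exact ⟨∅, ∅, fun h => absurd ha h⟩
      · simp only [not_forall] at ha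
        obtain ⟨X, Y, h1, h2, h3⟩ := ha
        exact ⟨X, Y, fun _ => ⟨h1, h2, h3⟩⟩
    choose x y hxy using h1
    have hx : ms l W {a | ms a (V a) (x a)} := h.q2 _ _ (fun a ha => (hxy a ha).1) hc
    have hy : ms l W {a | ms a (V a) (y a)} := h.q2 _ _ (fun a ha => (hxy a ha).2.1) hc
    have hz : ms l W {a | ms a (V a) (x a ∩ y a)}ᶜ := h.q2 _ _ (fun a ha => (hxy a ha).2.2) hc
    rw [h.compl] at hz
    rw [h.tl] at hx hy hz
    refine hz (h.q2 _ _ ?_ (h.q3 _ _ hx hy))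
    rintro c ⟨hc1, hc2⟩
    exact h.q2 _ _ (fun a ha => ha) (h.q3 _ _ hc1 hc2)
  have d4 : ms l W {a | ∀ X, ms a (V a) X ∨ ms a (V a) Xᶜ} := by
    refine h.ae fun hc => ?_
    have h1 : ∀ a, ∃ X : Set Ordinal.{u}, (¬ ∀ X, ms a (V a) X ∨ ms a (V a) Xᶜ) →
        ¬ ms a (V a) X ∧ ¬ ms a (V a) Xᶜ := by
      intro a
      by_cases ha : ∀ X, ms a (V a) X ∨ ms a (V a) Xᶜ
      · exact ⟨∅, fun h => absurd ha h⟩
      · simp only [not_forall, not_or] at ha
        obtain ⟨X, h1⟩ := ha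
        exact ⟨X, fun _ => h1⟩
    choose x hx using h1
    have h2 : ms l W {a | ms a (V a) (x a)}ᶜ := h.q2 _ _ (fun a ha => (hx a ha).1) hc
    have h3 : ms l W {a | ms a (V a) (x a)ᶜ}ᶜ := h.q2 _ _ (fun a ha => (hx a ha).2) hc
    rw [h.compl, h.tl] at h2 h3
    rw [← h.compl] at h2
    refine h3 (h.q2 _ _ ?_ h2)
    intro c hc'
    exact (h.compl (X := {a | c ∈ x a})).2 hc'
  have d5 : ms l W {a | ∀ c, c < a → ms a (V a) {b | c < b}} := by
    refine h.ae fun hc => ?_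
    have h1 : ∀ a, ∃ c, (¬ ∀ c, c < a → ms a (V a) {b | c < b}) →
        c < a ∧ ¬ ms a (V a) {b | c < b} := by
      intro a
      by_cases ha : ∀ c, c < a → ms a (V a) {b | c < b}
      · exact ⟨0, fun h => absurd ha h⟩
      · simp only [not_forall] at ha
        obtain ⟨c, h1, h2⟩ := ha
        exact ⟨c, fun _ => ⟨h1, h2⟩⟩
    choose g hg using h1
    obtain ⟨c, hcc⟩ := h.q6 g (h.q2 _ _ (fun a ha => (hg a ha).1) hc)
    have h2 := h.q3 _ _ hc hcc
    obtain ⟨a, ⟨ha1, ha2⟩, hal⟩ := h.inhab h2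
    have hcl : c < l := by
      have := (hg a ha1).1
      rw [show g a = c from ha2] at this
      exact this.trans hal
    have h3 := (h.q7 _).1 (h.q5 c hcl)
    obtain ⟨b, ⟨⟨hb1, hb2⟩, hb3⟩, _⟩ := h.inhab (h.q3 _ _ h2 h3)
    have h4 := (hg b hb1).2
    rw [show g b = c from hb2] at h4
    exact h4 hb3
  have d6 : ms l W {a | ∀ g : Ordinal.{u} → Ordinal.{u}, ms a (V a) {b | g b < b} →
      ∃ c, ms a (V a) {b | g b = c}} := by
    refine h.ae fun hc => ?_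
    have h1 : ∀ a, ∃ g : Ordinal.{u} → Ordinal.{u},
        (¬ ∀ g : Ordinal.{u} → Ordinal.{u}, ms a (V a) {b | g b < b} →
          ∃ c, ms a (V a) {b | g b = c}) →
        ms a (V a) {b | g b < b} ∧ ∀ c, ¬ ms a (V a) {b | g b = c} := by
      intro a
      by_cases ha : ∀ g : Ordinal.{u} → Ordinal.{u}, ms a (V a) {b | g b < b} →
          ∃ c, ms a (V a) {b | g b = c}
      · exact ⟨id, fun h => absurd ha h⟩
      · simp only [not_forall, not_exists] at ha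
        obtain ⟨g, h1, h2⟩ := ha
        exact ⟨g, fun _ => ⟨h1, h2⟩⟩
    choose g hg using h1
    -- the limit function
    have h2 : ∀ b, ∃ d, (∀ c, ms l W {a | g a b = c} → d = c) ∧
        (d < b → ms l W {a | g a b = d}) := by
      intro b
      by_cases hb : ∃ c, ms l W {a | g a b = c}
      · obtain ⟨c, hc1⟩ := hb
        refine ⟨c, fun c' hc' => ?_, fun _ => hc1⟩
        obtain ⟨a, ⟨ha1, ha2⟩, _⟩ := h.inhab (h.q3 _ _ hc1 hc')
        exact (show g a b = c from ha1).symm.trans ha2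
      · exact ⟨b, fun c hc' => absurd ⟨c, hc'⟩ hb, fun h => absurd h (lt_irrefl _)⟩
    choose G hG1 hG2 using h2
    have hcoh : ms l W {a | ∀ b, b < a → (g a b < b ∨ G b < b) → g a b = G b} := by
      refine h.ae fun hc' => ?_
      have h3 : ∀ a, ∃ b, (¬ ∀ b, b < a → (g a b < b ∨ G b < b) → g a b = G b) →
          b < a ∧ (g a b < b ∨ G b < b) ∧ g a b ≠ G b := by
        intro a
        by_cases ha : ∀ b, b < a → (g a b < b ∨ G b < b) → g a b = G b
        · exact ⟨0, fun h => absurd ha h⟩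
        · simp only [not_forall] at ha
          obtain ⟨b, h1, h2, h3⟩ := ha
          exact ⟨b, fun _ => ⟨h1, h2, h3⟩⟩
      choose k hk using h3
      obtain ⟨b, hb⟩ := h.q6 k (h.q2 _ _ (fun a ha => (hk a ha).1) hc')
      have h4 : ms l W {a | b < a ∧ (g a b < b ∨ G b < b) ∧ g a b ≠ G b} := by
        refine h.q2 _ _ ?_ (h.q3 _ _ hc' hb)
        rintro a ⟨ha1, ha2⟩
        have := hk a ha1
        rw [show k a = b from ha2] at this
        exact this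
      by_cases hGb : G b < b
      · obtain ⟨a, ⟨ha1, ha2⟩, _⟩ := h.inhab (h.q3 _ _ h4 (hG2 b hGb))
        exact ha1.2.2 ha2
      · have h5 : ms l W {a | g a b < a} := h.q2 _ _ (fun a ha => by
          rcases ha.2.1 with h6 | h6
          · exact h6.trans ha.1
          · exact absurd h6 hGb) h4
        obtain ⟨c, hc1⟩ := h.q6 (fun a => g a b) h5
        have h6 := hG1 b c hc1
        obtain ⟨a, ⟨ha1, ha2⟩, _⟩ := h.inhab (h.q3 _ _ h4 hc1)
        exact ha1.2.2 ((show g a b = c from ha2).trans h6.symm)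
    have h3 : ms l W {b | G b < b} := by
      rw [h.q7]
      refine h.q2 _ _ ?_ (h.q3 _ _ hc hcoh)
      rintro a ⟨ha1, ha2⟩
      have h4 := (hg a ha1).1
      refine (ms_congr fun b hb => ?_).1 h4
      constructor
      · intro h5
        have h5' : g a b < b := h5
        show G b < b
        rw [← ha2 b hb (Or.inl h5')]; exact h5'
      · intro h5
        have h5' : G b < b := h5
        show g a b < b
        rw [ha2 b hb (Or.inr h5')]; exact h5'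
    obtain ⟨c, hcc⟩ := h.q6 G h3
    have h4 := (h.q7 _).1 (h.q3 _ _ h3 hcc)
    obtain ⟨a, ⟨⟨⟨ha1, ha2⟩, ha3⟩, ha4⟩, _⟩ := h.inhab (h.q3 _ _ (h.q3 _ _ (h.q3 _ _ hc hcoh) d2) h4)
    refine (hg a ha1).2 c (ha3 ({b | G b < b} ∩ {b | G b = c} ∩ Set.Iio a) _ ?_
      ((ms_congr fun b hb => ?_).1 ha4))
    · rintro b ⟨⟨hb1, hb2⟩, hb3⟩
      exact (ha2 b hb3 (Or.inr hb1)).trans hb2
    · exact ⟨fun h5 => ⟨h5, hb⟩, fun h5 => h5.1⟩
  have d7 : ms l W {a | ∀ X, ms a (V a) X ↔ ms a (V a) {b | ms b (V b) X}} := by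
    refine h.ae fun hc => ?_
    have h1 : ∀ a, ∃ X : Set Ordinal.{u}, (¬ ∀ X, ms a (V a) X ↔ ms a (V a) {b | ms b (V b) X}) →
        ¬ (ms a (V a) X ↔ ms a (V a) {b | ms b (V b) X}) := by
      intro a
      by_cases ha : ∀ X, ms a (V a) X ↔ ms a (V a) {b | ms b (V b) X}
      · exact ⟨∅, fun h => absurd ha h⟩
      · rw [not_forall] at ha
        obtain ⟨X, h1⟩ := ha
        exact ⟨X, fun _ => h1⟩
    choose x hx using h1
    set X := lim l W x with hX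
    have h2 : ms l W {a | ¬ (ms a (V a) X ↔ ms a (V a) {b | ms b (V b) X})} := by
      refine h.q2 _ _ ?_ (h.q3 _ _ hc (h.coh x))
      rintro a ⟨ha1, ha2⟩
      have h3 := hx a ha1
      rw [ms_congr ha2, ms_congr (X := {b | ms b (V b) (x a)}) (Y := {b | ms b (V b) X})
        (fun b hb => ms_congr fun c hc' => ha2 c (hc'.trans hb))] at h3
      exact h3
    by_cases hm : ms l W X
    · have h3 := (h.q7 _).1 hm
      have h4 := (h.q7 _).1 h3
      obtain ⟨a, ⟨⟨ha1, ha2⟩, ha3⟩, _⟩ := h.inhab (h.q3 _ _ (h.q3 _ _ h2 h3) h4)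
      exact ha1 ⟨fun _ => ha3, fun _ => ha2⟩
    · have h3 : ¬ ms l W {b | ms b (V b) X} := fun h4 => hm ((h.q7 _).2 h4)
      have h4 : ¬ ms l W {a | ms a (V a) {b | ms b (V b) X}} := fun h5 => h3 ((h.q7 _).2 h5)
      rw [← h.compl] at h3 h4
      obtain ⟨a, ⟨⟨ha1, ha2⟩, ha3⟩, _⟩ := h.inhab (h.q3 _ _ (h.q3 _ _ h2 h3) h4)
      exact ha1 ⟨fun h5 => absurd h5 ha2, fun h5 => absurd h5 ha3⟩
  obtain ⟨a, ⟨⟨⟨⟨⟨⟨⟨h1, h1'⟩, h2⟩, h3⟩, h4⟩, h5⟩, h6⟩, h7⟩, hal⟩ := h.inhab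
    (h.q3 _ _ (h.q3 _ _ (h.q3 _ _ (h.q3 _ _ (h.q3 _ _ (h.q3 _ _ (h.q3 _ _ d1 d1') d2) d3) d4) d5)
      d6) d7)
  exact ⟨a, hal, h1, h1', h2, h3, h4, h5, h6, h7⟩

theorem no_SR (V : Ordinal.{u} → Set (Set Ordinal.{u})) (l : Ordinal.{u}) :
    ∀ W, ¬ SR V l W := by
  induction l using WellFoundedLT.induction with
  | _ l ih =>
    intro W h
    obtain ⟨a, ha, h'⟩ := h.descend
    exact ih a ha _ h'

end Pool.Agent.GWO
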