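import Pool.Agent.GWO.Up

/-! # If `P(δ⁺) ⊆ M` then `H(δ⁺⁺) ⊆ M` -/

namespace Pool.Agent.GWO

open Pool.Agent.SingleUlt Function Filter Cardinal Ordinal

universe u w

variable {δ : Cardinal.{u}} {I : Type w} {D : Ultrafilter I} {f : I → Idx δ}

/-- existence of a collapsing function for a well-founded relation on a set -/
theorem exists_col {p : ZFSet.{u}} {Q : ZFSet.{u} → ZFSet.{u} → Prop} (hQ : WellFounded Q)
    (hp : ∀ y x, Q y x → y ∈ p) :
    ∃ c : ZFSet.{u} → ZFSet.{u}, ∀ x z, z ∈ c x ↔ ∃ y, Q y x ∧ c y = z := by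
  have hsm : ∀ x, Small.{u} {y // Q y x} := fun x =>
    small_of_injective (β := p) (f := fun y : {y // Q y x} => (⟨y.1, hp _ _ y.2⟩ : p))
      (fun a b hab => by
        have := congrArg Subtype.val hab
        exact Subtype.ext this)
  let c : ZFSet.{u} → ZFSet.{u} := hQ.fix fun x ih => ZFSet.range fun y : Shrink.{u} {y // Q y x} =>
    ih ((equivShrink _).symm y : {y // Q y x}).1 ((equivShrink _).symm y : {y // Q y x}).2
  refine ⟨c, fun x z => ?_⟩
  have h1 : c x = ZFSet.range fun y : Shrink.{u} {y // Q y x} =>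
      c ((equivShrink _).symm y : {y // Q y x}).1 := hQ.fix_eq _ x
  rw [h1, ZFSet.mem_range]
  constructor
  · rintro ⟨y, hy⟩
    exact ⟨_, ((equivShrink _).symm y : {y // Q y x}).2, hy⟩
  · rintro ⟨y, hy, rfl⟩
    refine ⟨equivShrink _ ⟨y, hy⟩, ?_⟩
    have h2 : ((equivShrink {y // Q y x}).symm (equivShrink _ ⟨y, hy⟩) : {y // Q y x}) = ⟨y, hy⟩ :=
      Equiv.symm_apply_apply _ _
    simp only [h2]

theorem Seed.unc (h : Seed δ D f) : ℵ₀ < δ := by
  by_contra hc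
  have hδ : δ = ℵ₀ := le_antisymm (not_lt.1 hc) h.inf
  have hcnt : Countable (Idx δ) := by
    rw [← mk_le_aleph0_iff, mk_Idx, hδ, Cardinal.lift_aleph0]
  have hne : Nonempty (Idx δ) := by
    obtain ⟨i, _⟩ := D.neBot.nonempty_of_mem (univ_mem : Set.univ ∈ (D : Filter I))
    exact ⟨f i⟩
  obtain ⟨e, he⟩ := exists_surjective_nat (Idx δ)
  have h1 := h.cc (fun n => {i | e n < f i}) (fun n => h.tail (e n))
  obtain ⟨i, hi⟩ := D.neBot.nonempty_of_mem h1
  rw [Set.mem_iInter] at hi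
  obtain ⟨n, hn⟩ := he (f i)
  have h2 := hi n
  rw [Set.mem_ofPred_eq, hn] at h2
  exact lt_irrefl _ h2

theorem Seed.inf_ae (h : Seed δ D f) : ∀ᶠ i in (D : Filter I), ℵ₀ ≤ (f i).1.card := by
  have h1 : (ω : Ordinal.{u}) < δ.ord := by
    rw [Cardinal.lt_ord, card_omega0]; exact h.unc
  filter_upwards [h.tail ⟨ω, h1⟩] with i hi
  have h2 : (ω : Ordinal.{u}) ≤ (f i).1 := le_of_lt (show (ω : Ordinal.{u}) < (f i).1 from hi)
  have := Ordinal.card_le_card h2
  rwa [card_omega0] at this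

theorem card_kap (c : Cardinal.{u}) : (kap c).card = c := by
  rw [Ordinal.card_toZFSet, card_ord]

/-- a pairing function on an infinite set -/
theorem exists_pairing {c : Cardinal.{u}} (hc : ℵ₀ ≤ c) :
    ∃ γ : ZFSet.{u} → ZFSet.{u} → ZFSet.{u}, (∀ x y, x ∈ kap c → y ∈ kap c → γ x y ∈ kap c) ∧
      ∀ x y x' y', x ∈ kap c → y ∈ kap c → x' ∈ kap c → y' ∈ kap c → γ x y = γ x' y' →
        x = x' ∧ y = y' := by
  have h1 : #(kap c × kap c) ≤ #(kap c) := by
    rw [mk_prod, Cardinal.lift_id, ZFSet.cardinalMk_coe_sort, card_kap,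
      ← Cardinal.lift_mul, mul_eq_self hc]
  obtain ⟨e⟩ := h1
  classical
  refine ⟨fun x y => if hxy : x ∈ kap c ∧ y ∈ kap c then (e (⟨x, hxy.1⟩, ⟨y, hxy.2⟩)).1 else ∅,
    fun x y hx hy => ?_, fun x y x' y' hx hy hx' hy' heq => ?_⟩
  · simp only [dif_pos (And.intro hx hy)]
    exact (e _).2
  · simp only [dif_pos (And.intro hx hy), dif_pos (And.intro hx' hy')] at heq
    have h2 := e.injective (Subtype.ext heq)
    rw [Prod.mk.injEq] at h2
    exact ⟨congrArg Subtype.val h2.1, congrArg Subtype.val h2.2⟩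

theorem Seed.model (h : Seed δ D f)
    (hM : ∀ A : ZFSet.{u}, A ⊆ kap (Order.succ δ) → ∃ g, Coll D g A)
    (ρ : Idx (Order.succ δ) → ZFSet.{u}) (hρ : ∀ ν z, z ∈ ρ ν → ∃ μ, ρ μ = z)
    (ν : Idx (Order.succ δ)) : ∃ g, Coll D g (ρ ν) := by
  have hcan : ∀ ν : Idx (Order.succ δ), ∃ a : I → ZFSet.{u},
      (∀ i, a i ∈ kap (Order.succ (f i).1.card)) ∧ Coll D a (o ν) := fun ν =>
    h.canon (mem_kap.2 ⟨ν, rfl⟩)
  choose a ha hac using hcan
  -- representation of elements of `p i`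
  have hrep : ∀ b : I → ZFSet.{u}, (∀ᶠ i in (D : Filter I), b i ∈ kap (Order.succ (f i).1.card)) →
      ∃ ν : Idx (Order.succ δ), UQ D b (a ν) := by
    intro b hb
    obtain ⟨y, hy, hby⟩ := h.succ.fst hb
    obtain ⟨ν, rfl⟩ := mem_kap.1 hy
    exact ⟨ν, hby.inj (hac ν)⟩
  have hainj : ∀ ν μ, UQ D (a ν) (a μ) → ν = μ := fun ν μ hq =>
    o_injective (((hac ν).congr hq).unique (hac μ))
  -- pairing functions
  have hpair : ∀ i, ∃ γ : ZFSet.{u} → ZFSet.{u} → ZFSet.{u}, ℵ₀ ≤ (f i).1.card →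
      (∀ x y, x ∈ kap (Order.succ (f i).1.card) → y ∈ kap (Order.succ (f i).1.card) →
        γ x y ∈ kap (Order.succ (f i).1.card)) ∧
      ∀ x y x' y', x ∈ kap (Order.succ (f i).1.card) → y ∈ kap (Order.succ (f i).1.card) →
        x' ∈ kap (Order.succ (f i).1.card) → y' ∈ kap (Order.succ (f i).1.card) →
        γ x y = γ x' y' → x = x' ∧ y = y' := by
    intro i
    by_cases hi : ℵ₀ ≤ (f i).1.card
    · obtain ⟨γ, h1, h2⟩ := exists_pairing (hi.trans (Order.le_succ _))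
      exact ⟨γ, fun _ => ⟨h1, h2⟩⟩
    · exact ⟨fun _ _ => ∅, fun h => absurd h hi⟩
  choose γ hγ using hpair
  -- the code of the membership relation
  let A : ZFSet.{u} := ZFSet.sep (fun z => ∃ ν μ : Idx (Order.succ δ), ρ ν ∈ ρ μ ∧
    Coll D (fun i => γ i (a ν i) (a μ i)) z) (kap (Order.succ δ))
  obtain ⟨q, hq⟩ := hM A (fun z hz => (ZFSet.mem_sep.1 hz).1)
  have hE : ∀ ν μ, ρ ν ∈ ρ μ ↔ ∀ᶠ i in (D : Filter I), γ i (a ν i) (a μ i) ∈ q i := by
    intro ν μ
    obtain ⟨z, hz⟩ := h.tot (fun i => γ i (a ν i) (a μ i))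
    have hzP : z ∈ kap (Order.succ δ) := by
      refine (h.succ.mem_iff hz).1 ?_
      filter_upwards [h.inf_ae] with i hi
      exact (hγ i hi).1 _ _ (ha ν i) (ha μ i)
    have h1 : (∀ᶠ i in (D : Filter I), γ i (a ν i) (a μ i) ∈ q i) ↔ z ∈ A := hq.mem_iff hz
    rw [h1, ZFSet.mem_sep]
    constructor
    · intro hh
      exact ⟨hzP, ν, μ, hh, hz⟩
    · rintro ⟨_, ν', μ', hh, hz'⟩
      have h2 := hz.inj hz'
      have h3 : UQ D (a ν) (a ν') := by
        filter_upwards [h2, h.inf_ae] with i h4 h5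
        exact ((hγ i h5).2 _ _ _ _ (ha ν i) (ha μ i) (ha ν' i) (ha μ' i) h4).1
      have h3' : UQ D (a μ) (a μ') := by
        filter_upwards [h2, h.inf_ae] with i h4 h5
        exact ((hγ i h5).2 _ _ _ _ (ha ν i) (ha μ i) (ha ν' i) (ha μ' i) h4).2
      rw [hainj _ _ h3, hainj _ _ h3']
      exact hh
  let Q : I → ZFSet.{u} → ZFSet.{u} → Prop := fun i x y =>
    x ∈ kap (Order.succ (f i).1.card) ∧ y ∈ kap (Order.succ (f i).1.card) ∧ γ i x y ∈ q i
  have hwf : ∀ᶠ i in (D : Filter I), WellFounded (Q i) := by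
    by_contra hc
    rw [← Ultrafilter.eventually_not] at hc
    have h1 : ∀ i, ∃ b : ℕ → ZFSet.{u}, ¬ WellFounded (Q i) → ∀ n, Q i (b (n+1)) (b n) := by
      intro i
      by_cases hi : WellFounded (Q i)
      · exact ⟨fun _ => ∅, fun h => absurd hi h⟩
      · rw [wellFounded_iff_isEmpty_descending_chain, not_isEmpty_iff] at hi
        obtain ⟨b, hb⟩ := hi
        exact ⟨b, fun _ => hb⟩
    choose b hb using h1
    have h2 : ∀ n, ∃ ν : Idx (Order.succ δ), UQ D (fun i => b i n) (a ν) := by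
      intro n
      refine hrep _ ?_
      filter_upwards [hc] with i hi
      exact (hb i hi n).2.1
    choose ν hν using h2
    have h3 : ∀ n, ρ (ν (n+1)) ∈ ρ (ν n) := by
      intro n
      rw [hE]
      filter_upwards [hc, hν n, hν (n+1)] with i h4 h5 h6
      have := (hb i h4 n).2.2
      rw [← h5, ← h6]
      exact this
    have := wellFounded_iff_isEmpty_descending_chain.1 (ZFSet.mem_wf.{u})
    exact this.false ⟨fun n => ρ (ν n), h3⟩
  have hcc : ∀ i, ∃ c : ZFSet.{u} → ZFSet.{u}, WellFounded (Q i) →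
      ∀ x z, z ∈ c x ↔ ∃ y, Q i y x ∧ c y = z := by
    intro i
    by_cases hi : WellFounded (Q i)
    · obtain ⟨c, hc⟩ := exists_col hi (p := kap (Order.succ (f i).1.card)) (fun y x h => h.1)
      exact ⟨c, fun _ => hc⟩
    · exact ⟨id, fun h => absurd h hi⟩
  choose c hc using hcc
  refine ⟨fun i => c i (a ν i), fun g x => ∃ ν, UQ D g (fun i => c i (a ν i)) ∧ x = ρ ν, ?_,
    ν, UQ.refl _, rfl⟩
  rintro g x ⟨ν, hg, rfl⟩
  constructor
  · intro k hk
    have h1 : ∀ i, ∃ y : ZFSet.{u}, (WellFounded (Q i) ∧ k i ∈ c i (a ν i)) →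
        Q i y (a ν i) ∧ c i y = k i := by
      intro i
      by_cases hi : WellFounded (Q i) ∧ k i ∈ c i (a ν i)
      · obtain ⟨y, hy⟩ := (hc i hi.1 _ _).1 hi.2
        exact ⟨y, fun _ => hy⟩
      · exact ⟨∅, fun h => absurd h hi⟩
    choose y hy using h1
    have h2 : ∀ᶠ i in (D : Filter I), Q i (y i) (a ν i) ∧ c i (y i) = k i := by
      filter_upwards [hwf, hk, hg] with i h3 h4 h5
      rw [h5] at h4
      exact hy i ⟨h3, h4⟩
    obtain ⟨μ, hμ⟩ := hrep y (h2.mono fun i hi => hi.1.1)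
    refine ⟨ρ μ, ?_, μ, ?_, rfl⟩
    · rw [hE]
      filter_upwards [h2, hμ] with i h3 h4
      rw [← h4]; exact h3.1.2.2
    · filter_upwards [h2, hμ] with i h3 h4
      rw [← h4]; exact h3.2.symm
  · intro z hz
    obtain ⟨μ, rfl⟩ := hρ ν z hz
    refine ⟨fun i => c i (a μ i), ?_, μ, UQ.refl _, rfl⟩
    filter_upwards [hwf, hg, (hE μ ν).1 hz] with i h1 h2 h3
    rw [h2, hc i h1]
    exact ⟨_, ⟨ha μ i, ha ν i, h3⟩, rfl⟩

end Pool.Agent.GWO
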