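import Pool.Agent.GWO.Init
import Pool.Agent.SingleUlt.Def

/-! # Every subset of `κ` is ordinal definable if `P(κ)` has a good wellordering -/

namespace Pool.Agent.GWO

open Pool.Agent.SingleUlt Function Filter Cardinal Ordinal

universe u w

/-- renaming of variables -/
def ren (ρ : ℕ → ℕ) : Fml → Fml
  | .mem i j => .mem (ρ i) (ρ j)
  | .eq i j => .eq (ρ i) (ρ j)
  | .neg φ => .neg (ren ρ φ)
  | .and φ ψ => .and (ren ρ φ) (ren ρ ψ)
  | .all i φ => .all (ρ i) (ren ρ φ)

theorem tr_ren {ρ : ℕ → ℕ} (hρ : Injective ρ) (φ : Fml) : ∀ v : ℕ → ZFSet.{u},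
    (ren ρ φ).Tr v ↔ φ.Tr (v ∘ ρ) := by
  induction φ with
  | mem i j => intro v; exact Iff.rfl
  | eq i j => intro v; exact Iff.rfl
  | neg φ ih => intro v; exact not_congr (ih v)
  | and φ ψ ih1 ih2 => intro v; exact and_congr (ih1 v) (ih2 v)
  | all i φ ih =>
    intro v
    refine forall_congr' fun a => ?_
    rw [show (ren ρ φ).Sat (· = ·) (· ∈ ·) (update v (ρ i) a) ↔ φ.Tr (update v (ρ i) a ∘ ρ) from
      ih _, update_comp_eq_of_injective _ hρ]

/-- `∃ x_k (x_k = x_a ∧ ψ)` -/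
def setv (k a : ℕ) (ψ : Fml) : Fml := ex k (.and (.eq k a) ψ)

theorem tr_setv {k a : ℕ} (h : k ≠ a) (ψ : Fml) (v : ℕ → ZFSet.{u}) :
    (setv k a ψ).Tr v ↔ ψ.Tr (update v k (v a)) := by
  unfold setv
  rw [tr_ex]
  constructor
  · rintro ⟨b, hb1, hb2⟩
    have h1 : update v k b k = update v k b a := hb1
    rw [update_self, update_of_ne h.symm] at h1
    rw [← h1]; exact hb2
  · intro hh
    refine ⟨v a, ?_, hh⟩
    show update v k (v a) k = update v k (v a) a
    rw [update_self, update_of_ne h.symm]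

/-- set the variables `N, ..., N+m-1` -/
def setAll (N i j : ℕ) : ℕ → Fml → Fml
  | 0, ψ => ψ
  | m+1, ψ => setAll N i j m (setv (N+m) (if m = 0 then i else j) ψ)

theorem tr_setAll {N i j : ℕ} (hi : i < N) (hj : j < N) : ∀ (m : ℕ) (ψ : Fml)
    (v : ℕ → ZFSet.{u}), (setAll N i j m ψ).Tr v ↔
      ψ.Tr (fun n => if N ≤ n ∧ n < N + m then asg (v i) (v j) (n - N) else v n) := by
  intro m
  induction m with
  | zero =>
    intro ψ v
    have : (fun n => if N ≤ n ∧ n < N + 0 then asg (v i) (v j) (n - N) else v n) = v := by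
      funext n
      rw [if_neg (by omega)]
    rw [this]; rfl
  | succ m ih =>
    intro ψ v
    show (setAll N i j m (setv (N+m) (if m = 0 then i else j) ψ)).Tr v ↔ _
    have ha : (if m = 0 then i else j) < N := by split_ifs <;> assumption
    rw [ih, tr_setv (by omega)]
    have hneg : ¬ ((N ≤ if m = 0 then i else j) ∧ (if m = 0 then i else j) < N + m) := by omega
    simp only [if_neg hneg]
    have : update (fun n => if N ≤ n ∧ n < N + m then asg (v i) (v j) (n - N) else v n) (N+m)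
        (v (if m = 0 then i else j)) =
        (fun n => if N ≤ n ∧ n < N + (m+1) then asg (v i) (v j) (n - N) else v n) := by
      funext n
      by_cases hn : n = N + m
      · subst hn
        have hpos : N ≤ N + m ∧ N + m < N + (m + 1) := by omega
        rw [update_self, if_pos hpos, Nat.add_sub_cancel_left]
        unfold asg
        split_ifs <;> rfl
      · rw [update_of_ne hn]
        by_cases h1 : N ≤ n ∧ n < N + m
        · rw [if_pos h1, if_pos (by omega)]
        · rw [if_neg h1, if_neg (by omega)]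
    rw [this]

theorem dfn_asg (φ : Fml) {n : ℕ} (i j : Fin n) :
    Dfn n (fun v : Fin n → ZFSet.{u} => φ.Tr (asg (v i) (v j))) := by
  refine ⟨setAll n i j (bd φ) (ren (fun m => n + m) φ), fun v => ?_⟩
  rw [tr_setAll i.2 j.2, tr_ren (fun a b h => by simpa using h)]
  refine tr_congr φ _ _ fun m hm => ?_
  show (if n ≤ n + m ∧ n + m < n + bd φ then asg (v i) (v j) (n + m - n) else v (n + m)) =
    asg (v i) (v j) m
  rw [if_pos (by omega)]
  congr 1
  omega

section Rank

variable {φ : Fml} {p : ZFSet.{u}}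
  {r : {x : ZFSet.{u} // x ⊆ p} → {x : ZFSet.{u} // x ⊆ p} → Prop}

/-- the rank of an element in the wellordering, as a von Neumann ordinal -/
theorem exists_rk (h : IsGood φ p r) : ∃ c : {x : ZFSet.{u} // x ⊆ p} → ZFSet.{u},
    ∀ y z, z ∈ c y ↔ ∃ x, r x y ∧ c x = z := by
  have hwo := h.wo
  have hwf : WellFounded r := IsWellFounded.wf
  have hsm : ∀ y, Small.{u} {x // r x y} := fun y =>
    small_of_injective (β := ini r y) (f := fun x : {x // r x y} =>
      (⟨x.1.1, mem_ini.2 ⟨x.1.2, x.2⟩⟩ : ini r y))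
      (fun a b hab => Subtype.ext (Subtype.ext (by
        have := congrArg Subtype.val hab
        exact this)))
  let c : {x : ZFSet.{u} // x ⊆ p} → ZFSet.{u} := hwf.fix fun y ih =>
    ZFSet.range fun x : Shrink.{u} {x // r x y} =>
      ih ((equivShrink _).symm x : {x // r x y}).1 ((equivShrink _).symm x : {x // r x y}).2
  refine ⟨c, fun y z => ?_⟩
  have h1 : c y = ZFSet.range fun x : Shrink.{u} {x // r x y} =>
      c ((equivShrink _).symm x : {x // r x y}).1 := hwf.fix_eq _ y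
  rw [h1, ZFSet.mem_range]
  constructor
  · rintro ⟨x, hx⟩
    exact ⟨_, ((equivShrink _).symm x : {x // r x y}).2, hx⟩
  · rintro ⟨x, hx, rfl⟩
    refine ⟨equivShrink _ ⟨x, hx⟩, ?_⟩
    have h2 : ((equivShrink {x // r x y}).symm (equivShrink _ ⟨x, hx⟩) : {x // r x y}) = ⟨x, hx⟩ :=
      Equiv.symm_apply_apply _ _
    simp only [h2]

/-- the defining formula: `F` is the function `ini y ↦ rank y` on the initial segments contained
in `s` -/
def Enum (φ : Fml) (F s p : ZFSet.{u}) : Prop :=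
  (∀ t, φ.Tr (asg t p) → t ⊆ s → ∃ z, ZFSet.pair t z ∈ F) ∧
  ∀ t, ∀ z, ZFSet.pair t z ∈ F → φ.Tr (asg t p) ∧ t ⊆ s ∧
    ∀ w, w ∈ z ↔ ∃ t', φ.Tr (asg t' p) ∧ t' ⊆ t ∧ t' ≠ t ∧ ZFSet.pair t' w ∈ F

theorem Dfn.enum (φ : Fml) {n : ℕ} (F s p : Fin n) :
    Dfn n (fun v : Fin n → ZFSet.{u} => Enum φ (v F) (v s) (v p)) :=
  (Dfn.all ((dfn_asg φ _ _).imp ((Dfn.sub _ _).imp (Dfn.ex (Dfn.pairMem _ _ _))))).and
    (Dfn.all (Dfn.all ((Dfn.pairMem _ _ _).imp ((dfn_asg φ _ _).and ((Dfn.sub _ _).and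
      (Dfn.all ((Dfn.mem _ _).iff (Dfn.ex ((dfn_asg φ _ _).and ((Dfn.sub _ _).and
        ((Dfn.eq _ _).not.and (Dfn.pairMem _ _ _))))))))))))

theorem IsGood.ini_sub (h : IsGood φ p r) {y z : {x : ZFSet.{u} // x ⊆ p}} :
    ini r y ⊆ ini r z ↔ ¬ r z y := by
  constructor
  · intro hh hzy
    obtain ⟨_, h1⟩ := mem_ini.1 (hh (mem_ini.2 ⟨z.2, hzy⟩))
    exact h.irrefl h1
  · intro hh x hx
    obtain ⟨hx1, hx2⟩ := mem_ini.1 hx
    rcases h.tri y z with h1 | h1 | h1
    · exact mem_ini.2 ⟨hx1, h.trans hx2 h1⟩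
    · rw [← h1]; exact hx
    · exact absurd h1 hh

theorem IsGood.ini_inj (h : IsGood φ p r) {y z : {x : ZFSet.{u} // x ⊆ p}}
    (hh : ini r y = ini r z) : y = z := by
  rcases h.tri y z with h1 | h1 | h1
  · exact absurd h1 (h.ini_sub.1 (by rw [hh]))
  · exact h1
  · exact absurd h1 (h.ini_sub.1 (by rw [hh]))

theorem IsGood.eq_ini (h : IsGood φ p r) {s : ZFSet.{u}} (hs : φ.Tr (asg s p)) :
    ∃ y, s = ini r y := by
  obtain ⟨y, hy⟩ := (h.def_iff s).1 hs
  refine ⟨y, ?_⟩
  ext x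
  rw [hy, mem_ini]

theorem IsGood.enum_val (h : IsGood φ p r) {c : {x : ZFSet.{u} // x ⊆ p} → ZFSet.{u}}
    (hc : ∀ y z, z ∈ c y ↔ ∃ x, r x y ∧ c x = z) {F : ZFSet.{u}}
    {Y : {x : ZFSet.{u} // x ⊆ p}} (hF : Enum φ F (ini r Y) p) : ∀ y, (r y Y ∨ y = Y) → ∀ z,
      ZFSet.pair (ini r y) z ∈ F → z = c y := by
  have hwo := h.wo
  have hwf : WellFounded r := IsWellFounded.wf
  intro y
  induction y using hwf.induction with
  | _ y ih =>
    intro hy z hz
    obtain ⟨_, _, hw⟩ := hF.2 _ _ hz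
    ext w
    rw [hw, hc]
    constructor
    · rintro ⟨t', ht', hsub, hne, hp⟩
      obtain ⟨y', rfl⟩ := h.eq_ini ht'
      have h1 : r y' y := by
        rcases h.tri y' y with h1 | h1 | h1
        · exact h1
        · exact absurd (congrArg (ini r) h1) hne
        · exact absurd h1 (h.ini_sub.1 hsub)
      have h2 : r y' Y := by
        rcases hy with hy | rfl
        · exact h.trans h1 hy
        · exact h1
      exact ⟨y', h1, (ih y' h1 (Or.inl h2) w hp).symm⟩
    · rintro ⟨y', h1, rfl⟩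
      have h2 : r y' Y := by
        rcases hy with hy | rfl
        · exact h.trans h1 hy
        · exact h1
      obtain ⟨z', hz'⟩ := hF.1 _ (h.tr_ini y') (h.ini_sub.2 fun h3 => h.irrefl (h.trans h2 h3))
      have h3 := ih y' h1 (Or.inl h2) z' hz'
      subst h3
      exact ⟨ini r y', h.tr_ini y', h.ini_sub.2 (fun h3 => h.irrefl (h.trans h1 h3)),
        fun h3 => by rw [h.ini_inj h3] at h1; exact h.irrefl h1, hz'⟩

/-- every subset of an ordinal `p` is ordinal definable if `P(p)` has a definable wellordering -/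
theorem IsGood.od (h : IsGood φ p r) (hp : p.IsOrdinal) {X : ZFSet.{u}} (hX : X ⊆ p) : OD X := by
  obtain ⟨c, hc⟩ := exists_rk h
  have hord : ∀ y, (c y).IsOrdinal := by
    intro y
    rw [ZFSet.isOrdinal_iff_forall_mem_isTransitive]
    constructor
    · intro z hz w hw
      obtain ⟨x, hx, rfl⟩ := (hc _ _).1 hz
      obtain ⟨x', hx', rfl⟩ := (hc _ _).1 hw
      exact (hc _ _).2 ⟨x', h.trans hx' hx, rfl⟩
    · intro z hz w hw v hv
      obtain ⟨x, hx, rfl⟩ := (hc _ _).1 hz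
      obtain ⟨x', hx', rfl⟩ := (hc _ _).1 hw
      obtain ⟨x'', hx'', rfl⟩ := (hc _ _).1 hv
      exact (hc _ _).2 ⟨x'', h.trans hx'' hx', rfl⟩
  have hinj : ∀ y z, c y = c z → y = z := by
    intro y z hyz
    rcases h.tri y z with h1 | h1 | h1
    · have h2 : c y ∈ c z := (hc _ _).2 ⟨y, h1, rfl⟩
      rw [hyz] at h2
      exact absurd h2 (ZFSet.mem_irrefl _)
    · exact h1
    · have h2 : c z ∈ c y := (hc _ _).2 ⟨z, h1, rfl⟩
      rw [hyz] at h2
      exact absurd h2 (ZFSet.mem_irrefl _)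
  obtain ⟨ψ, hψ⟩ : Dfn 4 (fun v : Fin 4 → ZFSet.{u} => ∃ F, ∃ s, φ.Tr (asg s (v 2)) ∧
      v 0 ⊆ v 2 ∧ ¬ v 0 ∈ s ∧ (∀ t, φ.Tr (asg t (v 2)) → ¬ v 0 ∈ t → t ⊆ s) ∧
      Enum φ F s (v 2) ∧ ZFSet.pair s (v 3) ∈ F) :=
    Dfn.ex (Dfn.ex ((dfn_asg φ _ _).and ((Dfn.sub _ _).and ((Dfn.mem _ _).not.and
      ((Dfn.all ((dfn_asg φ _ _).imp ((Dfn.mem _ _).not.imp (Dfn.sub _ _)))).and
        ((Dfn.enum φ _ _ _).and (Dfn.pairMem _ _ _)))))))
  refine ⟨ψ, fun n => if n = 2 then p else if n = 3 then c ⟨X, hX⟩ else ∅, by simp, ?_, ?_⟩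
  · intro n _
    by_cases h1 : n = 2
    · simp only [h1, if_true]; exact hp
    · by_cases h2 : n = 3
      · simp only [h2, if_true]; exact hord _
      · simp only [if_neg h1, if_neg h2]; exact ZFSet.isOrdinal_empty
  · intro y
    rw [hψ]
    have e0 : update (fun n => if n = 2 then p else if n = 3 then c ⟨X, hX⟩ else ∅) 0 y
      ((0 : Fin 4) : ℕ) = y := update_self _ _ _
    have e2 : update (fun n => if n = 2 then p else if n = 3 then c ⟨X, hX⟩ else ∅) 0 y
      ((2 : Fin 4) : ℕ) = p := by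
      rw [show ((2 : Fin 4) : ℕ) = 2 from rfl, update_of_ne (by decide), if_pos rfl]
    have e3 : update (fun n => if n = 2 then p else if n = 3 then c ⟨X, hX⟩ else ∅) 0 y
      ((3 : Fin 4) : ℕ) = c ⟨X, hX⟩ := by
      rw [show ((3 : Fin 4) : ℕ) = 3 from rfl, update_of_ne (by decide), if_neg (by decide),
        if_pos rfl]
    simp only [e0, e2, e3]
    constructor
    · rintro ⟨F, s, hs, hy, hys, hmax, hF, hp'⟩
      obtain ⟨z, rfl⟩ := h.eq_ini hs
      have h1 : z = ⟨y, hy⟩ := by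
        rcases h.tri z ⟨y, hy⟩ with h1 | h1 | h1
        · exfalso
          have h2 := hmax _ (h.tr_ini ⟨y, hy⟩) (fun h3 => by
            obtain ⟨_, h4⟩ := mem_ini.1 h3
            exact h.irrefl h4)
          exact h.ini_sub.1 h2 h1
        · exact h1
        · exact absurd (mem_ini.2 ⟨hy, h1⟩) hys
      subst h1
      have h2 := h.enum_val hc hF ⟨y, hy⟩ (Or.inr rfl) _ hp'
      have h3 := hinj _ _ h2
      exact (congrArg Subtype.val h3).symm
    · rintro rfl
      set Y : {x : ZFSet.{u} // x ⊆ p} := ⟨y, hX⟩ with hY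
      have hsm : Small.{u} {z // r z Y ∨ z = Y} := by
        have : Small.{u} {x : ZFSet.{u} // x ⊆ p} :=
          small_of_injective (β := p.powerset) (f := fun x : {x : ZFSet.{u} // x ⊆ p} =>
            (⟨x.1, ZFSet.mem_powerset.2 x.2⟩ : p.powerset))
            (fun a b hab => Subtype.ext (by
              have := congrArg Subtype.val hab
              exact this))
        infer_instance
      let F : ZFSet.{u} := ZFSet.range fun z : {z // r z Y ∨ z = Y} =>
        ZFSet.pair (ini r z.1) (c z.1)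
      have hFm : ∀ t w, ZFSet.pair t w ∈ F ↔ ∃ z, (r z Y ∨ z = Y) ∧ t = ini r z ∧ w = c z := by
        intro t w
        rw [ZFSet.mem_range]
        constructor
        · rintro ⟨z, hz⟩
          obtain ⟨h1, h2⟩ := ZFSet.pair_injective hz
          exact ⟨z.1, z.2, h1.symm, h2.symm⟩
        · rintro ⟨z, hz, rfl, rfl⟩
          exact ⟨⟨z, hz⟩, rfl⟩
      have hsubY : ∀ z, (r z Y ∨ z = Y) ↔ ini r z ⊆ ini r Y := by
        intro z
        rw [h.ini_sub]
        constructor
        · rintro (h1 | rfl) h2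
          · exact h.irrefl (h.trans h1 h2)
          · exact h.irrefl h2
        · intro h1
          rcases h.tri z Y with h2 | h2 | h2
          · exact Or.inl h2
          · exact Or.inr h2
          · exact absurd h2 h1
      refine ⟨F, ini r Y, h.tr_ini Y, hX, fun h1 => ?_, fun t ht hyt => ?_, ⟨?_, ?_⟩, ?_⟩
      · obtain ⟨_, h2⟩ := mem_ini.1 h1
        exact h.irrefl h2
      · obtain ⟨z, rfl⟩ := h.eq_ini ht
        exact h.ini_sub.2 fun h1 => hyt (mem_ini.2 ⟨hX, h1⟩)
      · intro t ht hsub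
        obtain ⟨z, rfl⟩ := h.eq_ini ht
        exact ⟨c z, (hFm _ _).2 ⟨z, (hsubY z).2 hsub, rfl, rfl⟩⟩
      · intro t w htw
        obtain ⟨z, hz, rfl, rfl⟩ := (hFm _ _).1 htw
        refine ⟨h.tr_ini z, (hsubY z).1 hz, fun w => ?_⟩
        rw [hc]
        constructor
        · rintro ⟨x, hx, rfl⟩
          refine ⟨ini r x, h.tr_ini x, h.ini_sub.2 (fun h3 => h.irrefl (h.trans hx h3)),
            fun h3 => ?_, (hFm _ _).2 ⟨x, ?_, rfl, rfl⟩⟩
          · rw [h.ini_inj h3] at hx; exact h.irrefl hx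
          · rcases hz with hz | rfl
            · exact Or.inl (h.trans hx hz)
            · exact Or.inl hx
        · rintro ⟨t', ht', hsub, hne, hp'⟩
          obtain ⟨x, hx, rfl, rfl⟩ := (hFm _ _).1 hp'
          refine ⟨x, ?_, rfl⟩
          rcases h.tri x z with h1 | h1 | h1
          · exact h1
          · exact absurd (congrArg (ini r) h1) hne
          · exact absurd h1 (h.ini_sub.1 hsub)
      · exact (hFm _ _).2 ⟨Y, Or.inr rfl, rfl, rfl⟩

end Rank

/-- distinct normal measures have distinct ultrapowers -/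
theorem mod_inj {φ : Fml} {κ c : Cardinal.{u}} (hκ : κ ≤ c) (hG : GoodWO φ (kap c))
    {U W : Ultrafilter (Idx κ)} (hU : IsNormalMeasure κ U) (hW : IsNormalMeasure κ W)
    (hM : Mod U = Mod W) : U = W := by
  obtain ⟨r, hr⟩ := goodWO_iff.1 hG
  refine eq_of_emb_eq hU hW hM (A := ∅) (fun X hX => ?_) (emb_ord hU hW hM ZFSet.isOrdinal_empty)
  exact hr.od (ZFSet.isOrdinal_toZFSet _)
    (fun z hz => Ordinal.toZFSet_subset_toZFSet_iff.2 (Cardinal.ord_le_ord.2 hκ) (hX hz))

end Pool.Agent.GWO
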