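import Pool.Agent.GWO.Base
import Pool.Agent.GWO.Od

/-! # The measure derived from an ultrapower embedding is normal -/

namespace Pool.Agent.GWO

open Pool.Agent.SingleUlt Function Filter Cardinal Ordinal

universe u w

variable {δ : Cardinal.{u}} {I : Type w} {D : Ultrafilter I} {f : I → Idx δ}

theorem Seed.normal (h : Seed δ D f) : IsNormalMeasure δ (D.map f) where
  uncountable := h.unc
  nonprincipal := by
    intro a
    rw [Ultrafilter.mem_map]
    filter_upwards [h.tail a] with i hi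
    show f i ≠ a
    exact (ne_of_lt hi).symm
  complete := by
    intro S hS hSU
    rw [Ultrafilter.mem_map]
    by_contra hc
    have hc' : ∀ᶠ i in (D : Filter I), ¬ ∀ s ∈ S, f i ∈ s := by
      rw [Ultrafilter.eventually_not]
      exact fun h1 => hc (h1.mono fun i hi => Set.mem_sInter.2 hi)
    -- an injection of `S` into a proper initial segment
    obtain ⟨d, hdδ, hd⟩ := Cardinal.lt_lift_iff.1 hS
    have h1 : #S = #(Set.Iio d.ord) := by
      rw [← hd, Cardinal.mk_Iio_ordinal, card_ord]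
    obtain ⟨e⟩ := Cardinal.eq.1 h1
    have hdo : d.ord < δ.ord := Cardinal.ord_lt_ord.2 hdδ
    have h2 : ∀ i, ∃ γ : Idx δ, (¬ ∀ s ∈ S, f i ∈ s) → γ.1 < d.ord ∧
        ∃ s : S, (e s).1 = γ.1 ∧ f i ∉ s.1 := by
      intro i
      by_cases hi : ∀ s ∈ S, f i ∈ s
      · exact ⟨f i, fun h => absurd hi h⟩
      · push Not at hi
        obtain ⟨s, hs, hfs⟩ := hi
        exact ⟨⟨(e ⟨s, hs⟩).1, Set.mem_Iio.2 (lt_trans (Set.mem_Iio.1 (e ⟨s, hs⟩).2) hdo)⟩,
          fun _ => ⟨(e ⟨s, hs⟩).2, ⟨s, hs⟩, rfl, hfs⟩⟩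
    choose γ hγ using h2
    obtain ⟨c, hcc⟩ := h.reg' (γ := γ) (by
      filter_upwards [hc', h.tail ⟨d.ord, hdo⟩] with i hi1 hi2
      exact lt_trans (show γ i < ⟨d.ord, hdo⟩ from (hγ i hi1).1) hi2)
    obtain ⟨i, hi1, hi2⟩ := (hc'.and hcc).exists
    obtain ⟨_, s, hs, _⟩ := hγ i hi1
    have h3 : ∀ᶠ i in (D : Filter I), f i ∉ s.1 := by
      filter_upwards [hc', hcc] with k hk1 hk2
      obtain ⟨_, s', hs', hs''⟩ := hγ k hk1
      have h4 : e s' = e s := Subtype.ext (by rw [hs', hs, hk2, hi2])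
      rw [← e.injective h4]
      exact hs''
    have h4 : ∀ᶠ i in (D : Filter I), f i ∈ s.1 := hSU s.1 s.2
    obtain ⟨k, hk1, hk2⟩ := (h3.and h4).exists
    exact hk1 hk2
  normal := by
    intro X hX
    rw [Ultrafilter.mem_map]
    by_contra hc
    have hc' : ∀ᶠ i in (D : Filter I), ¬ ∀ a, a < f i → f i ∈ X a := by
      rw [Ultrafilter.eventually_not]
      exact hc
    have h2 : ∀ i, ∃ a : Idx δ, (¬ ∀ a, a < f i → f i ∈ X a) → a < f i ∧ f i ∉ X a := by
      intro i
      by_cases hi : ∀ a, a < f i → f i ∈ X a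
      · exact ⟨f i, fun h => absurd hi h⟩
      · push Not at hi
        obtain ⟨a, ha⟩ := hi
        exact ⟨a, fun _ => ha⟩
    choose a ha using h2
    obtain ⟨c, hcc⟩ := h.reg' (γ := a) (hc'.mono fun i hi => (ha i hi).1)
    have h3 : ∀ᶠ i in (D : Filter I), f i ∈ X c := hX c
    obtain ⟨i, hi1, hi2, hi3⟩ := (hc'.and (hcc.and h3)).exists
    have := (ha i hi1).2
    rw [hi2] at this
    exact this hi3

/-- `D` is a countably complete ultrafilter whose ultrapower embedding `x ↦ col D (fun _ => x)`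
has critical point `δ`, and `f : I → δ` represents `δ` -/
structure Crit (δ : Cardinal.{u}) {I : Type w} (D : Ultrafilter I) (f : I → Idx δ) : Prop where
  complete : ∀ S : ℕ → Set I, (∀ n, S n ∈ D) → (⋂ n, S n) ∈ D
  fix : ∀ c : Idx δ, col D (fun _ => o c) = o c
  seed : col D (fun i => o (f i)) = kap δ

theorem Crit.toSeed [Small.{u} I] (h0 : ℵ₀ ≤ δ) (h : Crit δ D f) : Seed δ D f where
  inf := h0
  cc := h.complete
  tot := tot_of_countably_complete h.complete
  fix := fun c => (coll_iff (tot_of_countably_complete h.complete) _ _).2 (h.fix c)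
  seed := (coll_iff (tot_of_countably_complete h.complete) _ _).2 h.seed

theorem Seed.toCrit (h : Seed δ D f) : Crit δ D f where
  complete := h.cc
  fix := fun c => (coll_iff h.tot _ _).1 (h.fix c)
  seed := (coll_iff h.tot _ _).1 h.seed

end Pool.Agent.GWO
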