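import Pool.Agent.GWO.Canon

/-! # A uniform good wellordering forces `P(δ⁺)` into the ultrapower -/

namespace Pool.Agent.GWO

open Pool.Agent.SingleUlt Function Filter Cardinal Ordinal

universe u w

variable {δ : Cardinal.{u}} {I : Type w} {D : Ultrafilter I} {f : I → Idx δ}

theorem coll_sub_iff {g p : I → ZFSet.{u}} {A P : ZFSet.{u}} (hg : Coll D g A) (hp : Coll D p P) :
    A ⊆ P ↔ ∀ᶠ i in (D : Filter I), g i ⊆ p i := by
  have h := delta0_coll (D := D) (Delta0.ball (i := 2) (j := 0) (by decide) (Delta0.mem 2 1))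
    (fun n => if n = 0 then g else p) (fun n => if n = 0 then A else P)
    (fun n => by by_cases hn : n = 0 <;> simp [hn, hg, hp])
  rw [tr_ball (by decide)] at h
  have h1 : (∀ a, a ∈ (fun n : ℕ => if n = 0 then A else P) 0 →
      (Fml.mem 2 1).Tr (update (fun n : ℕ => if n = 0 then A else P) 2 a)) ↔ A ⊆ P := by
    constructor
    · intro h z hz
      have := h z hz
      simpa [Fml.Tr, Fml.Sat] using this
    · intro h a ha
      show update (fun n : ℕ => if n = 0 then A else P) 2 a 2 ∈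
        update (fun n : ℕ => if n = 0 then A else P) 2 a 1
      rw [update_self, update_of_ne (by decide)]
      exact h ha
  rw [← h1, h]
  refine eventually_congr (Eventually.of_forall fun i => ?_)
  rw [tr_ball (by decide)]
  constructor
  · intro h z hz
    have := h z (by simpa using hz)
    simpa [Fml.Tr, Fml.Sat] using this
  · intro h a ha
    have h2 : a ∈ p i := h (by simpa using ha)
    simpa [Fml.Tr, Fml.Sat] using h2

theorem coll_asg {s p : I → ZFSet.{u}} {S P : ZFSet.{u}} (hs : Coll D s S) (hp : Coll D p P)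
    (n : ℕ) : Coll D (fun i => asg (s i) (p i) n) (asg S P n) := by
  by_cases hn : n = 0
  · subst hn
    have h1 : (fun i => asg (s i) (p i) 0) = s := by funext i; simp [asg]
    have h2 : asg S P 0 = S := by simp [asg]
    rw [h1, h2]; exact hs
  · have h1 : (fun i => asg (s i) (p i) n) = p := by funext i; simp [asg, hn]
    have h2 : asg S P n = P := by simp [asg, hn]
    rw [h1, h2]; exact hp

theorem tr_up (tot : ∀ f : I → ZFSet.{u}, ∃ x, Coll D f x) {φ : Fml} (hφ : Sigma1 φ)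
    {s p : I → ZFSet.{u}} {S P : ZFSet.{u}} (hs : Coll D s S) (hp : Coll D p P)
    (h : ∀ᶠ i in (D : Filter I), φ.Tr (asg (s i) (p i))) : φ.Tr (asg S P) :=
  sigma1_up tot hφ (fun n i => asg (s i) (p i) n) (asg S P) (coll_asg hs hp) h

/-- the successor of an element -/
theorem IsGood.succ {φ : Fml} {p : ZFSet.{u}}
    {r : {x : ZFSet.{u} // x ⊆ p} → {x : ZFSet.{u} // x ⊆ p} → Prop} (h : IsGood φ p r)
    (y : {x : ZFSet.{u} // x ⊆ p}) : φ.Tr (asg (insert y.1 (ini r y)) p) := by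
  have hwo := h.wo
  have hne : {z | r y z}.Nonempty := h.noMax y
  have hwf : WellFounded r := IsWellFounded.wf
  let z := hwf.min {z | r y z} hne
  have hz1 : r y z := hwf.min_mem _ hne
  have hz2 : ∀ w, r y w → ¬ r w z := fun w hw => hwf.not_lt_min _ hw
  rw [h.def_iff]
  refine ⟨z, fun x => ?_⟩
  rw [ZFSet.mem_insert_iff, mem_ini]
  constructor
  · rintro (rfl | ⟨hx, hr⟩)
    · exact ⟨y.2, hz1⟩
    · exact ⟨hx, h.trans hr hz1⟩
  · rintro ⟨hx, hr⟩
    rcases h.tri ⟨x, hx⟩ y with h1 | h1 | h1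
    · exact Or.inr ⟨hx, h1⟩
    · exact Or.inl (congrArg Subtype.val h1)
    · exact absurd hr (hz2 _ h1)

theorem Seed.down (h : Seed δ D f) {φ : Fml} (hφ : Sigma1 φ)
    {r : {x : ZFSet.{u} // x ⊆ kap (Order.succ δ)} → {x : ZFSet.{u} // x ⊆ kap (Order.succ δ)} → Prop}
    (hr : IsGood φ (kap (Order.succ δ)) r)
    (hD : ∀ᶠ i in (D : Filter I), GoodWO φ (kap (Order.succ (f i).1.card)))
    (A B : {x : ZFSet.{u} // x ⊆ kap (Order.succ δ)}) (hBA : r B A) {g : I → ZFSet.{u}}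
    (hg : Coll D g A.1) : ∃ g', Coll D g' B.1 := by
  have hgp := (coll_sub_iff hg h.succ).1 A.2
  have h1 : ∀ i, ∃ s : ZFSet.{u}, (GoodWO φ (kap (Order.succ (f i).1.card)) ∧
      g i ⊆ kap (Order.succ (f i).1.card)) →
      g i ∉ s ∧ φ.Tr (asg s (kap (Order.succ (f i).1.card))) ∧
      φ.Tr (asg (insert (g i) s) (kap (Order.succ (f i).1.card))) := by
    intro i
    by_cases hi : GoodWO φ (kap (Order.succ (f i).1.card)) ∧ g i ⊆ kap (Order.succ (f i).1.card)
    · obtain ⟨R, hR⟩ := goodWO_iff.1 hi.1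
      refine ⟨ini R ⟨g i, hi.2⟩, fun _ => ⟨?_, hR.tr_ini _, hR.succ _⟩⟩
      intro hc
      obtain ⟨_, h2⟩ := mem_ini.1 hc
      exact hR.irrefl h2
    · exact ⟨∅, fun h => absurd h hi⟩
  choose s hs using h1
  have hae : ∀ᶠ i in (D : Filter I), g i ∉ s i ∧
      φ.Tr (asg (s i) (kap (Order.succ (f i).1.card))) ∧
      φ.Tr (asg (insert (g i) (s i)) (kap (Order.succ (f i).1.card))) := by
    filter_upwards [hD, hgp] with i h2 h3 using hs i ⟨h2, h3⟩
  obtain ⟨S, hS⟩ := h.tot s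
  obtain ⟨S', hS'⟩ := h.tot (fun i => insert (g i) (s i))
  have hW : φ.Tr (asg S (kap (Order.succ δ))) :=
    tr_up h.tot hφ hS h.succ (hae.mono fun i hi => hi.2.1)
  have hW' : φ.Tr (asg S' (kap (Order.succ δ))) :=
    tr_up h.tot hφ hS' h.succ (hae.mono fun i hi => hi.2.2)
  rw [hr.def_iff] at hW hW'
  obtain ⟨z, hz⟩ := hW
  obtain ⟨z', hz'⟩ := hW'
  have hAS : A.1 ∉ S := by
    intro hc
    have := (hS.mem_iff hg).2 hc
    obtain ⟨i, hi1, hi2⟩ := (this.and hae).exists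
    exact hi2.1 hi1
  have hAS' : A.1 ∈ S' := (hS'.mem_iff hg).1 (Eventually.of_forall fun i => ZFSet.mem_insert _ _)
  have hSS' : ∀ x, x ∈ S' → x = A.1 ∨ x ∈ S := by
    intro x hx
    obtain ⟨k, hk, hkx⟩ := hS'.snd hx
    have h2 : ∀ᶠ i in (D : Filter I), k i = g i ∨ k i ∈ s i := by
      filter_upwards [hk] with i hi using ZFSet.mem_insert_iff.1 hi
    rcases Ultrafilter.eventually_or.1 h2 with h3 | h3
    · exact Or.inl ((hkx.congr h3).unique hg)
    · exact Or.inr ((hS.mem_iff hkx).1 h3)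
  have hzA : z = A := by
    rcases hr.tri z A with h2 | h2 | h2
    · exfalso
      obtain ⟨_, h3⟩ := (hz' _).1 hAS'
      have h4 : z.1 ∈ S' := (hz' _).2 ⟨z.2, hr.trans h2 h3⟩
      rcases hSS' _ h4 with h5 | h5
      · have : z = A := Subtype.ext h5
        rw [this] at h2
        exact hr.irrefl h2
      · obtain ⟨_, h6⟩ := (hz _).1 h5
        exact hr.irrefl h6
    · exact h2
    · exact absurd ((hz _).2 ⟨A.2, h2⟩) hAS
  have hB : B.1 ∈ S := (hz _).2 ⟨B.2, by rw [hzA]; exact hBA⟩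
  obtain ⟨k, _, hk⟩ := hS.snd hB
  exact ⟨k, hk⟩

theorem kap_mono {a b : Cardinal.{u}} (h : a ≤ b) : kap a ⊆ kap b :=
  Ordinal.toZFSet_subset_toZFSet_iff.2 (Cardinal.ord_le_ord.2 h)

theorem Seed.contains (h : Seed δ D f) {φ : Fml} (hφ : Sigma1 φ) (hδ : Order.succ δ < 2 ^ δ)
    (hG : GoodWO φ (kap (Order.succ δ)))
    (hD : ∀ᶠ i in (D : Filter I), GoodWO φ (kap (Order.succ (f i).1.card))) :
    ∀ A : ZFSet.{u}, A ⊆ kap (Order.succ δ) → ∃ g, Coll D g A := by
  obtain ⟨r, hr⟩ := goodWO_iff.1 hG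
  intro A0 hA0
  by_contra hc
  have h1 : (kap δ).powerset ⊆ ini r ⟨A0, hA0⟩ := by
    intro X hX
    rw [ZFSet.mem_powerset] at hX
    have hX' : X ⊆ kap (Order.succ δ) := fun z hz => kap_mono (Order.le_succ δ) (hX hz)
    rw [mem_ini]
    refine ⟨hX', ?_⟩
    rcases hr.tri ⟨X, hX'⟩ ⟨A0, hA0⟩ with h2 | h2 | h2
    · exact h2
    · exfalso
      have h3 : X = A0 := congrArg Subtype.val h2
      exact hc ⟨_, h3 ▸ h.sub hX⟩
    · exact absurd (h.down hφ hr hD _ _ h2 (h.sub hX)) hc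
  have h2 := (ZFSet.card_mono h1).trans
    (hr.card_ini hφ (h.inf.trans (Order.le_succ δ)) ⟨A0, hA0⟩)
  rw [ZFSet.card_powerset, Ordinal.card_toZFSet, card_ord] at h2
  exact absurd h2 (not_le.2 hδ)

end Pool.Agent.GWO
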